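import Pool.Agent.Y744.PCR.Lim

/-! The abstract rigidity theorem. -/

open MeasureTheory Filter Topology Real

namespace Pool.Agent.Y744

/-- discrepancy (`y ≥ 0`), odd extension -/
noncomputable def dE (A' : ℝ → ℝ) (x : ℝ) : ℝ := (A' x - AG x) - (A' (-x) - AG (-x))

section

variable {A' : ℝ → ℝ} {C0 : ℝ}

lemma dE_odd (A' : ℝ → ℝ) (x : ℝ) : dE A' (-x) = -dE A' x := by
  unfold dE
  rw [neg_neg]
  ring

lemma dE_meas (hA' : Monotone A') : Measurable (dE A') := by
  unfold dE
  exact (hA'.measurable.sub AG_meas).sub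
    ((hA'.measurable.comp measurable_neg).sub (AG_meas.comp measurable_neg))

lemma dE_bound (hb : ∀ y, |A' y| ≤ C0 * (1 + y ^ 2)) (x : ℝ) :
    |dE A' x| ≤ (2 * C0 + 4) * (1 + x ^ 2) := by
  unfold dE
  have h1 := hb x
  have h2 := hb (-x)
  have h3 := AG_bound x
  have h4 := AG_bound (-x)
  rw [neg_sq] at h2 h4
  have e : A' x - AG x - (A' (-x) - AG (-x)) = A' x + -AG x + (-A' (-x) + AG (-x)) := by ring
  rw [e]
  refine (abs_add_le _ _).trans ((add_le_add (abs_add_le _ _) (abs_add_le _ _)).trans ?_)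
  rw [abs_neg, abs_neg]
  linarith

lemma dE_pos (hneg : ∀ y, y < 0 → A' y = 0) {x : ℝ} (hx : 0 < x) :
    dE A' x = A' x - AG x := by
  unfold dE
  rw [hneg (-x) (by linarith)]
  unfold AG
  rw [if_pos (by linarith : -x < 0)]
  ring

/-- the test functions -/
lemma test_int {κ : ℝ} {K : ℝ → ℝ} (hK : TK κ K) {g : ℝ → ℝ} (hg : Measurable g)
    {B : ℝ} (hB : ∀ x, |g x| ≤ B * (1 + x ^ 2)) (h : ℝ) :
    Integrable fun y => g y * ct K (y + h) := by
  obtain ⟨D, hD0, hD⟩ := hK.decay 2
  have hB0 : 0 ≤ B := by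
    have := (abs_nonneg _).trans (hB 0)
    simpa using this
  have h1 : ∀ y : ℝ, 1 + y ^ 2 ≤ 2 * (1 + h ^ 2) * (1 + (y + h) ^ 2) := by
    intro y
    nlinarith [sq_nonneg (y + h + h), sq_nonneg (h * (y + h)), sq_nonneg (y + 2 * h), sq_nonneg h]
  refine ((integrable_inv_one_add_sq.comp_add_right h).const_mul
    (B * (2 * (1 + h ^ 2)) * D)).mono'
    (hg.mul (hK.ct_cont.measurable.comp (by fun_prop))).aestronglyMeasurable
    (Eventually.of_forall fun y => ?_)
  rw [Real.norm_eq_abs, abs_mul]
  have h2 : 0 < 1 + (y + h) ^ 2 := by positivity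
  calc |g y| * |ct K (y + h)| ≤
        (B * (2 * (1 + h ^ 2) * (1 + (y + h) ^ 2))) * (D / (1 + (y + h) ^ 2) ^ 2) := by
        refine mul_le_mul ((hB y).trans (mul_le_mul_of_nonneg_left (h1 y) hB0)) (hD _)
          (abs_nonneg _) (by positivity)
    _ = B * (2 * (1 + h ^ 2)) * D * (1 + (y + h) ^ 2)⁻¹ := by field_simp

lemma test_decay {κ : ℝ} {K : ℝ → ℝ} (hK : TK κ K) (h : ℝ) :
    ∃ D, ∀ y, |ct K (y + h) - ct K (y - h)| ≤ D / (1 + y ^ 2) ^ 2 := by
  obtain ⟨D, hD0, hD⟩ := hK.decay 2
  have h1 : ∀ y h : ℝ, 1 + y ^ 2 ≤ 2 * (1 + h ^ 2) * (1 + (y + h) ^ 2) := by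
    intro y h
    nlinarith [sq_nonneg (y + h + h), sq_nonneg (h * (y + h)), sq_nonneg (y + 2 * h), sq_nonneg h]
  have h2 : ∀ y h : ℝ, |ct K (y + h)| ≤ D * (2 * (1 + h ^ 2)) ^ 2 / (1 + y ^ 2) ^ 2 := by
    intro y h
    refine (hD _).trans ?_
    rw [div_le_div_iff₀ (by positivity) (by positivity), mul_assoc]
    refine mul_le_mul_of_nonneg_left ?_ hD0
    rw [← mul_pow]
    exact pow_le_pow_left₀ (by positivity) (h1 y h) 2
  refine ⟨D * (2 * (1 + h ^ 2)) ^ 2 + D * (2 * (1 + h ^ 2)) ^ 2, fun y => ?_⟩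
  refine (abs_sub _ _).trans ?_
  rw [add_div]
  have h3 := h2 y (-h)
  rw [neg_sq, ← sub_eq_add_neg] at h3
  exact add_le_add (h2 y h) h3

/-- `H` annihilates the band-limited functions -/
lemma annih {κ : ℝ} {K : ℝ → ℝ} (hK : TK κ K) (hA' : Monotone A')
    (hb : ∀ y, |A' y| ≤ C0 * (1 + y ^ 2)) (h : ℝ)
    (hm : ∫ y, A' y * (ct K (y + h) - ct K (y - h)) = ∫ y, AG y * (ct K (y + h) - ct K (y - h))) :
    ∫ y, (dE A' (y + h) - dE A' (y - h)) * ct K y = 0 := by
  have hEm := dE_meas hA'
  have hEb := dE_bound hb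
  have i1 : ∀ h, Integrable fun y => dE A' y * ct K (y + h) := fun h => test_int hK hEm hEb h
  have e1 : ∀ h, ∫ y, dE A' (y + h) * ct K y = ∫ y, dE A' y * ct K (y - h) := by
    intro h
    have := integral_add_right_eq_self (μ := volume) (fun y => dE A' y * ct K (y - h)) h
    rw [← this]
    refine integral_congr_ae (Eventually.of_forall fun y => ?_)
    show dE A' (y + h) * ct K y = dE A' (y + h) * ct K (y + h - h)
    rw [add_sub_cancel_right]
  have i2 : ∀ h, Integrable fun y => dE A' (y + h) * ct K y := by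
    intro h
    have := (i1 (-h)).comp_add_right h
    refine this.congr (Eventually.of_forall fun y => ?_)
    show dE A' (y + h) * ct K (y + h + -h) = dE A' (y + h) * ct K y
    rw [add_neg_cancel_right]
  have e2 : ∫ y, (dE A' (y + h) - dE A' (y - h)) * ct K y =
      ∫ y, dE A' y * (ct K (y - h) - ct K (y + h)) := by
    have h1 : ∫ y, (dE A' (y + h) - dE A' (y - h)) * ct K y =
        (∫ y, dE A' (y + h) * ct K y) - ∫ y, dE A' (y + -h) * ct K y := by
      rw [← integral_sub (i2 h) (i2 (-h))]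
      refine integral_congr_ae (Eventually.of_forall fun y => ?_)
      show (dE A' (y + h) - dE A' (y - h)) * ct K y = dE A' (y + h) * ct K y -
        dE A' (y + -h) * ct K y
      rw [← sub_eq_add_neg]
      ring
    rw [h1, e1, e1]
    have i3 := i1 (-h)
    have h2 : ∫ y, dE A' y * (ct K (y - h) - ct K (y + h)) =
        (∫ y, dE A' y * ct K (y + -h)) - ∫ y, dE A' y * ct K (y + h) := by
      rw [← integral_sub (i1 (-h)) (i1 h)]
      refine integral_congr_ae (Eventually.of_forall fun y => ?_)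
      show dE A' y * (ct K (y - h) - ct K (y + h)) = dE A' y * ct K (y + -h) -
        dE A' y * ct K (y + h)
      rw [← sub_eq_add_neg]
      ring
    rw [h2]
    simp only [sub_neg_eq_add, ← sub_eq_add_neg]
  rw [e2]
  -- reduce to `δ`
  set w : ℝ → ℝ := fun y => ct K (y + h) - ct K (y - h) with hw
  have hwodd : ∀ y, w (-y) = -w y := by
    intro y
    simp only [hw]
    have a1 : ct K (-y + h) = ct K (y - h) := by
      rw [← TK.ct_neg K (y - h)]
      congr 1
      ring
    have a2 : ct K (-y - h) = ct K (y + h) := by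
      rw [← TK.ct_neg K (y + h)]
      congr 1
      ring
    rw [a1, a2]
    ring
  have hAb : ∀ x, |AG x| ≤ 2 * (1 + x ^ 2) := AG_bound
  have iA : Integrable fun y => A' y * w y := by
    refine ((test_int hK hA'.measurable hb h).sub (test_int hK hA'.measurable hb (-h))).congr
      (Eventually.of_forall fun y => ?_)
    show A' y * ct K (y + h) - A' y * ct K (y + -h) = A' y * (ct K (y + h) - ct K (y - h))
    rw [← sub_eq_add_neg]
    ring
  have iG : Integrable fun y => AG y * w y := by
    refine ((test_int hK AG_meas hAb h).sub (test_int hK AG_meas hAb (-h))).congr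
      (Eventually.of_forall fun y => ?_)
    show AG y * ct K (y + h) - AG y * ct K (y + -h) = AG y * (ct K (y + h) - ct K (y - h))
    rw [← sub_eq_add_neg]
    ring
  have iD : Integrable fun y => (A' y - AG y) * w y := by
    refine (iA.sub iG).congr (Eventually.of_forall fun y => ?_)
    show A' y * w y - AG y * w y = (A' y - AG y) * w y
    ring
  have d0 : ∫ y, (A' y - AG y) * w y = 0 := by
    have : ∫ y, (A' y - AG y) * w y = (∫ y, A' y * w y) - ∫ y, AG y * w y := by
      rw [← integral_sub iA iG]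
      refine integral_congr_ae (Eventually.of_forall fun y => ?_)
      show (A' y - AG y) * w y = A' y * w y - AG y * w y
      ring
    rw [this]
    have hm' : ∫ y, A' y * w y = ∫ y, AG y * w y := hm
    rw [hm', sub_self]
  have d1 : ∫ y, (A' (-y) - AG (-y)) * w y = 0 := by
    have h1 : ∫ y, (A' (-y) - AG (-y)) * w y = ∫ y, -((A' (-y) - AG (-y)) * w (-y)) := by
      refine integral_congr_ae (Eventually.of_forall fun y => ?_)
      show (A' (-y) - AG (-y)) * w y = -((A' (-y) - AG (-y)) * w (-y))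
      rw [hwodd]
      ring
    rw [h1, integral_neg, integral_neg_eq_self (fun y => (A' y - AG y) * w y) volume, d0, neg_zero]
  have iD1 : Integrable fun y => (A' (-y) - AG (-y)) * w y := by
    refine iD.comp_neg.neg.congr (Eventually.of_forall fun y => ?_)
    show -((A' (-y) - AG (-y)) * w (-y)) = (A' (-y) - AG (-y)) * w y
    rw [hwodd]
    ring
  have e3 : ∫ y, dE A' y * (ct K (y - h) - ct K (y + h)) =
      -((∫ y, (A' y - AG y) * w y) - ∫ y, (A' (-y) - AG (-y)) * w y) := by
    rw [← integral_sub iD iD1, ← integral_neg]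
    refine integral_congr_ae (Eventually.of_forall fun y => ?_)
    show dE A' y * (ct K (y - h) - ct K (y + h)) =
      -((A' y - AG y) * (ct K (y + h) - ct K (y - h)) -
        (A' (-y) - AG (-y)) * (ct K (y + h) - ct K (y - h)))
    unfold dE
    ring
  rw [e3, d0, d1]
  simp

end

/-- one sided exponentially small error for the windows of length `ℓ` forces periodicity -/
lemma periodic {A' : ℝ → ℝ} {C0 κ : ℝ} (hκ : 0 < κ) (hA' : Monotone A')
    (hneg : ∀ y, y < 0 → A' y = 0) (hb : ∀ y, |A' y| ≤ C0 * (1 + y ^ 2))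
    (hm : ∀ K, TK κ K → ∀ h, 0 < h →
      ∫ y, A' y * (ct K (y + h) - ct K (y - h)) = ∫ y, AG y * (ct K (y + h) - ct K (y - h)))
    {ℓ s C c a0 : ℝ} (hℓ : 0 < ℓ) (hs : s = 1 ∨ s = -1) (hC : 0 ≤ C) (hc : 0 < c) (ha0 : 0 < a0)
    (hyp : ∀ a, a0 ≤ a → ContinuousAt A' a →
      -(C * Real.exp (-(c * a))) ≤ s * (A' (a + ℓ) - A' a - 2 * (gp (a + ℓ) - gp a))) :
    ∀ᵐ x, dE A' (x + ℓ) = dE A' x := by
  set h : ℝ := ℓ / 2 with hh
  have hh0 : 0 < h := by rw [hh]; positivity
  have hEm := dE_meas hA'
  have hEb := dE_bound hb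
  have hC0 : 0 ≤ C0 := by
    have := (abs_nonneg _).trans (hb 0)
    simpa using this
  set H : ℝ → ℝ := fun y => s * (dE A' (y + h) - dE A' (y - h)) with hH
  have hs1 : |s| = 1 := by rcases hs with rfl | rfl <;> simp
  have hHm : Measurable H := by
    exact measurable_const.mul ((hEm.comp (by fun_prop)).sub (hEm.comp (by fun_prop)))
  have hHe : ∀ y, H (-y) = H y := by
    intro y
    simp only [hH]
    have a1 : dE A' (-y + h) = -dE A' (y - h) := by
      rw [← dE_odd]
      congr 1
      ring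
    have a2 : dE A' (-y - h) = -dE A' (y + h) := by
      rw [← dE_odd]
      congr 1
      ring
    rw [a1, a2]
    ring
  set B : ℝ := (2 * C0 + 4) * (4 * (1 + h ^ 2)) with hB
  have hB0 : 0 ≤ B := by rw [hB]; positivity
  have hHb : ∀ y, |H y| ≤ B * (1 + y ^ 2) := by
    intro y
    simp only [hH]
    rw [abs_mul, hs1, one_mul]
    refine (abs_sub _ _).trans ?_
    have h1 := hEb (y + h)
    have h2 := hEb (y - h)
    have h3 : 1 + (y + h) ^ 2 ≤ 2 * (1 + h ^ 2) * (1 + y ^ 2) := by
      nlinarith [sq_nonneg (y - h), sq_nonneg (y * h), sq_nonneg y, sq_nonneg h]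
    have h4 : 1 + (y - h) ^ 2 ≤ 2 * (1 + h ^ 2) * (1 + y ^ 2) := by
      nlinarith [sq_nonneg (y + h), sq_nonneg (y * h), sq_nonneg y, sq_nonneg h]
    have h5 : (2 * C0 + 4) * (1 + (y + h) ^ 2) ≤ (2 * C0 + 4) * (2 * (1 + h ^ 2) * (1 + y ^ 2)) :=
      mul_le_mul_of_nonneg_left h3 (by positivity)
    have h6 : (2 * C0 + 4) * (1 + (y - h) ^ 2) ≤ (2 * C0 + 4) * (2 * (1 + h ^ 2) * (1 + y ^ 2)) :=
      mul_le_mul_of_nonneg_left h4 (by positivity)
    rw [hB]
    linarith
  set R : ℝ := a0 + h with hR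
  have hR0 : 0 < R := by rw [hR]; positivity
  set C1 : ℝ := C * Real.exp (c * h) + B * (1 + R ^ 2) * Real.exp (c * R) with hC1
  have hC10 : 0 ≤ C1 := by rw [hC1]; positivity
  have hcont : ∀ᵐ y : ℝ, ContinuousAt A' (|y| - h) := by
    have hcn := hA'.countable_not_continuousAt
    have h1 : ({y : ℝ | ¬ ContinuousAt A' (|y| - h)}).Countable := by
      have h2 : {y : ℝ | ¬ ContinuousAt A' (|y| - h)} ⊆
          (fun u => u + h) '' {x | ¬ContinuousAt A' x} ∪
          (fun u => -(u + h)) '' {x | ¬ContinuousAt A' x} := by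
        intro y hy
        rcases abs_cases y with ⟨h3, _⟩ | ⟨h3, _⟩
        · left
          refine ⟨|y| - h, hy, ?_⟩
          show |y| - h + h = y
          rw [h3]; ring
        · right
          refine ⟨|y| - h, hy, ?_⟩
          show -(|y| - h + h) = y
          rw [h3]; ring
      exact ((hcn.image _).union (hcn.image _)).mono h2
    exact h1.ae_notMem volume |>.mono fun x hx => by
      by_contra hc
      exact hx hc
  have hlow0 : ∀ y, R ≤ y → ContinuousAt A' (y - h) → -(C1 * Real.exp (-(c * y))) ≤ H y := by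
    intro y hy hcy
    have ha : a0 ≤ y - h := by linarith
    have h1 := hyp (y - h) ha hcy
    have e1 : y - h + ℓ = y + h := by rw [hh]; ring
    rw [e1] at h1
    have e2 : H y = s * (A' (y + h) - A' (y - h) - 2 * (gp (y + h) - gp (y - h))) := by
      simp only [hH]
      rw [dE_pos hneg (by linarith : 0 < y + h), dE_pos hneg (by linarith : 0 < y - h)]
      unfold AG
      rw [if_neg (by linarith), if_neg (by linarith)]
      ring
    rw [e2]
    refine le_trans ?_ h1
    have e3 : Real.exp (-(c * (y - h))) = Real.exp (c * h) * Real.exp (-(c * y)) := by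
      rw [← Real.exp_add]
      ring_nf
    rw [e3, hC1]
    have h2 : 0 ≤ B * (1 + R ^ 2) * Real.exp (c * R) * Real.exp (-(c * y)) := by positivity
    nlinarith
  have hlow : ∀ᵐ y, -(C1 * Real.exp (-(c * |y|))) ≤ H y := by
    filter_upwards [hcont] with y hy
    by_cases hyR : R ≤ |y|
    · have h1 := hlow0 |y| hyR hy
      rcases abs_cases y with ⟨h2, _⟩ | ⟨h2, _⟩
      · rw [h2] at h1 ⊢
        exact h1
      · rw [h2] at h1 ⊢
        rw [hHe] at h1
        exact h1
    · push Not at hyR
      have h1 := neg_abs_le (H y)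
      have h2 := hHb y
      have h3 : B * (1 + y ^ 2) ≤ B * (1 + R ^ 2) := by
        refine mul_le_mul_of_nonneg_left ?_ hB0
        have : y ^ 2 ≤ R ^ 2 := by
          rw [← sq_abs]
          exact pow_le_pow_left₀ (abs_nonneg _) hyR.le 2
        linarith
      have h4 : 1 ≤ Real.exp (c * R) * Real.exp (-(c * |y|)) := by
        rw [← Real.exp_add]
        refine Real.one_le_exp ?_
        nlinarith
      have h5 : B * (1 + R ^ 2) ≤ C1 * Real.exp (-(c * |y|)) := by
        rw [hC1]
        have h6 : 0 ≤ C * Real.exp (c * h) * Real.exp (-(c * |y|)) := by positivity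
        have h7 : B * (1 + R ^ 2) * 1 ≤ B * (1 + R ^ 2) * (Real.exp (c * R) *
            Real.exp (-(c * |y|))) := mul_le_mul_of_nonneg_left h4 (by positivity)
        nlinarith
      linarith
  have hz : ∀ K, TK κ K → ∫ y, H y * ct K y = 0 := by
    intro K hK
    have h1 := annih hK hA' hb h (hm K hK h hh0)
    have h2 : ∫ y, H y * ct K y = s * ∫ y, (dE A' (y + h) - dE A' (y - h)) * ct K y := by
      rw [← integral_const_mul]
      refine integral_congr_ae (Eventually.of_forall fun y => ?_)
      show s * (dE A' (y + h) - dE A' (y - h)) * ct K y = _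
      ring
    rw [h2, h1, mul_zero]
  have hfin := high_pass hκ hHm hHe hHb hC10 hc hlow hz
  have h1 : ∀ᵐ y, dE A' (y + h) = dE A' (y - h) := by
    filter_upwards [hfin] with y hy
    have hs0 : s ≠ 0 := by rcases hs with rfl | rfl <;> norm_num
    have := (mul_eq_zero.1 hy).resolve_left hs0
    linarith
  have h2 := (measurePreserving_add_right (volume : Measure ℝ) h).quasiMeasurePreserving.ae h1
  filter_upwards [h2] with x hx
  have e1 : x + h + h = x + ℓ := by rw [hh]; ring
  have e2 : x + h - h = x := by ring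
  rw [e1, e2] at hx
  exact hx

/-- conclusion for a limit -/
lemma limit_eq {A' : ℝ → ℝ} {C0 : ℝ} (hA' : Monotone A')
    (hneg : ∀ y, y < 0 → A' y = 0) (hb : ∀ y, |A' y| ≤ C0 * (1 + y ^ 2)) (h0 : 1 ≤ A' 0)
    {l1 l2 : ℝ} (hirr : Irrational (l1 / l2))
    (h1 : ∀ᵐ x, dE A' (x + l1) = dE A' x) (h2 : ∀ᵐ x, dE A' (x + l2) = dE A' x) (x : ℝ) :
    A' x = AG x := by
  have hEm := dE_meas hA'
  have hEb := dE_bound hb
  have hloc : ∀ a b, IntervalIntegrable (dE A') volume a b := by
    intro a b
    have hc : IntervalIntegrable (fun x : ℝ => (2 * C0 + 4) * (1 + x ^ 2)) volume a b :=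
      (by fun_prop : Continuous fun x : ℝ => (2 * C0 + 4) * (1 + x ^ 2)).intervalIntegrable _ _
    refine hc.mono_fun hEm.aestronglyMeasurable (Eventually.of_forall fun x => ?_)
    show ‖dE A' x‖ ≤ ‖(2 * C0 + 4) * (1 + x ^ 2)‖
    rw [Real.norm_eq_abs, Real.norm_eq_abs]
    exact (hEb x).trans (le_abs_self _)
  have key : ∀ y, 0 < y → ContinuousAt A' y → A' y = 1 + 2 * gp y := by
    intro y hy hcy
    have hAGc : ContinuousAt AG y := by
      have : AG =ᶠ[𝓝 y] fun x => 1 + 2 * gp x := by
        filter_upwards [lt_mem_nhds hy] with z hz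
        unfold AG
        rw [if_neg (by linarith)]
      exact (continuousAt_const.add
        (continuousAt_const.mul gp_cont.continuousAt)).congr this.symm
    have hEc : ContinuousAt (dE A') y := by
      have : dE A' =ᶠ[𝓝 y] fun x => A' x - AG x := by
        filter_upwards [lt_mem_nhds hy] with z hz
        exact dE_pos hneg hz
      exact (hcy.sub hAGc).congr this.symm
    have h3 := per_zero hloc (dE_odd A') hirr h1 h2 y hEc
    rw [dE_pos hneg hy] at h3
    have h4 : AG y = 1 + 2 * gp y := by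
      unfold AG
      rw [if_neg (by linarith)]
    linarith
  have hdense : Dense {x | ContinuousAt A' x} := by
    have := hA'.countable_not_continuousAt.dense_compl ℝ
    refine this.mono fun x hx => ?_
    by_contra hc
    exact hx hc
  -- upper bound
  have hup : ∀ y, 0 ≤ y → A' y ≤ 1 + 2 * gp y := by
    intro y hy
    refine le_of_forall_pos_le_add fun ε hε => ?_
    have hc : ContinuousAt (fun z => 1 + 2 * gp z) y :=
      continuousAt_const.add (continuousAt_const.mul gp_cont.continuousAt)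
    have h3 : ∀ᶠ z in 𝓝 y, 1 + 2 * gp z < 1 + 2 * gp y + ε := hc.eventually_lt_const (by
      show 1 + 2 * gp y < _
      linarith)
    obtain ⟨δ, hδ, h4⟩ := Metric.eventually_nhds_iff.1 h3
    obtain ⟨z, hz, hz1, hz2⟩ := hdense.exists_between (show y < y + δ by linarith)
    have h5 := h4 (show dist z y < δ by rw [Real.dist_eq, abs_lt]; constructor <;> linarith)
    have h6 := key z (by linarith) hz
    have h7 := hA' hz1.le
    linarith
  rcases lt_trichotomy x 0 with hx | rfl | hx
  · rw [hneg x hx]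
    unfold AG
    rw [if_pos hx]
  · have h3 := hup 0 le_rfl
    rw [gp_zero] at h3
    unfold AG
    rw [if_neg (lt_irrefl _), gp_zero]
    linarith
  · have h3 := hup x hx.le
    unfold AG
    rw [if_neg (by linarith)]
    refine le_antisymm h3 ?_
    refine le_of_forall_pos_le_add fun ε hε => ?_
    have hc : ContinuousAt (fun z => 1 + 2 * gp z) x :=
      continuousAt_const.add (continuousAt_const.mul gp_cont.continuousAt)
    have h3 : ∀ᶠ z in 𝓝 x, 1 + 2 * gp x - ε < 1 + 2 * gp z := hc.eventually_const_lt (by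
      show _ < 1 + 2 * gp x
      linarith)
    obtain ⟨δ, hδ, h4⟩ := Metric.eventually_nhds_iff.1 h3
    obtain ⟨z, hz, hz1, hz2⟩ := hdense.exists_between
      (show max (x / 2) (x - δ / 2) < x by
        rw [max_lt_iff]; constructor <;> linarith)
    have hz3 : x / 2 < z := (le_max_left _ _).trans_lt hz1
    have hz4 : x - δ / 2 < z := (le_max_right _ _).trans_lt hz1
    have h5 := h4 (show dist z x < δ by rw [Real.dist_eq, abs_lt]; constructor <;> linarith)
    have h6 := key z (by linarith) hz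
    have h7 := hA' hz2.le
    linarith

end Pool.Agent.Y744
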