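import Pool.Agent.Y744.PCR.Win

/-! The final statements with the counting function of the problem. -/

open MeasureTheory Filter Topology Real

namespace Pool.Agent.Y744.G

open H370 TH803TW

/-- the nontrivial zeros of `ζ` with ordinate in `(0, T]` -/
def zeros (T : ℝ) : Set ℂ :=
  {s : ℂ | 0 < s.re ∧ s.re < 1 ∧ 0 < s.im ∧ s.im ≤ T ∧ riemannZeta s = 0}

/-- the multiplicity of `s` as a zero of `ζ` -/
noncomputable def mult (s : ℂ) : ℕ := analyticOrderNatAt riemannZeta s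

/-- the number of pairs -/
noncomputable def N (T α β : ℝ) : ℕ :=
  ∑ᶠ s ∈ zeros T, ∑ᶠ s' ∈ {s' : ℂ | s' ∈ zeros T ∧
    2 * Real.pi * α / Real.log T ≤ s.im - s'.im ∧ s.im - s'.im ≤ 2 * Real.pi * β / Real.log T},
      mult s * mult s'

/-- the constant of the conjecture -/
noncomputable def P (α β : ℝ) : ℝ :=
  (∫ u in α..β, (1 - (Real.sin (Real.pi * u) / (Real.pi * u)) ^ 2)) +
    if α ≤ 0 ∧ 0 ≤ β then 1 else 0

/-- `(T / 2π) log T` -/
noncomputable def X (T : ℝ) : ℝ := T / (2 * Real.pi) * Real.log T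

/-- the discrepancy -/
noncomputable def D (T α β : ℝ) : ℝ := N T α β / X T - P α β

/-- the conjecture along `F` -/
def Montgomery (F : Filter ℝ) : Prop := ∀ α β : ℝ, α < β →
  Asymptotics.IsEquivalent F (fun T => (N T α β : ℝ)) (fun T => P α β * X T)

/-- one sided bound -/
def OneSided (F : Filter ℝ) (ℓ s : ℝ) : Prop := ∃ C c A : ℝ, 0 < C ∧ 0 < c ∧ 0 < A ∧
  ∀ a : ℝ, A ≤ a → ∀ ε : ℝ, 0 < ε → ∀ᶠ T in F, s * D T a (a + ℓ) ≤ C * Real.exp (-(c * a)) + ε

lemma X_eq (T : ℝ) : X T = Xf T := by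
  unfold X Xf
  ring

lemma P_eq (α β : ℝ) : P α β = pr α β := by
  unfold P pr
  congr 1
  · rw [gp_sub]
    refine intervalIntegral.integral_congr_ae ?_
    have h0 : ∀ᵐ x : ℝ, x ≠ 0 := by
      rw [ae_iff]
      simp
    filter_upwards [h0] with x hx _
    unfold gd
    have hpi := Real.pi_pos
    rw [Real.sinc_of_ne_zero (by positivity)]
  · by_cases h : α ≤ 0 ∧ 0 ≤ β
    · rw [if_pos h, Set.indicator_of_mem (show (0 : ℝ) ∈ Set.Icc α β from h)]
    · rw [if_neg h, Set.indicator_of_notMem (show (0 : ℝ) ∉ Set.Icc α β from h)]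

lemma N_eq {T : ℝ} (hT : 1 < T) (α β : ℝ) : (N T α β : ℝ) = PC T (Set.Icc α β) := by
  classical
  have hlog : 0 < Real.log T := Real.log_pos hT
  have hpi := Real.pi_pos
  unfold N PC
  have hf : (zeros T).Finite := zeta_zeros_finite T
  have hfe : hf.toFinset = Zt T := by
    ext s
    rw [Set.Finite.mem_toFinset, mem_Zt]
    rfl
  rw [finsum_mem_eq_finite_toFinset_sum _ hf, hfe]
  push_cast
  refine Finset.sum_congr rfl fun s _ => ?_
  have hfin : {s' : ℂ | s' ∈ zeros T ∧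
      2 * Real.pi * α / Real.log T ≤ s.im - s'.im ∧
      s.im - s'.im ≤ 2 * Real.pi * β / Real.log T}.Finite :=
    (zeta_zeros_finite T).subset fun _ h => h.1
  rw [finsum_mem_eq_finite_toFinset_sum _ hfin]
  push_cast
  have e : ∀ s' : ℂ, mz s * mz s' * (Set.Icc α β).indicator (fun _ => (1 : ℝ)) (dd T s s') =
      if (dd T s s') ∈ Set.Icc α β then mz s * mz s' else 0 := by
    intro s'
    by_cases h : dd T s s' ∈ Set.Icc α β
    · rw [if_pos h, Set.indicator_of_mem h, mul_one]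
    · rw [if_neg h, Set.indicator_of_notMem h, mul_zero]
  simp_rw [e]
  rw [← Finset.sum_filter]
  refine Finset.sum_congr ?_ fun s' _ => rfl
  ext s'
  rw [Set.Finite.mem_toFinset, Finset.mem_filter]
  have e1 : (2 * Real.pi * α / Real.log T ≤ s.im - s'.im ∧
      s.im - s'.im ≤ 2 * Real.pi * β / Real.log T) ↔ dd T s s' ∈ Set.Icc α β := by
    unfold dd
    rw [Set.mem_Icc, div_le_iff₀ hlog, le_div_iff₀ hlog, le_div_iff₀ (by positivity),
      div_le_iff₀ (by positivity)]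
    constructor
    · rintro ⟨h1, h2⟩
      constructor <;> linarith
    · rintro ⟨h1, h2⟩
      constructor <;> linarith
  rw [← e1]
  show (s' ∈ zeros T ∧ _) ↔ _
  rw [mem_Zt]
  rfl

lemma D_eq {T : ℝ} (hT : 1 < T) (α β : ℝ) : D T α β = Nr T α β - pr α β := by
  unfold D Nr
  rw [N_eq hT, X_eq, P_eq]

lemma sinc_lt {x : ℝ} (hx : x ≠ 0) : Real.sinc x ^ 2 < 1 := by
  have h0 : ∀ x : ℝ, 0 < x → Real.sinc x ^ 2 < 1 := by
    intro x hx
    rw [Real.sinc_of_ne_zero hx.ne', div_pow, div_lt_one (by positivity)]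
    have h1 : |Real.sin x| < |x| := by
      rw [abs_of_pos hx]
      rcases le_or_gt x 1 with h | h
      · have h2 := Real.sin_pos_of_pos_of_lt_pi hx (by linarith [Real.pi_gt_three])
        rw [abs_of_pos h2]
        exact Real.sin_lt hx
      · exact (Real.abs_sin_le_one x).trans_lt h
    exact sq_lt_sq.2 h1
  rcases lt_or_gt_of_ne hx with h | h
  · have := h0 (-x) (by linarith)
    rwa [Real.sinc_neg] at this
  · exact h0 x h

lemma P_pos {α β : ℝ} (h : α < β) : 0 < P α β := by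
  rw [P_eq]
  unfold pr
  have h1 : 0 ≤ (Set.Icc α β).indicator (fun _ => (1 : ℝ)) 0 := ind_nonneg _ _
  have h2 : 0 < gp β - gp α := by
    rw [gp_sub]
    refine intervalIntegral.integral_pos h gd_cont.continuousOn (fun u _ => gd_nonneg u) ?_
    have hpos : ∀ c : ℝ, c ≠ 0 → 0 < gd c := by
      intro c hc
      unfold gd
      have := sinc_lt (x := Real.pi * c) (mul_ne_zero Real.pi_pos.ne' hc)
      linarith
    by_cases hβ : β = 0
    · exact ⟨α, ⟨le_rfl, h.le⟩, hpos α (by rw [hβ] at h; exact h.ne)⟩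
    · exact ⟨β, ⟨h.le, le_rfl⟩, hpos β hβ⟩
  linarith

lemma Mont_iff {F : Filter ℝ} (hF : F ≤ atTop) :
    Montgomery F ↔ ∀ α β, α < β → Tendsto (fun T => Nr T α β) F (𝓝 (pr α β)) := by
  refine forall_congr' fun α => forall_congr' fun β => forall_congr' fun h => ?_
  have hP := P_pos h
  have hev : ∀ᶠ T in F, 1 < T := hF (eventually_gt_atTop 1)
  have hne : ∀ᶠ T in F, P α β * X T ≠ 0 := by
    filter_upwards [hev] with T hT
    rw [X_eq]
    exact mul_ne_zero hP.ne' (Xf_pos hT).ne'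
  rw [Asymptotics.isEquivalent_iff_tendsto_one hne]
  have e : (fun T => (N T α β : ℝ)) / (fun T => P α β * X T) =ᶠ[F]
      fun T => Nr T α β / P α β := by
    filter_upwards [hev] with T hT
    show (N T α β : ℝ) / (P α β * X T) = _
    rw [N_eq hT, X_eq]
    unfold Nr
    rw [div_div, mul_comm (Xf T)]
  rw [tendsto_congr' e, ← P_eq]
  constructor
  · intro h1
    have := h1.mul_const (P α β)
    rw [one_mul] at this
    refine this.congr fun T => ?_
    rw [div_mul_cancel₀ _ hP.ne']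
  · intro h1
    have := h1.div_const (P α β)
    rwa [div_self hP.ne'] at this

lemma One_iff {F : Filter ℝ} (hF : F ≤ atTop) (ℓ s : ℝ) :
    OneSided F ℓ s ↔ OneS F ℓ s := by
  have hev : ∀ᶠ T in F, 1 < T := hF (eventually_gt_atTop 1)
  have e : ∀ a, 0 < a → pr a (a + ℓ) = gp (a + ℓ) - gp a := by
    intro a ha
    unfold pr
    rw [Set.indicator_of_notMem (by
      rintro ⟨h2, h3⟩
      linarith)]
    ring
  constructor
  · rintro ⟨C, c, A, hC, hc, hA, h⟩
    refine ⟨C, c, A, hC, hc, hA, fun a ha ε hε => ?_⟩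
    filter_upwards [h a ha ε hε, hev] with T h1 h2
    rw [D_eq h2, e a (by linarith)] at h1
    exact h1
  · rintro ⟨C, c, A, hC, hc, hA, h⟩
    refine ⟨C, c, A, hC, hc, hA, fun a ha ε hε => ?_⟩
    filter_upwards [h a ha ε hε, hev] with T h1 h2
    rw [D_eq h2, e a (by linarith)]
    exact h1

theorem main (hRH : RiemannHypothesis) (F : Filter ℝ) (hF : F ≤ atTop) :
    (∀ ℓ₁ ℓ₂ s₁ s₂ : ℝ, 0 < ℓ₁ → 0 < ℓ₂ → Irrational (ℓ₁ / ℓ₂) → (s₁ = 1 ∨ s₁ = -1) →
      (s₂ = 1 ∨ s₂ = -1) → (Montgomery F ↔ OneSided F ℓ₁ s₁ ∧ OneSided F ℓ₂ s₂)) ∧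
    (∀ ℓ s : ℝ, 0 < ℓ → (s = 1 ∨ s = -1) → OneSided F ℓ s → ∀ α β : ℝ, α < β →
      ∀ ε : ℝ, 0 < ε → ∀ᶠ T in F, |D T α β| ≤ Real.pi ^ 2 / 9 * ℓ ^ 3 + ε) := by
  constructor
  · intro ℓ₁ ℓ₂ s₁ s₂ h1 h2 hirr hs1 hs2
    rw [Mont_iff hF, One_iff hF, One_iff hF]
    exact criterion hRH hF h1 h2 hirr hs1 hs2
  · intro ℓ s hℓ hs h α β hαβ ε hε
    rw [One_iff hF] at h
    have hev : ∀ᶠ T in F, 1 < T := hF (eventually_gt_atTop 1)
    filter_upwards [one_length hRH hF hℓ hs h hαβ hε, hev] with T h1 h2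
    rw [D_eq h2]
    exact h1

end Pool.Agent.Y744.G
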