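import Pool.Agent.Y744.PCR.Core

/-! The abstract rigidity theorem along a filter. -/

open MeasureTheory Filter Topology Real

namespace Pool.Agent.Y744

/-- the one sided condition for the limit -/
lemma cond_limit {A : ℝ → ℝ → ℝ} {T0 : ℝ} {W : ℝ → ℝ → ℝ → ℝ}
    (hW1 : ∀ T, T0 ≤ T → ∀ a ℓ, 0 < a → 0 < ℓ → A T (a + ℓ) - A T a ≤ W T a ℓ)
    (hW2 : ∀ T, T0 ≤ T → ∀ a ℓ η, 0 < a → 0 < ℓ → 0 < η → W T a ℓ ≤ A T (a + ℓ) - A T (a - η))
    {u : Filter ℝ} [NeBot u] (hu : u ≤ atTop) {A' : ℝ → ℝ}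
    (hlim : ∀ y, Tendsto (fun T => A T y) u (𝓝 (A' y))) {ℓ s C c a0 : ℝ} (hℓ : 0 < ℓ)
    (hs : s = 1 ∨ s = -1) (ha0 : 0 < a0)
    (hyp : ∀ a, a0 ≤ a → ∀ ε, 0 < ε → ∀ᶠ T in u,
      -(C * Real.exp (-(c * a))) - ε ≤ s * (W T a ℓ - 2 * (gp (a + ℓ) - gp a))) :
    ∀ a, a0 ≤ a → ContinuousAt A' a →
      -(C * Real.exp (-(c * a))) ≤ s * (A' (a + ℓ) - A' a - 2 * (gp (a + ℓ) - gp a)) := by
  intro a ha hca
  have hapos : 0 < a := lt_of_lt_of_le ha0 ha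
  have hT : ∀ᶠ T in u, T0 ≤ T := hu (eventually_ge_atTop _)
  rcases hs with rfl | rfl
  · refine le_of_forall_pos_le_add fun ε hε => ?_
    have h1 : ∀ᶠ z in 𝓝 a, A' a - ε / 2 < A' z := hca.eventually_const_lt (by linarith)
    obtain ⟨δ, hδ, h2⟩ := Metric.eventually_nhds_iff.1 h1
    have h3 := h2 (show dist (a - δ / 2) a < δ by rw [Real.dist_eq, abs_lt]; constructor <;> linarith)
    have h4 : ∀ᶠ T in u, -(C * Real.exp (-(c * a))) - ε / 2 ≤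
        A T (a + ℓ) - A T (a - δ / 2) - 2 * (gp (a + ℓ) - gp a) := by
      filter_upwards [hT, hyp a ha (ε / 2) (by positivity)] with T hT1 hT2
      have := hW2 T hT1 a ℓ (δ / 2) hapos hℓ (by positivity)
      linarith
    have h5 : Tendsto (fun T => A T (a + ℓ) - A T (a - δ / 2) - 2 * (gp (a + ℓ) - gp a)) u
        (𝓝 (A' (a + ℓ) - A' (a - δ / 2) - 2 * (gp (a + ℓ) - gp a))) :=
      ((hlim _).sub (hlim _)).sub_const _
    have h6 := ge_of_tendsto h5 h4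
    linarith
  · refine le_of_forall_pos_le_add fun ε hε => ?_
    have h4 : ∀ᶠ T in u, -(C * Real.exp (-(c * a))) - ε ≤
        -1 * (A T (a + ℓ) - A T a - 2 * (gp (a + ℓ) - gp a)) := by
      filter_upwards [hT, hyp a ha ε hε] with T hT1 hT2
      have := hW1 T hT1 a ℓ hapos hℓ
      linarith
    have h5 : Tendsto (fun T => -1 * (A T (a + ℓ) - A T a - 2 * (gp (a + ℓ) - gp a))) u
        (𝓝 (-1 * (A' (a + ℓ) - A' a - 2 * (gp (a + ℓ) - gp a)))) :=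
      (((hlim _).sub (hlim _)).sub_const _).const_mul _
    have h6 := ge_of_tendsto h5 h4
    linarith

theorem rigid {A : ℝ → ℝ → ℝ} {T0 C0 κ : ℝ} (hκ : 0 < κ) (hmono : ∀ T, T0 ≤ T → Monotone (A T))
    (hneg : ∀ T y, y < 0 → A T y = 0) (hb : ∀ T, T0 ≤ T → ∀ y, |A T y| ≤ C0 * (1 + y ^ 2))
    (hdiag : ∀ ε, 0 < ε → ∀ᶠ T in atTop, 1 - ε ≤ A T 0)
    (hmont : ∀ K, TK κ K → ∀ h, 0 < h →
      Tendsto (fun T => ∫ y, A T y * (ct K (y + h) - ct K (y - h))) atTop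
        (𝓝 (∫ y, AG y * (ct K (y + h) - ct K (y - h)))))
    {W : ℝ → ℝ → ℝ → ℝ}
    (hW1 : ∀ T, T0 ≤ T → ∀ a ℓ, 0 < a → 0 < ℓ → A T (a + ℓ) - A T a ≤ W T a ℓ)
    (hW2 : ∀ T, T0 ≤ T → ∀ a ℓ η, 0 < a → 0 < ℓ → 0 < η → W T a ℓ ≤ A T (a + ℓ) - A T (a - η))
    {l : Filter ℝ} (hl : l ≤ atTop) {l1 l2 s1 s2 C c a0 : ℝ} (hl1 : 0 < l1) (hl2 : 0 < l2)
    (hirr : Irrational (l1 / l2)) (hs1 : s1 = 1 ∨ s1 = -1) (hs2 : s2 = 1 ∨ s2 = -1)
    (hC : 0 ≤ C) (hc : 0 < c) (ha0 : 0 < a0)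
    (hyp1 : ∀ a, a0 ≤ a → ∀ ε, 0 < ε → ∀ᶠ T in l,
      -(C * Real.exp (-(c * a))) - ε ≤ s1 * (W T a l1 - 2 * (gp (a + l1) - gp a)))
    (hyp2 : ∀ a, a0 ≤ a → ∀ ε, 0 < ε → ∀ᶠ T in l,
      -(C * Real.exp (-(c * a))) - ε ≤ s2 * (W T a l2 - 2 * (gp (a + l2) - gp a))) :
    ∀ x, Tendsto (fun T => A T x) l (𝓝 (AG x)) := by
  intro x
  rw [tendsto_iff_ultrafilter]
  intro g hg
  have hgt : (g : Filter ℝ) ≤ atTop := hg.trans hl
  have hT : ∀ᶠ T in (g : Filter ℝ), T0 ≤ T := hgt (eventually_ge_atTop _)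
  have hex : ∀ y, ∃ L, Tendsto (fun T => A T y) (g : Filter ℝ) (𝓝 L) := by
    intro y
    have h1 : ((g.map fun T => A T y : Ultrafilter ℝ) : Filter ℝ) ≤
        𝓟 (Set.Icc (-(C0 * (1 + y ^ 2))) (C0 * (1 + y ^ 2))) := by
      rw [le_principal_iff]
      have h2 : ∀ᶠ T in (g : Filter ℝ), A T y ∈
          Set.Icc (-(C0 * (1 + y ^ 2))) (C0 * (1 + y ^ 2)) := by
        filter_upwards [hT] with T hT1
        exact abs_le.1 (hb T hT1 y)
      exact h2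
    obtain ⟨L, _, hL⟩ := isCompact_Icc.ultrafilter_le_nhds _ h1
    exact ⟨L, hL⟩
  choose A' hlim using hex
  have hA' : Monotone A' := by
    intro a b hab
    refine le_of_tendsto_of_tendsto (hlim a) (hlim b) ?_
    filter_upwards [hT] with T hT1 using hmono T hT1 hab
  have hneg' : ∀ y, y < 0 → A' y = 0 := by
    intro y hy
    refine tendsto_nhds_unique (hlim y) ?_
    have : (fun T => A T y) = fun _ => 0 := funext fun T => hneg T y hy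
    rw [this]
    exact tendsto_const_nhds
  have hb' : ∀ y, |A' y| ≤ C0 * (1 + y ^ 2) := by
    intro y
    refine le_of_tendsto (hlim y).abs ?_
    filter_upwards [hT] with T hT1 using hb T hT1 y
  have h0 : 1 ≤ A' 0 := by
    refine le_of_forall_pos_le_add fun ε hε => ?_
    have h1 : ∀ᶠ T in (g : Filter ℝ), 1 - ε ≤ A T 0 := hgt (hdiag ε hε)
    have := ge_of_tendsto (hlim 0) h1
    linarith
  have hm : ∀ K, TK κ K → ∀ h, 0 < h →
      ∫ y, A' y * (ct K (y + h) - ct K (y - h)) = ∫ y, AG y * (ct K (y + h) - ct K (y - h)) := by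
    intro K hK h hh
    obtain ⟨D, hD⟩ := test_decay hK h
    refine lim_int hmono hb ?_ hD (hmont K hK h hh) hgt hA' hlim
    exact (hK.ct_cont.measurable.comp (by fun_prop)).sub (hK.ct_cont.measurable.comp (by fun_prop))
  have c1 := cond_limit hW1 hW2 hgt hlim hl1 hs1 ha0
    (fun a ha ε hε => hg (hyp1 a ha ε hε))
  have c2 := cond_limit hW1 hW2 hgt hlim hl2 hs2 ha0
    (fun a ha ε hε => hg (hyp2 a ha ε hε))
  have p1 := periodic hκ hA' hneg' hb' hm hl1 hs1 hC hc ha0 c1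
  have p2 := periodic hκ hA' hneg' hb' hm hl2 hs2 hC hc ha0 c2
  have := limit_eq hA' hneg' hb' h0 hirr p1 p2 x
  rw [← this]
  exact hlim x

end Pool.Agent.Y744
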