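import Pool.Agent.Y744.PCR.Abs

/-! Averages of the test functions. -/

open MeasureTheory Filter Topology Real

namespace Pool.Agent.Y744

/-- average of the test function -/
noncomputable def fav (K : ℝ → ℝ) (h y : ℝ) : ℝ := ∫ u in (y - h)..(y + h), ct K u

variable {κ : ℝ} {K : ℝ → ℝ} {h : ℝ}

lemma fav_deriv (hK : TK κ K) (h y : ℝ) :
    HasDerivAt (fav K h) (ct K (y + h) - ct K (y - h)) y := by
  have hc := hK.ct_cont
  set P : ℝ → ℝ := fun x => ∫ u in (0 : ℝ)..x, ct K u with hP
  have hPd : ∀ x, HasDerivAt P (ct K x) x := fun x =>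
    intervalIntegral.integral_hasDerivAt_right (hc.intervalIntegrable _ _)
      (hc.stronglyMeasurableAtFilter _ _) hc.continuousAt
  have e : fav K h = fun y => P (y + h) - P (y - h) := by
    funext y
    exact (intervalIntegral.integral_interval_sub_left (hc.intervalIntegrable _ _)
      (hc.intervalIntegrable _ _)).symm
  rw [e]
  have h1 : HasDerivAt (fun y => P (y + h)) (ct K (y + h)) y := (hPd (y + h)).comp_add_const y h
  have h2 : HasDerivAt (fun y => P (y - h)) (ct K (y - h)) y := (hPd (y - h)).comp_sub_const y h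
  exact h1.sub h2

lemma fav_even (K : ℝ → ℝ) (h y : ℝ) : fav K h (-y) = fav K h y := by
  unfold fav
  have h1 : ∫ u in (y - h)..(y + h), ct K (-u) = ∫ u in (-(y + h))..(-(y - h)), ct K u :=
    intervalIntegral.integral_comp_neg _
  have h2 : ∫ u in (y - h)..(y + h), ct K (-u) = ∫ u in (y - h)..(y + h), ct K u :=
    intervalIntegral.integral_congr fun u _ => TK.ct_neg K u
  rw [h2] at h1
  rw [h1]
  congr 1 <;> ring

lemma shift_ineq (y h : ℝ) : 1 + y ^ 2 ≤ 2 * (1 + h ^ 2) * (1 + (y + h) ^ 2) := by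
  nlinarith [sq_nonneg (y + h + h), sq_nonneg (h * (y + h)), sq_nonneg (y + 2 * h), sq_nonneg h]

lemma fav_decay (hK : TK κ K) (hh : 0 < h) : ∃ D, 0 ≤ D ∧ ∀ y, |fav K h y| ≤ D / (1 + y ^ 2) ^ 2 := by
  obtain ⟨D, hD0, hD⟩ := hK.decay 2
  refine ⟨D * (2 * (1 + h ^ 2)) ^ 2 * (2 * h), by positivity, fun y => ?_⟩
  have h1 : ∀ u ∈ Set.uIoc (y - h) (y + h), ‖ct K u‖ ≤ D * (2 * (1 + h ^ 2)) ^ 2 / (1 + y ^ 2) ^ 2 := by
    intro u hu
    rw [Set.uIoc_of_le (by linarith)] at hu
    rw [Real.norm_eq_abs]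
    refine (hD u).trans ?_
    rw [div_le_div_iff₀ (by positivity) (by positivity), mul_assoc]
    refine mul_le_mul_of_nonneg_left ?_ hD0
    rw [← mul_pow]
    refine pow_le_pow_left₀ (by positivity) ?_ 2
    have h2 := shift_ineq y (u - y)
    rw [add_sub_cancel] at h2
    refine h2.trans ?_
    have h3 : (u - y) ^ 2 ≤ h ^ 2 := by
      rw [← sq_abs (u - y)]
      refine pow_le_pow_left₀ (abs_nonneg _) ?_ 2
      rw [abs_le]
      constructor <;> linarith [hu.1, hu.2]
    have h4 : 0 ≤ 1 + u ^ 2 := by positivity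
    nlinarith
  have h2 := intervalIntegral.norm_integral_le_of_norm_le_const h1
  rw [Real.norm_eq_abs] at h2
  refine h2.trans (le_of_eq ?_)
  rw [show y + h - (y - h) = 2 * h by ring, abs_of_pos (by positivity)]
  ring

lemma fav_scale (hK : TK κ K) (h : ℝ) : ∃ C, 0 ≤ C ∧ ∀ y s, 1 ≤ s →
    |fav K h (s * y) - fav K h y| ≤ C * (s - 1) / (1 + y ^ 2) := by
  obtain ⟨D, hD⟩ := test_decay hK h
  have hD0 : 0 ≤ D := by
    have := (abs_nonneg _).trans (hD 0)
    simpa using this
  refine ⟨D, hD0, fun y s hs => ?_⟩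
  have h1 : ∀ t ∈ Set.Icc (1 : ℝ) s, HasDerivWithinAt (fun t => fav K h (t * y))
      ((ct K (t * y + h) - ct K (t * y - h)) * y) (Set.Icc 1 s) t := by
    intro t _
    have h2 : HasDerivAt (fun t : ℝ => t * y) y t := by
      simpa using (hasDerivAt_id t).mul_const y
    exact ((fav_deriv hK h (t * y)).comp t h2).hasDerivWithinAt
  have h2 : ∀ t ∈ Set.Icc (1 : ℝ) s, ‖(ct K (t * y + h) - ct K (t * y - h)) * y‖ ≤
      D / (1 + y ^ 2) := by
    intro t ht
    rw [norm_mul, Real.norm_eq_abs, Real.norm_eq_abs]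
    have h3 := hD (t * y)
    have h4 : 1 + y ^ 2 ≤ 1 + (t * y) ^ 2 := by
      have h5 : y ^ 2 * 1 ≤ y ^ 2 * t ^ 2 :=
        mul_le_mul_of_nonneg_left (one_le_pow₀ ht.1) (sq_nonneg y)
      nlinarith
    have h5 : D / (1 + (t * y) ^ 2) ^ 2 ≤ D / (1 + y ^ 2) ^ 2 := by
      gcongr
    have h6 : |y| ≤ 1 + y ^ 2 := by
      nlinarith [sq_abs y, sq_nonneg (|y| - 1), abs_nonneg y]
    calc |ct K (t * y + h) - ct K (t * y - h)| * |y| ≤ D / (1 + y ^ 2) ^ 2 * (1 + y ^ 2) := by
          refine mul_le_mul (h3.trans h5) h6 (abs_nonneg _) (by positivity)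
      _ = D / (1 + y ^ 2) := by field_simp
  have h3 := Convex.norm_image_sub_le_of_norm_hasDerivWithin_le h1 h2 (convex_Icc 1 s)
    (Set.left_mem_Icc.2 hs) (Set.right_mem_Icc.2 hs)
  rw [Real.norm_eq_abs, Real.norm_eq_abs, abs_of_nonneg (by linarith : 0 ≤ s - 1), one_mul] at h3
  refine h3.trans (le_of_eq ?_)
  ring

lemma fav_tendsto (hK : TK κ K) (hh : 0 < h) : Tendsto (fav K h) atTop (𝓝 0) := by
  obtain ⟨D, hD0, hD⟩ := fav_decay hK hh
  have h1 : Tendsto (fun y : ℝ => D * y⁻¹) atTop (𝓝 (D * 0)) :=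
    tendsto_inv_atTop_zero.const_mul D
  rw [mul_zero] at h1
  refine squeeze_zero_norm' ?_ h1
  filter_upwards [eventually_ge_atTop (1 : ℝ)] with y hy
  rw [Real.norm_eq_abs]
  refine (hD y).trans ?_
  rw [div_eq_mul_inv]
  refine mul_le_mul_of_nonneg_left ?_ hD0
  refine inv_anti₀ (by linarith) ?_
  nlinarith [sq_nonneg y, sq_nonneg (y ^ 2)]

lemma dfav_int (hK : TK κ K) (h : ℝ) : Integrable fun y => ct K (y + h) - ct K (y - h) := by
  have h1 := test_int hK (g := fun _ => (1 : ℝ)) measurable_const (B := 1)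
    (fun x => by rw [abs_one, one_mul]; nlinarith [sq_nonneg x])
  have := (h1 h).sub (h1 (-h))
  refine this.congr (Eventually.of_forall fun y => ?_)
  show 1 * ct K (y + h) - 1 * ct K (y + -h) = _
  rw [← sub_eq_add_neg]
  ring

/-- the tail integral -/
lemma tail_int (hK : TK κ K) (hh : 0 < h) (t : ℝ) :
    ∫ y in Set.Ioi t, (ct K (y + h) - ct K (y - h)) = -fav K h t := by
  rw [integral_Ioi_of_hasDerivAt_of_tendsto' (fun y _ => fav_deriv hK h y)
    (dfav_int hK h).integrableOn (fav_tendsto hK hh)]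
  ring

/-- the integral of the predicted counting function -/
lemma AG_int (hK : TK κ K) (hh : 0 < h) :
    ∫ y, AG y * (ct K (y + h) - ct K (y - h)) = -(fav K h 0 + ∫ y, fav K h y * gd y) := by
  obtain ⟨D, hD0, hD⟩ := fav_decay hK hh
  obtain ⟨D2, hD2⟩ := test_decay hK h
  have hfc : Continuous (fav K h) := continuous_iff_continuousAt.2 fun y =>
    (fav_deriv hK h y).continuousAt
  have hwc : Continuous fun y => ct K (y + h) - ct K (y - h) :=
    (hK.ct_cont.comp (by fun_prop)).sub (hK.ct_cont.comp (by fun_prop))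
  -- integrability
  have i1 : Integrable fun y => fav K h y * gd y := by
    refine (integrable_inv_one_add_sq.const_mul D).mono'
      (hfc.mul gd_cont).aestronglyMeasurable (Eventually.of_forall fun y => ?_)
    rw [Real.norm_eq_abs, abs_mul, abs_of_nonneg (gd_nonneg y)]
    have h1 : (1 : ℝ) ≤ 1 + y ^ 2 := by nlinarith [sq_nonneg y]
    calc |fav K h y| * gd y ≤ D / (1 + y ^ 2) ^ 2 * 1 :=
          mul_le_mul (hD y) (gd_le y) (gd_nonneg y) (by positivity)
      _ ≤ D * (1 + y ^ 2)⁻¹ := by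
          rw [mul_one, div_eq_mul_inv]
          refine mul_le_mul_of_nonneg_left ?_ hD0
          refine inv_anti₀ (by positivity) ?_
          nlinarith
  have i2 : Integrable fun y => AG y * (ct K (y + h) - ct K (y - h)) := by
    have := (test_int hK AG_meas AG_bound h).sub (test_int hK AG_meas AG_bound (-h))
    refine this.congr (Eventually.of_forall fun y => ?_)
    show AG y * ct K (y + h) - AG y * ct K (y + -h) = _
    rw [← sub_eq_add_neg]
    ring
  -- reduction to the half line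
  have e1 : ∫ y, AG y * (ct K (y + h) - ct K (y - h)) =
      ∫ y in Set.Ioi 0, (1 + 2 * gp y) * (ct K (y + h) - ct K (y - h)) := by
    rw [← integral_add_compl (measurableSet_Iic (a := (0 : ℝ))) i2]
    have h1 : ∫ y in Set.Iic (0 : ℝ), AG y * (ct K (y + h) - ct K (y - h)) = 0 := by
      rw [integral_Iic_eq_integral_Iio]
      refine setIntegral_eq_zero_of_forall_eq_zero fun y hy => ?_
      have hy' : y < 0 := hy
      unfold AG
      rw [if_pos hy', zero_mul]
    rw [h1, zero_add, Set.compl_Iic]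
    refine setIntegral_congr_fun measurableSet_Ioi fun y hy => ?_
    have hy' : (0 : ℝ) < y := hy
    show AG y * _ = _
    unfold AG
    rw [if_neg (by linarith)]
  set G : ℝ → ℝ := fun y => (1 + 2 * gp y) * fav K h y with hG
  have hGd : ∀ y, HasDerivAt G (2 * gd y * fav K h y +
      (1 + 2 * gp y) * (ct K (y + h) - ct K (y - h))) y := by
    intro y
    have h1 : HasDerivAt (fun y => 1 + 2 * gp y) (2 * gd y) y :=
      ((gp_deriv y).const_mul 2).const_add 1
    exact h1.mul (fav_deriv hK h y)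
  have j1 : IntegrableOn (fun y => 2 * gd y * fav K h y) (Set.Ioi 0) := by
    have := (i1.const_mul 2).integrableOn (s := Set.Ioi (0 : ℝ))
    refine this.congr_fun (fun y _ => ?_) measurableSet_Ioi
    show 2 * (fav K h y * gd y) = _
    ring
  have j2 : IntegrableOn (fun y => (1 + 2 * gp y) * (ct K (y + h) - ct K (y - h)))
      (Set.Ioi 0) := by
    refine (i2.integrableOn (s := Set.Ioi (0 : ℝ))).congr_fun (fun y hy => ?_) measurableSet_Ioi
    have hy' : (0 : ℝ) < y := hy
    show AG y * _ = _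
    unfold AG
    rw [if_neg (by linarith)]
  have hGt : Tendsto G atTop (𝓝 0) := by
    have h1 : Tendsto (fun y : ℝ => 3 * D * y⁻¹) atTop (𝓝 (3 * D * 0)) :=
      tendsto_inv_atTop_zero.const_mul (3 * D)
    rw [mul_zero] at h1
    refine squeeze_zero_norm' ?_ h1
    filter_upwards [eventually_ge_atTop (1 : ℝ)] with y hy
    rw [Real.norm_eq_abs, hG]
    show |(1 + 2 * gp y) * fav K h y| ≤ _
    have h2 := gp_nonneg (x := y) (by linarith)
    have h3 := gp_le (x := y) (by linarith)
    rw [abs_mul, abs_of_nonneg (by linarith)]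
    have hy0 : 0 < y := by linarith
    have h4 : D / (1 + y ^ 2) ^ 2 ≤ D * (y⁻¹ * y⁻¹) := by
      rw [div_eq_mul_inv, ← mul_inv]
      refine mul_le_mul_of_nonneg_left ?_ hD0
      refine inv_anti₀ (by positivity) ?_
      nlinarith [sq_nonneg y, sq_nonneg (y ^ 2)]
    calc (1 + 2 * gp y) * |fav K h y| ≤ (3 * y) * (D * (y⁻¹ * y⁻¹)) := by
          refine mul_le_mul (by linarith) ((hD y).trans h4) (abs_nonneg _) (by positivity)
      _ = 3 * D * y⁻¹ := by field_simp
  have key := integral_Ioi_of_hasDerivAt_of_tendsto' (a := 0) (fun y _ => hGd y) (j1.add j2) hGt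
  rw [integral_add j1 j2] at key
  have hG0 : G 0 = fav K h 0 := by
    simp only [hG, gp_zero]
    ring
  rw [hG0] at key
  -- evenness
  have e2 : ∫ y in Set.Ioi (0 : ℝ), 2 * gd y * fav K h y = ∫ y, fav K h y * gd y := by
    have h1 : ∫ y in Set.Ioi (0 : ℝ), 2 * gd y * fav K h y =
        2 * ∫ y in Set.Ioi (0 : ℝ), fav K h y * gd y := by
      rw [← integral_const_mul]
      refine integral_congr_ae (Eventually.of_forall fun y => ?_)
      show 2 * gd y * fav K h y = _
      ring
    have h2 := integral_comp_abs (f := fun y => fav K h y * gd y)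
    have h3 : ∫ y : ℝ, (fun y => fav K h y * gd y) |y| = ∫ y, fav K h y * gd y := by
      refine integral_congr_ae (Eventually.of_forall fun y => ?_)
      show fav K h |y| * gd |y| = fav K h y * gd y
      rcases abs_cases y with ⟨hy, _⟩ | ⟨hy, _⟩
      · rw [hy]
      · rw [hy, fav_even]
        congr 1
        unfold gd
        rw [mul_neg, Real.sinc_neg]
    rw [h1, ← h2, h3]
  rw [e1, ← e2]
  linarith

end Pool.Agent.Y744
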