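import Pool.Agent.Y744.PCR.Avg
import Pool.Agent.Y744.PCR.NTd
import Pool.Agent.H345R2.A2.Four

/-! The averages as test functions of Montgomery's theorem. -/

open MeasureTheory Filter Topology Real

namespace Pool.Agent.Y744

open Pool.Agent.Results.MP_103a5c_nt.BohrSetPairs

/-- the transform of the average -/
noncomputable def Kav (K : ℝ → ℝ) (h α : ℝ) : ℝ := K α * (2 * h * Real.sinc (2 * π * h * α))

lemma inner_cos (h y α : ℝ) : ∫ u in (y - h)..(y + h), Real.cos (2 * π * u * α) =
    2 * h * Real.sinc (2 * π * h * α) * Real.cos (2 * π * y * α) := by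
  rcases eq_or_ne α 0 with rfl | hα
  · simp
    ring
  · have hpi := Real.pi_pos
    have hd : ∀ u ∈ Set.uIcc (y - h) (y + h), HasDerivAt
        (fun u => Real.sin (2 * π * u * α) / (2 * π * α)) (Real.cos (2 * π * u * α)) u := by
      intro u _
      have h1 : HasDerivAt (fun u : ℝ => 2 * π * u * α) (2 * π * α) u := by
        have := ((hasDerivAt_id u).const_mul (2 * π)).mul_const α
        simpa using this
      have h2 := (h1.sin).div_const (2 * π * α)
      have e : Real.cos (2 * π * u * α) * (2 * π * α) / (2 * π * α) = Real.cos (2 * π * u * α) := by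
        field_simp
      rwa [e] at h2
    rw [intervalIntegral.integral_eq_sub_of_hasDerivAt hd
      ((by fun_prop : Continuous fun u : ℝ => Real.cos (2 * π * u * α)).intervalIntegrable _ _)]
    rcases eq_or_ne h 0 with rfl | hh
    · simp
    · rw [Real.sinc_of_ne_zero (by positivity)]
      have e1 : 2 * π * (y + h) * α = 2 * π * y * α + 2 * π * h * α := by ring
      have e2 : 2 * π * (y - h) * α = 2 * π * y * α - 2 * π * h * α := by ring
      rw [e1, e2, Real.sin_add, Real.sin_sub]
      field_simp
      ring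

variable {κ : ℝ} {K : ℝ → ℝ} {h : ℝ}

lemma fav_eq (hK : TK κ K) (hh : 0 < h) (y : ℝ) : fav K h y = ct (Kav K h) y := by
  unfold fav ct
  rw [intervalIntegral.integral_of_le (by linarith)]
  have hint : Integrable (Function.uncurry fun u α : ℝ => K α * Real.cos (2 * π * u * α))
      ((volume.restrict (Set.Ioc (y - h) (y + h))).prod volume) := by
    have h1 : Integrable (fun _ : ℝ => (1 : ℝ)) (volume.restrict (Set.Ioc (y - h) (y + h))) :=
      integrable_const _
    refine (h1.mul_prod hK.integrable.norm).mono' ?_ (Eventually.of_forall fun z => ?_)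
    · have hc := hK.cont
      apply Continuous.aestronglyMeasurable
      unfold Function.uncurry
      fun_prop
    · simp only [Function.uncurry]
      rw [norm_mul, one_mul]
      exact mul_le_of_le_one_right (norm_nonneg _) (by
        rw [Real.norm_eq_abs]
        exact Real.abs_cos_le_one _)
  rw [integral_integral_swap hint]
  refine integral_congr_ae (Eventually.of_forall fun α => ?_)
  show ∫ u in Set.Ioc (y - h) (y + h), K α * Real.cos (2 * π * u * α) =
    Kav K h α * Real.cos (2 * π * y * α)
  rw [integral_const_mul, ← intervalIntegral.integral_of_le (by linarith), inner_cos]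
  unfold Kav
  ring

lemma ct_eq_r {R : ℝ → ℝ} (hR : ∀ x, 1 < |x| → R x = 0) (y : ℝ) : ct R y = r R y := by
  unfold ct r
  rw [intervalIntegral.integral_of_le (by norm_num), ← integral_Icc_eq_integral_Ioc]
  symm
  refine setIntegral_eq_integral_of_forall_compl_eq_zero fun x hx => ?_
  rw [hR x, zero_mul]
  by_contra hc
  push Not at hc
  exact hx (abs_le.1 hc)

lemma Kav_supp (hK : TK κ K) (x : ℝ) (hx : κ < |x|) : Kav K h x = 0 := by
  unfold Kav
  rw [hK.supp x hx, zero_mul]

lemma Kav_cont (hK : TK κ K) : Continuous (Kav K h) := by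
  unfold Kav
  exact hK.cont.mul (continuous_const.mul (Real.continuous_sinc.comp (by fun_prop)))

lemma Kav_even (hK : TK κ K) (x : ℝ) : Kav K h (-x) = Kav K h x := by
  unfold Kav
  rw [hK.even, mul_neg, Real.sinc_neg]

lemma r_Kav (hK : TK κ K) (hκ : κ < 1) (hh : 0 < h) (y : ℝ) : r (Kav K h) y = fav K h y := by
  rw [← ct_eq_r (fun x hx => Kav_supp hK x (hκ.trans hx)), fav_eq hK hh]

theorem NTf_fav (hK : TK κ K) (hκ0 : 0 < κ) (hκ : κ < 1) (hh : 0 < h) :
    NTf (Kav K h) ((κ + 1) / 2) (fav K h) where
  test := by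
    refine ⟨Kav_cont hK, Kav_even hK, fun x hx => Kav_supp hK x (by linarith), ?_⟩
    obtain ⟨D, hD0, hD⟩ := fav_decay hK hh
    refine ⟨D, fun x => ?_⟩
    rw [r_Kav hK hκ hh]
    refine (hD x).trans ?_
    refine div_le_div_of_nonneg_left hD0 (by positivity) ?_
    nlinarith [sq_nonneg x, sq_nonneg (x ^ 2)]
  κ0 := by linarith
  κ1 := by linarith
  eq := r_Kav hK hκ hh
  even := fav_even K h
  scale := fav_scale hK h

/-- the main term is that of GUE -/
theorem mont_fav (hK : TK κ K) (hκ : κ < 1) (hh : 0 < h) :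
    mont (Kav K h) = fav K h 0 + ∫ y, fav K h y * gd y := by
  have hRR : ∀ x, H370.A2.RR (Kav K h) 1 x = fav K h x := by
    intro x
    rw [← r_Kav hK hκ hh]
    unfold H370.A2.RR r
    refine intervalIntegral.integral_congr fun α _ => ?_
    show Kav K h α * Real.cos (2 * π * α * x) = Kav K h α * Real.cos (2 * π * x * α)
    congr 2
    ring
  obtain ⟨D, hD0, hD⟩ := fav_decay hK hh
  have h1 := H370.A2.main_term (ψ := Kav K h) (μ := 1) (C := D) (Kav_cont hK)
    (fun x hx => Kav_supp hK x (by linarith)) le_rfl (fun x => by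
      rw [hRR]
      have h2 : |fav K h x| * x ^ 2 ≤ D / (1 + x ^ 2) ^ 2 * x ^ 2 :=
        mul_le_mul_of_nonneg_right (hD x) (sq_nonneg x)
      refine h2.trans ?_
      rw [div_mul_eq_mul_div, div_le_iff₀ (by positivity)]
      refine mul_le_mul_of_nonneg_left ?_ hD0
      nlinarith [sq_nonneg x, sq_nonneg (x ^ 2)])
  simp_rw [hRR] at h1
  have h2 : ∫ y, fav K h y * gd y =
      ∫ x, fav K h x * (1 - (Real.sin (π * x) / (π * x)) ^ 2) := by
    refine integral_congr_ae ?_
    have h0 : ∀ᵐ x : ℝ, x ≠ 0 := by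
      rw [ae_iff]
      simp
    filter_upwards [h0] with x hx
    unfold gd
    have hpi := Real.pi_pos
    rw [Real.sinc_of_ne_zero (by positivity)]
  rw [h2, h1]
  unfold mont
  congr 1
  have hc : Continuous fun α : ℝ => |α| * Kav K h α := continuous_abs.mul (Kav_cont hK)
  rw [← intervalIntegral.integral_add_adjacent_intervals (a := -1) (b := 0) (c := 1)
    (hc.intervalIntegrable _ _) (hc.intervalIntegrable _ _)]
  have h3 : ∫ α in (-1 : ℝ)..0, |α| * Kav K h α = ∫ α in (0 : ℝ)..1, |α| * Kav K h α := by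
    have := intervalIntegral.integral_comp_neg (a := 0) (b := 1)
      (fun α : ℝ => |α| * Kav K h α)
    rw [neg_zero] at this
    rw [← this]
    refine intervalIntegral.integral_congr fun α _ => ?_
    show |(-α)| * Kav K h (-α) = |α| * Kav K h α
    rw [abs_neg, Kav_even hK]
  have h4 : ∫ α in (0 : ℝ)..1, |α| * Kav K h α = ∫ α in (0 : ℝ)..1, α * Kav K h α := by
    refine intervalIntegral.integral_congr fun α hα => ?_
    rw [Set.uIcc_of_le (by norm_num)] at hα
    show |α| * Kav K h α = α * Kav K h α
    rw [abs_of_nonneg hα.1]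
  rw [h3, h4]
  ring

/-- the predicted integral is minus the main term -/
theorem AG_mont (hK : TK κ K) (hκ : κ < 1) (hh : 0 < h) :
    ∫ y, AG y * (ct K (y + h) - ct K (y - h)) = -mont (Kav K h) := by
  rw [AG_int hK hh, mont_fav hK hκ hh]

end Pool.Agent.Y744
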