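import Pool.Agent.Y744.PCR.ConnB

/-! The counting functions of the differences of ordinates. -/

open MeasureTheory Filter Topology Real

namespace Pool.Agent.Y744

open H370 TH803TW Pool.Agent.Results.MP_103a5c_nt.BohrSetPairs

/-- normalised difference -/
noncomputable def dd (T : ℝ) (s s' : ℂ) : ℝ := (s.im - s'.im) * Real.log T / (2 * π)

/-- number of pairs with normalised difference in `S` -/
noncomputable def PC (T : ℝ) (S : Set ℝ) : ℝ :=
  ∑ s ∈ Zt T, ∑ s' ∈ Zt T, mz s * mz s' * S.indicator (fun _ => (1 : ℝ)) (dd T s s')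

lemma dd_swap (T : ℝ) (s s' : ℂ) : dd T s' s = -dd T s s' := by
  unfold dd
  ring

lemma ind_nonneg (S : Set ℝ) (x : ℝ) : 0 ≤ S.indicator (fun _ => (1 : ℝ)) x :=
  Set.indicator_nonneg (fun _ _ => zero_le_one) x

lemma PC_nonneg (T : ℝ) (S : Set ℝ) : 0 ≤ PC T S := by
  unfold PC
  refine Finset.sum_nonneg fun s _ => Finset.sum_nonneg fun s' _ => ?_
  exact mul_nonneg (mul_nonneg (mz_nonneg _) (mz_nonneg _)) (ind_nonneg _ _)

lemma PC_mono (T : ℝ) {S S' : Set ℝ} (h : S ⊆ S') : PC T S ≤ PC T S' := by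
  unfold PC
  refine Finset.sum_le_sum fun s _ => Finset.sum_le_sum fun s' _ => ?_
  refine mul_le_mul_of_nonneg_left ?_ (mul_nonneg (mz_nonneg _) (mz_nonneg _))
  exact Set.indicator_le_indicator_of_subset h (fun _ => zero_le_one) _

lemma PC_union (T : ℝ) {S S' : Set ℝ} (h : Disjoint S S') : PC T (S ∪ S') = PC T S + PC T S' := by
  unfold PC
  rw [← Finset.sum_add_distrib]
  refine Finset.sum_congr rfl fun s _ => ?_
  rw [← Finset.sum_add_distrib]
  refine Finset.sum_congr rfl fun s' _ => ?_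
  rw [Set.indicator_union_of_disjoint h]
  ring

lemma PC_neg (T : ℝ) (S : Set ℝ) : PC T (-S) = PC T S := by
  unfold PC
  rw [Finset.sum_comm]
  refine Finset.sum_congr rfl fun s _ => Finset.sum_congr rfl fun s' _ => ?_
  rw [dd_swap, mul_comm (mz s')]
  congr 1
  by_cases h : dd T s s' ∈ S
  · rw [Set.indicator_of_mem h, Set.indicator_of_mem (by
      rw [Set.mem_neg, neg_neg]; exact h)]
  · rw [Set.indicator_of_notMem h, Set.indicator_of_notMem (by
      rw [Set.mem_neg, neg_neg]; exact h)]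

/-- the number of differences of absolute value at most `y`, normalised -/
noncomputable def Aa (T y : ℝ) : ℝ := (Xf T)⁻¹ * PC T {x | |x| ≤ y}

/-- twice the number of differences in `[a, a + ℓ]`, normalised -/
noncomputable def Ww (T a ℓ : ℝ) : ℝ := (Xf T)⁻¹ * PC T {x | a ≤ |x| ∧ |x| ≤ a + ℓ}

lemma Aa_mono {T : ℝ} (hT : 1 < T) : Monotone (Aa T) := by
  intro a b hab
  unfold Aa
  refine mul_le_mul_of_nonneg_left (PC_mono T fun x (hx : |x| ≤ a) => hx.trans hab) ?_
  exact inv_nonneg.2 (Xf_pos hT).le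

lemma Aa_neg (T y : ℝ) (hy : y < 0) : Aa T y = 0 := by
  unfold Aa
  have : {x : ℝ | |x| ≤ y} = ∅ := by
    ext x
    simp only [Set.mem_ofPred_eq, Set.mem_empty_iff_false, iff_false, not_le]
    exact hy.trans_le (abs_nonneg x)
  rw [this]
  unfold PC
  simp

lemma Ww_lower {T a ℓ : ℝ} (hT : 1 < T) : Aa T (a + ℓ) - Aa T a ≤ Ww T a ℓ := by
  unfold Aa Ww
  rw [← mul_sub]
  refine mul_le_mul_of_nonneg_left ?_ (inv_nonneg.2 (Xf_pos hT).le)
  have h1 : PC T {x | |x| ≤ a + ℓ} ≤ PC T ({x | |x| ≤ a} ∪ {x | a < |x| ∧ |x| ≤ a + ℓ}) := by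
    refine PC_mono T fun x (hx : |x| ≤ a + ℓ) => ?_
    rcases le_or_gt |x| a with h | h
    · exact Or.inl h
    · exact Or.inr ⟨h, hx⟩
  rw [PC_union T (by
    rw [Set.disjoint_left]
    rintro x (h1 : |x| ≤ a) ⟨h2, _⟩
    linarith)] at h1
  have h2 : PC T {x | a < |x| ∧ |x| ≤ a + ℓ} ≤ PC T {x | a ≤ |x| ∧ |x| ≤ a + ℓ} :=
    PC_mono T fun x hx => ⟨hx.1.le, hx.2⟩
  linarith

lemma Ww_upper {T a ℓ η : ℝ} (hT : 1 < T) (hη : 0 < η) (hℓ : 0 < ℓ) :
    Ww T a ℓ ≤ Aa T (a + ℓ) - Aa T (a - η) := by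
  unfold Aa Ww
  rw [← mul_sub]
  refine mul_le_mul_of_nonneg_left ?_ (inv_nonneg.2 (Xf_pos hT).le)
  have h1 : PC T ({x | |x| ≤ a - η} ∪ {x | a ≤ |x| ∧ |x| ≤ a + ℓ}) ≤ PC T {x | |x| ≤ a + ℓ} := by
    refine PC_mono T fun x hx => ?_
    rcases hx with (h : |x| ≤ a - η) | h
    · show |x| ≤ a + ℓ
      linarith
    · exact h.2
  rw [PC_union T (by
    rw [Set.disjoint_left]
    rintro x (h1 : |x| ≤ a - η) ⟨h2, _⟩
    linarith)] at h1
  linarith

/-- growth of the counting function -/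
lemma Aa_bound (RH : RiemannHypothesis) : ∃ C0 T0 : ℝ, 20 ≤ T0 ∧ ∀ T : ℝ, T0 ≤ T → ∀ y,
    |Aa T y| ≤ C0 * (1 + y ^ 2) := by
  obtain ⟨C, B0, V0, hC, hB0, hV0, hblk, hloc⟩ := PP_bound RH
  have hpi := Real.pi_pos
  refine ⟨3200 * (B0 + C) * (2 * π), V0, hV0, fun T hT y => ?_⟩
  have hT20 : 20 ≤ T := hV0.trans hT
  have hX := Xf_pos (V := T) (by linarith)
  have hL1 : 1 ≤ Real.log T := by
    rw [Real.le_log_iff_exp_le (by linarith)]
    linarith [Real.exp_one_lt_d9]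
  rcases lt_or_ge y 0 with hy | hy
  · rw [Aa_neg T y hy, abs_zero]
    positivity
  · unfold Aa
    rw [abs_of_nonneg (mul_nonneg (inv_nonneg.2 hX.le) (PC_nonneg _ _)), inv_mul_le_iff₀ hX]
    have h1 : PC T {x | |x| ≤ y} ≤ (1 + y ^ 2) * ∑ s ∈ Zt T, ∑ s' ∈ Zt T, mz s * mz s' *
        |(fun x : ℝ => 1 / (1 + x ^ 2)) ((s.im - s'.im) * Real.log T / (2 * π))| := by
      unfold PC
      rw [Finset.mul_sum]
      refine Finset.sum_le_sum fun s _ => ?_
      rw [Finset.mul_sum]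
      refine Finset.sum_le_sum fun s' _ => ?_
      have hm : 0 ≤ mz s * mz s' := mul_nonneg (mz_nonneg _) (mz_nonneg _)
      show mz s * mz s' * Set.indicator {x | |x| ≤ y} (fun _ => (1 : ℝ)) (dd T s s') ≤
        (1 + y ^ 2) * (mz s * mz s' * |1 / (1 + (dd T s s') ^ 2)|)
      set x := dd T s s'
      have h2 : Set.indicator {x | |x| ≤ y} (fun _ => (1 : ℝ)) x ≤
          (1 + y ^ 2) * (1 / (1 + x ^ 2)) := by
        by_cases hx : |x| ≤ y
        · rw [Set.indicator_of_mem (show x ∈ {x | |x| ≤ y} from hx), mul_one_div,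
            le_div_iff₀ (by positivity), one_mul]
          have : x ^ 2 ≤ y ^ 2 := by
            rw [← sq_abs x]
            exact pow_le_pow_left₀ (abs_nonneg _) hx 2
          linarith
        · rw [Set.indicator_of_notMem (show x ∉ {x | |x| ≤ y} from hx)]
          positivity
      rw [abs_of_nonneg (by positivity)]
      have h3 := mul_le_mul_of_nonneg_left h2 hm
      linarith
    have h2 := QS_abs_bound (x := fun s : ℂ => s.im) (Zt T) (Zt T) mz_nonneg
      (f := fun x : ℝ => 1 / (1 + x ^ 2)) (K := 1) (fun x => by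
        rw [abs_of_nonneg (by positivity)]) (Λ := Real.log T) (by linarith) one_pos
    have h3 := hloc T hT (Real.log T) le_rfl
    have h4 : B0 ≤ B0 * (T * Real.log T) := by
      have : 1 ≤ T * Real.log T := by nlinarith
      nlinarith
    calc PC T {x | |x| ≤ y} ≤ _ := h1
      _ ≤ (1 + y ^ 2) * (3200 * ((B0 + C) * (T * Real.log T))) := by
          refine mul_le_mul_of_nonneg_left (h2.trans ?_) (by positivity)
          linarith
      _ = Xf T * (3200 * (B0 + C) * (2 * π) * (1 + y ^ 2)) := by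
          unfold Xf
          field_simp

/-- the diagonal -/
lemma Aa_diag {ε : ℝ} (hε : 0 < ε) : ∀ᶠ T in atTop, 1 - ε ≤ Aa T 0 := by
  classical
  obtain ⟨T0, hT0, h⟩ := Pool.Agent.W54.TCF.NT_asymp' ε hε
  filter_upwards [eventually_ge_atTop T0] with T hT
  have hX := Xf_pos (V := T) (by linarith)
  have h1 := (h T hT).1
  have h2 : (NN riemannZeta 0 T : ℝ) ≤ PC T {x | |x| ≤ 0} := by
    rw [← sum_Zt]
    unfold PC
    refine Finset.sum_le_sum fun s hs => ?_
    have h3 : mz s ≤ mz s * mz s * Set.indicator {x | |x| ≤ 0} (fun _ => (1 : ℝ)) (dd T s s) := by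
      have h4 : dd T s s = 0 := by unfold dd; simp
      rw [h4, Set.indicator_of_mem (by simp : (0 : ℝ) ∈ {x : ℝ | |x| ≤ 0}), mul_one]
      unfold mz
      rcases Nat.eq_zero_or_pos (mult riemannZeta s) with h5 | h5
      · rw [h5]; simp
      · have : (1 : ℝ) ≤ (mult riemannZeta s : ℝ) := by exact_mod_cast h5
        nlinarith
    refine h3.trans (Finset.single_le_sum (f := fun s' => mz s * mz s' *
      Set.indicator {x | |x| ≤ 0} (fun _ => (1 : ℝ)) (dd T s s')) (fun s' _ => ?_) hs)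
    exact mul_nonneg (mul_nonneg (mz_nonneg _) (mz_nonneg _)) (ind_nonneg _ _)
  unfold Aa
  rw [le_inv_mul_iff₀ hX]
  refine le_trans (le_of_eq ?_) (h1.trans h2)
  unfold Xf
  ring

/-- the integrals against the test functions -/
lemma Aa_int {κ : ℝ} {K : ℝ → ℝ} (hK : TK κ K) {h : ℝ} (hh : 0 < h) (T : ℝ) :
    ∫ y, Aa T y * (ct K (y + h) - ct K (y - h)) =
      -((Xf T)⁻¹ * Q2 (fav K h) T (Real.log T)) := by
  have hw := dfav_int hK h
  have e1 : ∀ y, Aa T y * (ct K (y + h) - ct K (y - h)) =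
      (Xf T)⁻¹ * ∑ s ∈ Zt T, ∑ s' ∈ Zt T, mz s * mz s' *
        (Set.Ici |dd T s s'|).indicator (fun y => ct K (y + h) - ct K (y - h)) y := by
    intro y
    unfold Aa PC
    rw [mul_assoc, Finset.sum_mul]
    congr 1
    refine Finset.sum_congr rfl fun s _ => ?_
    rw [Finset.sum_mul]
    refine Finset.sum_congr rfl fun s' _ => ?_
    rw [mul_assoc]
    congr 1
    by_cases hx : |dd T s s'| ≤ y
    · rw [Set.indicator_of_mem (show dd T s s' ∈ {x | |x| ≤ y} from hx),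
        Set.indicator_of_mem (show y ∈ Set.Ici |dd T s s'| from hx), one_mul]
    · rw [Set.indicator_of_notMem (show dd T s s' ∉ {x | |x| ≤ y} from hx),
        Set.indicator_of_notMem (show y ∉ Set.Ici |dd T s s'| from hx), zero_mul]
  simp_rw [e1]
  have hi : ∀ t : ℝ, Integrable ((Set.Ici t).indicator
      (fun y => ct K (y + h) - ct K (y - h))) := fun t => hw.indicator measurableSet_Ici
  rw [integral_const_mul, integral_finsetSum _ fun s _ => integrable_finsetSum _ fun s' _ =>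
    (hi _).const_mul _]
  rw [← mul_neg]
  congr 1
  unfold Q2 QS
  rw [← Finset.sum_neg_distrib]
  refine Finset.sum_congr rfl fun s _ => ?_
  rw [integral_finsetSum _ fun s' _ => (hi _).const_mul _, ← Finset.sum_neg_distrib]
  refine Finset.sum_congr rfl fun s' _ => ?_
  rw [integral_const_mul, integral_indicator measurableSet_Ici, integral_Ici_eq_integral_Ioi,
    tail_int hK hh]
  have : fav K h |dd T s s'| = fav K h ((s.im - s'.im) * Real.log T / (2 * π)) := by
    show fav K h |dd T s s'| = fav K h (dd T s s')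
    rcases abs_cases (dd T s s') with ⟨h1, _⟩ | ⟨h1, _⟩
    · rw [h1]
    · rw [h1, fav_even]
  rw [this]
  ring

/-- **the rigidity theorem for the counting functions** -/
theorem rigid_Aa (RH : RiemannHypothesis) {l : Filter ℝ} (hl : l ≤ atTop)
    {l1 l2 s1 s2 C c a0 : ℝ} (hl1 : 0 < l1) (hl2 : 0 < l2)
    (hirr : Irrational (l1 / l2)) (hs1 : s1 = 1 ∨ s1 = -1) (hs2 : s2 = 1 ∨ s2 = -1)
    (hC : 0 ≤ C) (hc : 0 < c) (ha0 : 0 < a0)
    (hyp1 : ∀ a, a0 ≤ a → ∀ ε, 0 < ε → ∀ᶠ T in l,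
      -(C * Real.exp (-(c * a))) - ε ≤ s1 * (Ww T a l1 - 2 * (gp (a + l1) - gp a)))
    (hyp2 : ∀ a, a0 ≤ a → ∀ ε, 0 < ε → ∀ᶠ T in l,
      -(C * Real.exp (-(c * a))) - ε ≤ s2 * (Ww T a l2 - 2 * (gp (a + l2) - gp a))) :
    ∀ x, Tendsto (fun T => Aa T x) l (𝓝 (AG x)) := by
  obtain ⟨C0, T0, hT0, hb⟩ := Aa_bound RH
  refine rigid (κ := 1 / 2) (by norm_num) (T0 := T0) (fun T hT => Aa_mono (by linarith))
    (fun T y hy => Aa_neg T y hy) hb (fun ε hε => Aa_diag hε) (fun K hK h hh => ?_)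
    (W := Ww) (fun T hT a ℓ ha hℓ => Ww_lower (by linarith))
    (fun T hT a ℓ η ha hℓ hη => Ww_upper (by linarith) hη hℓ) hl hl1 hl2 hirr hs1 hs2 hC hc ha0
    hyp1 hyp2
  have h1 := (mont_lim RH (NTf_fav hK (by norm_num) (by norm_num) hh)).neg
  rw [AG_mont hK (by norm_num) hh]
  refine h1.congr fun T => ?_
  rw [Aa_int hK hh]
  rw [div_eq_inv_mul]

end Pool.Agent.Y744
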