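import Pool.Agent.Y744.PCR.Fin

/-! From the counting function of the absolute values to all windows. -/

open MeasureTheory Filter Topology Real

namespace Pool.Agent.Y744

lemma gp_odd (x : ℝ) : gp (-x) = -gp x := by
  have h1 := gp_sub (-x) 0
  have h2 : ∫ u in (-x)..0, gd u = ∫ u in (0 : ℝ)..x, gd u := by
    have := intervalIntegral.integral_comp_neg (a := 0) (b := x) gd
    rw [neg_zero] at this
    rw [← this]
    refine intervalIntegral.integral_congr fun u _ => ?_
    show gd (-u) = gd u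
    unfold gd
    rw [mul_neg, Real.sinc_neg]
  rw [h2, gp_zero] at h1
  have h3 : gp x = ∫ u in (0 : ℝ)..x, gd u := rfl
  linarith

/-- the number of differences in `[α, β]`, normalised -/
noncomputable def Nr (T α β : ℝ) : ℝ := PC T (Set.Icc α β) / Xf T

/-- the prediction -/
noncomputable def pr (α β : ℝ) : ℝ := (gp β - gp α) + (Set.Icc α β).indicator (fun _ => 1) 0

section

variable {l : Filter ℝ}

lemma PC_abs (T : ℝ) {y : ℝ} (hy : 0 ≤ y) :
    PC T {x | |x| ≤ y} = 2 * PC T (Set.Icc 0 y) - PC T {x | |x| ≤ 0} := by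
  have e1 : {x : ℝ | |x| ≤ y} = Set.Ico (-y) 0 ∪ Set.Icc 0 y := by
    rw [Set.Ico_union_Icc_eq_Icc (by linarith) hy]
    ext x
    show |x| ≤ y ↔ -y ≤ x ∧ x ≤ y
    rw [abs_le]
  have e2 : PC T (Set.Ico (-y) 0) = PC T (Set.Ioc 0 y) := by
    rw [← PC_neg T (Set.Ioc 0 y)]
    congr 1
    simp
  have e3 : PC T (Set.Icc 0 y) = PC T {x | |x| ≤ 0} + PC T (Set.Ioc 0 y) := by
    rw [← PC_union T]
    · congr 1
      ext x
      simp only [Set.mem_Icc, Set.mem_union, Set.mem_ofPred_eq, abs_nonpos_iff, Set.mem_Ioc]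
      constructor
      · rintro ⟨h1, h2⟩
        rcases h1.eq_or_lt with h | h
        · exact Or.inl h.symm
        · exact Or.inr ⟨h, h2⟩
      · rintro (rfl | ⟨h1, h2⟩)
        · exact ⟨le_rfl, hy⟩
        · exact ⟨h1.le, h2⟩
    · rw [Set.disjoint_left]
      rintro x (h1 : |x| ≤ 0) h2
      rw [abs_nonpos_iff] at h1
      rw [h1] at h2
      exact lt_irrefl _ h2.1
  rw [e1, PC_union T (by
    rw [Set.disjoint_left]
    rintro x h1 h2
    exact absurd h1.2 (not_lt.2 h2.1)), e2]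
  linarith

lemma Nr_zero_left (h : ∀ x, Tendsto (fun T => Aa T x) l (𝓝 (AG x))) {y : ℝ} (hy : 0 ≤ y) :
    Tendsto (fun T => Nr T 0 y) l (𝓝 (1 + gp y)) := by
  have h1 := ((h y).add (h 0)).div_const 2
  have e1 : (AG y + AG 0) / 2 = 1 + gp y := by
    unfold AG
    rw [if_neg (by linarith), if_neg (lt_irrefl _), gp_zero]
    ring
  rw [e1] at h1
  refine h1.congr fun T => ?_
  unfold Nr Aa
  rw [PC_abs T hy]
  ring

/-- half open windows at `0` -/
lemma Nr_Ico (hl : l ≤ atTop) (h : ∀ x, Tendsto (fun T => Aa T x) l (𝓝 (AG x))) {y : ℝ}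
    (hy : 0 < y) : Tendsto (fun T => PC T (Set.Ico 0 y) / Xf T) l (𝓝 (1 + gp y)) := by
  rw [tendsto_order]
  constructor
  · intro a ha
    have hc : ContinuousAt (fun z => 1 + gp z) y := continuousAt_const.add gp_cont.continuousAt
    have h1 : ∀ᶠ z in 𝓝 y, a < 1 + gp z := hc.eventually_const_lt ha
    obtain ⟨δ, hδ, h2⟩ := Metric.eventually_nhds_iff.1 h1
    set z := max (y / 2) (y - δ / 2) with hz
    have hz1 : y / 2 ≤ z := le_max_left _ _
    have hz2 : y - δ / 2 ≤ z := le_max_right _ _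
    have hz3 : z < y := by
      rw [hz, max_lt_iff]
      constructor <;> linarith
    have h3 := h2 (show dist z y < δ by rw [Real.dist_eq, abs_lt]; constructor <;> linarith)
    have h4 := Nr_zero_left h (y := z) (by linarith)
    filter_upwards [(tendsto_order.1 h4).1 a h3, hl (eventually_gt_atTop (1 : ℝ))] with T hT hT1
    refine hT.trans_le ?_
    unfold Nr
    refine div_le_div_of_nonneg_right ?_ (Xf_pos hT1).le
    exact PC_mono T (Set.Icc_subset_Ico_right hz3)
  · intro a ha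
    have h4 := Nr_zero_left h (y := y) hy.le
    filter_upwards [(tendsto_order.1 h4).2 a ha, hl (eventually_gt_atTop (1 : ℝ))] with T hT hT1
    refine lt_of_le_of_lt ?_ hT
    unfold Nr
    refine div_le_div_of_nonneg_right ?_ (Xf_pos hT1).le
    exact PC_mono T Set.Ico_subset_Icc_self

/-- windows to the right of `0` -/
lemma Nr_pos (hl : l ≤ atTop) (h : ∀ x, Tendsto (fun T => Aa T x) l (𝓝 (AG x))) {α β : ℝ}
    (hα : 0 < α) (hαβ : α < β) : Tendsto (fun T => Nr T α β) l (𝓝 (gp β - gp α)) := by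
  have h1 := (Nr_zero_left h (y := β) (by linarith)).sub (Nr_Ico hl h hα)
  have e : 1 + gp β - (1 + gp α) = gp β - gp α := by ring
  rw [e] at h1
  refine h1.congr fun T => ?_
  unfold Nr
  have e2 : PC T (Set.Icc 0 β) = PC T (Set.Ico 0 α) + PC T (Set.Icc α β) := by
    rw [← PC_union T, Set.Ico_union_Icc_eq_Icc hα.le hαβ.le]
    rw [Set.disjoint_left]
    rintro x h1 h2
    exact absurd h1.2 (not_lt.2 h2.1)
  rw [e2]
  ring

/-- **all windows** -/
theorem Nr_all (hl : l ≤ atTop) (h : ∀ x, Tendsto (fun T => Aa T x) l (𝓝 (AG x))) {α β : ℝ}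
    (hαβ : α < β) : Tendsto (fun T => Nr T α β) l (𝓝 (pr α β)) := by
  rcases lt_trichotomy α 0 with hα | rfl | hα
  · rcases lt_or_ge β 0 with hβ | hβ
    · -- both negative
      have h1 := Nr_pos hl h (α := -β) (β := -α) (by linarith) (by linarith)
      have e : gp (-α) - gp (-β) = pr α β := by
        unfold pr
        rw [gp_odd, gp_odd, Set.indicator_of_notMem (by
          rintro ⟨h2, h3⟩
          linarith)]
        ring
      rw [e] at h1
      refine h1.congr fun T => ?_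
      unfold Nr
      congr 1
      rw [← PC_neg T (Set.Icc α β)]
      congr 1
      simp
    · have h1 := ((Nr_zero_left h (y := -α) (by linarith)).sub (h 0)).add
        (Nr_zero_left h (y := β) hβ)
      have e : 1 + gp (-α) - AG 0 + (1 + gp β) = pr α β := by
        unfold pr AG
        rw [gp_odd, Set.indicator_of_mem (show (0 : ℝ) ∈ Set.Icc α β from ⟨hα.le, hβ⟩),
          if_neg (lt_irrefl _), gp_zero]
        ring
      rw [e] at h1
      refine h1.congr fun T => ?_
      unfold Nr Aa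
      have e2 : PC T (Set.Icc 0 (-α)) = PC T {x | |x| ≤ 0} + PC T (Set.Ioc 0 (-α)) := by
        rw [← PC_union T]
        · congr 1
          ext x
          simp only [Set.mem_Icc, Set.mem_union, Set.mem_ofPred_eq, abs_nonpos_iff, Set.mem_Ioc]
          constructor
          · rintro ⟨h1, h2⟩
            rcases h1.eq_or_lt with h | h
            · exact Or.inl h.symm
            · exact Or.inr ⟨h, h2⟩
          · rintro (rfl | ⟨h1, h2⟩)
            · exact ⟨le_rfl, by linarith⟩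
            · exact ⟨h1.le, h2⟩
        · rw [Set.disjoint_left]
          rintro x (h1 : |x| ≤ 0) h2
          rw [abs_nonpos_iff] at h1
          rw [h1] at h2
          exact lt_irrefl _ h2.1
      have e3 : PC T (Set.Ico α 0) = PC T (Set.Ioc 0 (-α)) := by
        rw [← PC_neg T (Set.Ioc 0 (-α))]
        congr 1
        simp
      have e4 : PC T (Set.Icc α β) = PC T (Set.Ico α 0) + PC T (Set.Icc 0 β) := by
        rw [← PC_union T, Set.Ico_union_Icc_eq_Icc hα.le hβ]
        rw [Set.disjoint_left]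
        rintro x h1 h2
        exact absurd h1.2 (not_lt.2 h2.1)
      rw [e2, e4, e3]
      ring
  · have h1 := Nr_zero_left h (y := β) hαβ.le
    have e : 1 + gp β = pr 0 β := by
      unfold pr
      rw [Set.indicator_of_mem (show (0 : ℝ) ∈ Set.Icc 0 β from ⟨le_rfl, hαβ.le⟩), gp_zero]
      ring
    rw [e] at h1
    exact h1
  · have h1 := Nr_pos hl h hα hαβ
    have e : gp β - gp α = pr α β := by
      unfold pr
      rw [Set.indicator_of_notMem (by
        rintro ⟨h2, h3⟩
        linarith)]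
      ring
    rw [e] at h1
    exact h1

/-- windows to the right of `0` and the symmetric count -/
lemma Ww_eq {T a ℓ : ℝ} (ha : 0 < a) : Ww T a ℓ = 2 * Nr T a (a + ℓ) := by
  unfold Ww Nr
  have e1 : {x : ℝ | a ≤ |x| ∧ |x| ≤ a + ℓ} = Set.Icc (-(a + ℓ)) (-a) ∪ Set.Icc a (a + ℓ) := by
    ext x
    simp only [Set.mem_ofPred_eq, Set.mem_union, Set.mem_Icc]
    rcases abs_cases x with ⟨h1, h2⟩ | ⟨h1, h2⟩
    · rw [h1]
      constructor
      · rintro ⟨h3, h4⟩
        exact Or.inr ⟨h3, h4⟩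
      · rintro (⟨h3, h4⟩ | h3)
        · linarith
        · exact h3
    · rw [h1]
      constructor
      · rintro ⟨h3, h4⟩
        exact Or.inl ⟨by linarith, by linarith⟩
      · rintro (⟨h3, h4⟩ | ⟨h3, h4⟩)
        · exact ⟨by linarith, by linarith⟩
        · linarith
  have e2 : PC T (Set.Icc (-(a + ℓ)) (-a)) = PC T (Set.Icc a (a + ℓ)) := by
    rw [← PC_neg T (Set.Icc a (a + ℓ))]
    congr 1
    simp
  rw [e1, PC_union T (by
    rw [Set.disjoint_left]
    rintro x h1 h2
    have := h1.2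
    have := h2.1
    linarith), e2]
  ring

end

/-- one sided bound for the windows of length `ℓ` -/
def OneS (l : Filter ℝ) (ℓ s : ℝ) : Prop := ∃ C c a0 : ℝ, 0 < C ∧ 0 < c ∧ 0 < a0 ∧
  ∀ a, a0 ≤ a → ∀ ε, 0 < ε → ∀ᶠ T in l,
    s * (Nr T a (a + ℓ) - (gp (a + ℓ) - gp a)) ≤ C * Real.exp (-(c * a)) + ε

/-- **the criterion** -/
theorem criterion (RH : RiemannHypothesis) {l : Filter ℝ} (hl : l ≤ atTop) {l1 l2 s1 s2 : ℝ}
    (hl1 : 0 < l1) (hl2 : 0 < l2) (hirr : Irrational (l1 / l2)) (hs1 : s1 = 1 ∨ s1 = -1)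
    (hs2 : s2 = 1 ∨ s2 = -1) :
    (∀ α β, α < β → Tendsto (fun T => Nr T α β) l (𝓝 (pr α β))) ↔
      (OneS l l1 s1 ∧ OneS l l2 s2) := by
  constructor
  · intro h
    have key : ∀ ℓ s : ℝ, 0 < ℓ → (s = 1 ∨ s = -1) → OneS l ℓ s := by
      intro ℓ s hℓ hs
      refine ⟨1, 1, 1, one_pos, one_pos, one_pos, fun a ha ε hε => ?_⟩
      have h1 := h a (a + ℓ) (by linarith)
      have e : pr a (a + ℓ) = gp (a + ℓ) - gp a := by
        unfold pr
        rw [Set.indicator_of_notMem (by
          rintro ⟨h2, h3⟩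
          linarith)]
        ring
      rw [e] at h1
      filter_upwards [(Metric.tendsto_nhds.1 h1) ε hε] with T hT
      rw [Real.dist_eq] at hT
      have h2 := abs_lt.1 hT
      have h3 := Real.exp_pos (-(1 * a))
      rcases hs with rfl | rfl <;> linarith [h2.1, h2.2]
    exact ⟨key l1 s1 hl1 hs1, key l2 s2 hl2 hs2⟩
  · rintro ⟨⟨C1, c1, a1, hC1, hc1, ha1, h1⟩, C2, c2, a2, hC2, hc2, ha2, h2⟩
    have hexp : ∀ (C c' c a : ℝ), 0 < C → c' ≤ c → 0 < a → ∀ C' : ℝ, C ≤ C' →
        C * Real.exp (-(c * a)) ≤ C' * Real.exp (-(c' * a)) := by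
      intro C c' c a hC hcc ha C' hCC
      refine mul_le_mul hCC (Real.exp_le_exp.2 ?_) (Real.exp_pos _).le (by linarith)
      nlinarith
    have hneg : ∀ s : ℝ, (s = 1 ∨ s = -1) → (-s = 1 ∨ -s = -1) := by
      rintro s (rfl | rfl)
      · right; rfl
      · left; norm_num
    have conv : ∀ (ℓ s C c a0 : ℝ), 0 < C → 0 < a0 → min c1 c2 ≤ c → C ≤ max C1 C2 →
        a0 ≤ max a1 a2 →
        (∀ a, a0 ≤ a → ∀ ε, 0 < ε → ∀ᶠ T in l,
          s * (Nr T a (a + ℓ) - (gp (a + ℓ) - gp a)) ≤ C * Real.exp (-(c * a)) + ε) →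
        ∀ a, max a1 a2 ≤ a → ∀ ε, 0 < ε → ∀ᶠ T in l,
          -(2 * max C1 C2 * Real.exp (-(min c1 c2 * a))) - ε ≤
            -s * (Ww T a ℓ - 2 * (gp (a + ℓ) - gp a)) := by
      intro ℓ s C c a0 hC ha0 hcc hCC haa h a ha ε hε
      have hapos : 0 < a := by linarith
      filter_upwards [h a (haa.trans ha) (ε / 2) (by positivity)] with T hT
      rw [Ww_eq hapos]
      have h3 := hexp C (min c1 c2) c a hC hcc hapos _ hCC
      nlinarith
    refine fun α β hαβ => Nr_all hl (rigid_Aa RH hl hl1 hl2 hirr (hneg s1 hs1) (hneg s2 hs2)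
      (C := 2 * max C1 C2) (c := min c1 c2) (a0 := max a1 a2) (by positivity) (lt_min hc1 hc2)
      (lt_max_of_lt_left ha1)
      (conv l1 s1 C1 c1 a1 hC1 ha1 (min_le_left _ _) (le_max_left _ _) (le_max_left _ _) h1)
      (conv l2 s2 C2 c2 a2 hC2 ha2 (min_le_right _ _) (le_max_right _ _) (le_max_right _ _) h2)) hαβ

end Pool.Agent.Y744
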