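import Pool.Agent.Y744.PCR.HighPass

open MeasureTheory Filter Topology Real ProbabilityTheory
open scoped ENNReal

namespace Pool.Agent.Y744

section

variable {h : ℝ → ℝ} {a : ℝ}

/-- the measure with density `h` -/
noncomputable def den (h : ℝ → ℝ) : Measure ℝ := volume.withDensity fun x => ENNReal.ofReal (h x)

lemma den_int (hm : Measurable h) (h0 : ∀ x, 0 ≤ h x) {g : ℝ → ℂ} :
    ∫ x, g x ∂(den h) = ∫ x, (h x : ℂ) * g x := by
  unfold den
  rw [integral_withDensity_eq_integral_toReal_smul hm.ennreal_ofReal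
    (Eventually.of_forall fun x => ENNReal.ofReal_lt_top)]
  refine integral_congr_ae (Eventually.of_forall fun x => ?_)
  show (ENNReal.ofReal (h x)).toReal • g x = (h x : ℂ) * g x
  rw [ENNReal.toReal_ofReal (h0 x), Complex.real_smul]

lemma den_exp (hm : Measurable h) (h0 : ∀ x, 0 ≤ h x)
    (hi : Integrable fun x => h x * Real.exp (a * |x|)) :
    Set.Icc (-a) a ⊆ integrableExpSet id (den h) := by
  intro t ht
  show Integrable (fun x : ℝ => Real.exp (t * id x)) (den h)
  unfold den
  rw [integrable_withDensity_iff_integrable_smul' hm.ennreal_ofReal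
    (Eventually.of_forall fun x => ENNReal.ofReal_lt_top)]
  refine hi.mono' ?_ (Eventually.of_forall fun x => ?_)
  · exact (hm.ennreal_ofReal.ennreal_toReal.smul (by fun_prop : Measurable fun x : ℝ =>
      Real.exp (t * id x))).aestronglyMeasurable
  · show ‖(ENNReal.ofReal (h x)).toReal • Real.exp (t * x)‖ ≤ _
    rw [ENNReal.toReal_ofReal (h0 x), smul_eq_mul, Real.norm_eq_abs,
      abs_of_nonneg (mul_nonneg (h0 x) (Real.exp_pos _).le)]
    refine mul_le_mul_of_nonneg_left (Real.exp_le_exp.2 ?_) (h0 x)
    calc t * x ≤ |t * x| := le_abs_self _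
      _ = |t| * |x| := abs_mul _ _
      _ ≤ a * |x| := mul_le_mul_of_nonneg_right (abs_le.2 ht) (abs_nonneg _)

end

/-- **a function with a spectral gap and exponentially small negative part vanishes** -/
theorem high_pass {κ : ℝ} {H : ℝ → ℝ} {B C c : ℝ} (hκ : 0 < κ) (hm : Measurable H)
    (he : ∀ x, H (-x) = H x) (hB : ∀ x, |H x| ≤ B * (1 + x ^ 2)) (hC : 0 ≤ C) (hc : 0 < c)
    (hl : ∀ᵐ x, -(C * Real.exp (-(c * |x|))) ≤ H x)
    (hz : ∀ K, TK κ K → ∫ x, H x * ct K x = 0) : ∀ᵐ x, H x = 0 := by
  have hE := exp_moment hκ hm hB hC hc hl hz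
  set a : ℝ := c / 2 with ha
  have ha0 : 0 < a := by rw [ha]; positivity
  set P : ℝ → ℝ := fun x => max (H x) 0 with hP
  set N : ℝ → ℝ := fun x => max (-H x) 0 with hN
  have hPm : Measurable P := hm.max measurable_const
  have hNm : Measurable N := hm.neg.max measurable_const
  have hP0 : ∀ x, 0 ≤ P x := fun x => le_max_right _ _
  have hN0 : ∀ x, 0 ≤ N x := fun x => le_max_right _ _
  have hPN : ∀ x, H x = P x - N x := by
    intro x
    simp only [hP, hN]
    rcases le_total (H x) 0 with h | h
    · rw [max_eq_right h, max_eq_left (by linarith)]; ring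
    · rw [max_eq_left h, max_eq_right (by linarith)]; ring
  have hPle : ∀ x, P x ≤ |H x| := fun x => max_le (le_abs_self _) (abs_nonneg _)
  have hNle : ∀ x, N x ≤ |H x| := fun x => max_le (neg_le_abs _) (abs_nonneg _)
  have hPi : Integrable fun x => P x * Real.exp (a * |x|) := by
    refine hE.mono' (hPm.mul (by fun_prop)).aestronglyMeasurable (Eventually.of_forall fun x => ?_)
    rw [Real.norm_eq_abs, abs_of_nonneg (mul_nonneg (hP0 x) (Real.exp_pos _).le)]
    exact mul_le_mul_of_nonneg_right (hPle x) (Real.exp_pos _).le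
  have hNi : Integrable fun x => N x * Real.exp (a * |x|) := by
    refine hE.mono' (hNm.mul (by fun_prop)).aestronglyMeasurable (Eventually.of_forall fun x => ?_)
    rw [Real.norm_eq_abs, abs_of_nonneg (mul_nonneg (hN0 x) (Real.exp_pos _).le)]
    exact mul_le_mul_of_nonneg_right (hNle x) (Real.exp_pos _).le
  have hi1 : ∀ x : ℝ, (1 : ℝ) ≤ Real.exp (a * |x|) := fun x => Real.one_le_exp (by positivity)
  have hPi1 : Integrable P := hPi.mono' hPm.aestronglyMeasurable
    (Eventually.of_forall fun x => by
      rw [Real.norm_eq_abs, abs_of_nonneg (hP0 x)]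
      exact le_mul_of_one_le_right (hP0 x) (hi1 x))
  have hNi1 : Integrable N := hNi.mono' hNm.aestronglyMeasurable
    (Eventually.of_forall fun x => by
      rw [Real.norm_eq_abs, abs_of_nonneg (hN0 x)]
      exact le_mul_of_one_le_right (hN0 x) (hi1 x))
  have hHi : Integrable H := by
    have := hPi1.sub hNi1
    exact this.congr (Eventually.of_forall fun x => (hPN x).symm)
  have : IsFiniteMeasure (den P) := isFiniteMeasure_withDensity_ofReal hPi1.2
  have : IsFiniteMeasure (den N) := isFiniteMeasure_withDensity_ofReal hNi1.2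
  have hsP := den_exp hPm hP0 hPi
  have hsN := den_exp hNm hN0 hNi
  -- the strip
  set U : Set ℂ := {z | z.re ∈ Set.Ioo (-a) a} with hU
  have hUP : ∀ z ∈ U, z.re ∈ interior (integrableExpSet id (den P)) := fun z hz =>
    interior_mono hsP (by rw [interior_Icc]; exact hz)
  have hUN : ∀ z ∈ U, z.re ∈ interior (integrableExpSet id (den N)) := fun z hz =>
    interior_mono hsN (by rw [interior_Icc]; exact hz)
  set Φ : ℂ → ℂ := fun z => complexMGF id (den P) z - complexMGF id (den N) z with hΦ
  have han : AnalyticOnNhd ℂ Φ U := fun z hz =>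
    (analyticAt_complexMGF (hUP z hz)).sub (analyticAt_complexMGF (hUN z hz))
  have hconv : IsPreconnected U := by
    have : Convex ℝ U := by
      have h1 : U = Complex.reLm ⁻¹' (Set.Ioo (-a) a) := rfl
      rw [h1]
      exact (convex_Ioo _ _).linear_preimage _
    exact this.isPreconnected
  have h0U : (0 : ℂ) ∈ U := by
    rw [hU]
    simp only [Set.mem_ofPred_eq, Complex.zero_re, Set.mem_Ioo]
    exact ⟨by linarith, ha0⟩
  have hn : ∀ t x : ℝ, ‖Complex.exp (t * Complex.I * ((id x : ℝ) : ℂ))‖ ≤ 1 := by
    intro t x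
    have : (t : ℂ) * Complex.I * ((id x : ℝ) : ℂ) = ((t * x : ℝ) : ℂ) * Complex.I := by
      simp only [id]; push_cast; ring
    rw [this, Complex.norm_exp_ofReal_mul_I]
  -- values on the imaginary axis
  have hval : ∀ t : ℝ, Φ (t * Complex.I) = ∫ x, (H x : ℂ) * Complex.exp (t * x * Complex.I) := by
    intro t
    show complexMGF id (den P) _ - complexMGF id (den N) _ = _
    unfold complexMGF
    rw [den_int hPm hP0, den_int hNm hN0, ← integral_sub]
    · refine integral_congr_ae (Eventually.of_forall fun x => ?_)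
      show (P x : ℂ) * Complex.exp (t * Complex.I * ((id x : ℝ) : ℂ)) -
        (N x : ℂ) * Complex.exp (t * Complex.I * ((id x : ℝ) : ℂ)) =
        (H x : ℂ) * Complex.exp (t * x * Complex.I)
      have e1 : (t : ℂ) * Complex.I * ((id x : ℝ) : ℂ) = t * x * Complex.I := by
        simp only [id]; ring
      rw [e1, hPN x]
      push_cast
      ring
    · exact (hPi1.ofReal (𝕜 := ℂ)).mul_bdd (c := 1) (by fun_prop)
        (Eventually.of_forall fun x => hn t x)
    · exact (hNi1.ofReal (𝕜 := ℂ)).mul_bdd (c := 1) (by fun_prop)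
        (Eventually.of_forall fun x => hn t x)
  have hzero : ∀ t : ℝ, |t| ≤ π * κ → Φ (t * Complex.I) = 0 := by
    intro t ht
    rw [hval]
    have hc0 : ∫ x, H x * Real.cos (t * x) = 0 := by
      have h1 := cos_zero hκ hm hB hC hc hl hz (s := t / (2 * π)) (by
        rw [abs_div, abs_of_pos (by positivity : (0 : ℝ) < 2 * π), div_le_iff₀ (by positivity)]
        linarith)
      rw [← h1]
      refine integral_congr_ae (Eventually.of_forall fun x => ?_)
      show H x * Real.cos (t * x) = H x * Real.cos (2 * π * (t / (2 * π)) * x)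
      have : 2 * π * (t / (2 * π)) = t := by field_simp
      rw [this]
    have hs0 : ∫ x, H x * Real.sin (t * x) = 0 := by
      have h1 : ∫ x, H x * Real.sin (t * x) = ∫ x, H (-x) * Real.sin (t * (-x)) :=
        (integral_neg_eq_self (fun x => H x * Real.sin (t * x)) volume).symm
      have h2 : ∫ x, H (-x) * Real.sin (t * (-x)) = -∫ x, H x * Real.sin (t * x) := by
        rw [← integral_neg]
        refine integral_congr_ae (Eventually.of_forall fun x => ?_)
        show H (-x) * Real.sin (t * (-x)) = -(H x * Real.sin (t * x))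
        rw [he, mul_neg, Real.sin_neg]
        ring
      linarith
    have hic : Integrable fun x => H x * Real.cos (t * x) :=
      hHi.mul_bdd (c := 1) (by fun_prop) (Eventually.of_forall fun x => by
        rw [Real.norm_eq_abs]; exact Real.abs_cos_le_one _)
    have his : Integrable fun x => H x * Real.sin (t * x) :=
      hHi.mul_bdd (c := 1) (by fun_prop) (Eventually.of_forall fun x => by
        rw [Real.norm_eq_abs]; exact Real.abs_sin_le_one _)
    have e : ∀ x : ℝ, (H x : ℂ) * Complex.exp (t * x * Complex.I) =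
        ((H x * Real.cos (t * x) : ℝ) : ℂ) + ((H x * Real.sin (t * x) : ℝ) : ℂ) * Complex.I := by
      intro x
      rw [Complex.exp_mul_I]
      push_cast
      ring
    simp_rw [e]
    rw [integral_add hic.ofReal (his.ofReal.mul_const _), integral_mul_const]
    have i1 : ∫ x, ((H x * Real.cos (t * x) : ℝ) : ℂ) = ((∫ x, H x * Real.cos (t * x) : ℝ) : ℂ) :=
      integral_ofReal
    have i2 : ∫ x, ((H x * Real.sin (t * x) : ℝ) : ℂ) = ((∫ x, H x * Real.sin (t * x) : ℝ) : ℂ) :=
      integral_ofReal
    rw [i1, i2, hc0, hs0]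
    simp
  have hfreq : ∃ᶠ z in 𝓝[≠] (0 : ℂ), Φ z = 0 := by
    have ht : Tendsto (fun n : ℕ => (((π * κ * (1 / ((n : ℝ) + 1)) : ℝ) : ℂ) * Complex.I)) atTop
        (𝓝[≠] (0 : ℂ)) := by
      rw [tendsto_nhdsWithin_iff]
      constructor
      · have h1 : Tendsto (fun n : ℕ => π * κ * (1 / ((n : ℝ) + 1))) atTop (𝓝 (π * κ * 0)) :=
          tendsto_one_div_add_atTop_nhds_zero_nat.const_mul _
        rw [mul_zero] at h1
        have h2 := (Complex.continuous_ofReal.tendsto 0).comp h1
        have h3 := h2.mul_const Complex.I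
        rw [Complex.ofReal_zero, zero_mul] at h3
        exact h3
      · refine Eventually.of_forall fun n => ?_
        rw [Set.mem_compl_iff, Set.mem_singleton_iff, mul_eq_zero, not_or]
        refine ⟨?_, Complex.I_ne_zero⟩
        rw [Complex.ofReal_eq_zero]
        have : 0 < π * κ * (1 / ((n : ℝ) + 1)) := by
          have := Real.pi_pos
          positivity
        exact this.ne'
    refine ht.frequently (Eventually.frequently (Eventually.of_forall fun n => ?_))
    refine hzero _ ?_
    have hp := Real.pi_pos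
    have h1 : (0 : ℝ) < 1 / ((n : ℝ) + 1) := by positivity
    have h2 : 1 / ((n : ℝ) + 1) ≤ 1 := by
      rw [div_le_one (by positivity)]
      have : (0 : ℝ) ≤ n := Nat.cast_nonneg n
      linarith
    rw [abs_of_pos (by positivity)]
    exact mul_le_of_le_one_right (by positivity) h2
  have hall := han.eqOn_zero_of_preconnected_of_frequently_eq_zero hconv h0U hfreq
  have hchar : charFun (den P) = charFun (den N) := by
    funext t
    have h1 : ((t : ℂ) * Complex.I) ∈ U := by
      rw [hU]
      simp only [Set.mem_ofPred_eq, Complex.mul_re, Complex.ofReal_re, Complex.I_re, mul_zero,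
        Complex.ofReal_im, Complex.I_im, mul_one, sub_self, Set.mem_Ioo]
      exact ⟨by linarith, ha0⟩
    have h2 := hall h1
    have h3 : complexMGF id (den P) (t * Complex.I) = complexMGF id (den N) (t * Complex.I) :=
      sub_eq_zero.1 h2
    rwa [complexMGF_id_mul_I, complexMGF_id_mul_I] at h3
  have hmeas := Measure.ext_of_charFun hchar
  have hfin : ∫⁻ x, ENNReal.ofReal (P x) ≠ ⊤ := hPi1.lintegral_lt_top.ne
  have heq := (withDensity_eq_iff hPm.ennreal_ofReal.aemeasurable hNm.ennreal_ofReal.aemeasurable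
    hfin).1 hmeas
  filter_upwards [heq] with x hx
  have h1 : P x = N x := (ENNReal.ofReal_eq_ofReal_iff (hP0 x) (hN0 x)).1 hx
  rw [hPN x, h1, sub_self]

end Pool.Agent.Y744
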