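import Mathlib

open MeasureTheory Filter Topology

namespace Pool.Agent.Y744

/-- an odd function with two incommensurable periods vanishes where it is continuous -/
lemma per_zero {E : ℝ → ℝ} (hloc : ∀ a b, IntervalIntegrable E volume a b)
    (hodd : ∀ x, E (-x) = -E x) {l1 l2 : ℝ} (hirr : Irrational (l1 / l2))
    (h1 : ∀ᵐ x, E (x + l1) = E x) (h2 : ∀ᵐ x, E (x + l2) = E x) (x : ℝ)
    (hx : ContinuousAt E x) : E x = 0 := by
  -- the primitive
  set P : ℝ → ℝ := fun x => ∫ t in (0 : ℝ)..x, E t with hP
  have hPc : Continuous P := intervalIntegral.continuous_primitive hloc 0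
  have key : ∀ δ : ℝ, ∀ x : ℝ, P (x + δ) - P x = 0 := by
    intro δ
    set Φ : ℝ → ℝ := fun x => P (x + δ) - P x with hΦ
    have hΦc : Continuous Φ := (hPc.comp (by fun_prop)).sub hPc
    have hΦi : ∀ x, Φ x = ∫ t in x..(x + δ), E t := by
      intro x
      rw [hΦ, hP]
      exact (intervalIntegral.integral_interval_sub_left (hloc _ _) (hloc _ _))
    have hper : ∀ l, (∀ᵐ x, E (x + l) = E x) → ∀ x, Φ (x + l) = Φ x := by
      intro l hl x
      rw [hΦi, hΦi]
      have e1 : ∫ t in x..(x + δ), E (t + l) = ∫ t in (x + l)..(x + δ + l), E t :=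
        intervalIntegral.integral_comp_add_right _ _
      have e2 : x + l + δ = x + δ + l := by ring
      rw [e2, ← e1]
      refine intervalIntegral.integral_congr_ae ?_
      filter_upwards [hl] with t ht _ using ht
    -- the subgroup of periods
    let G : AddSubgroup ℝ :=
      { carrier := {l | ∀ x, Φ (x + l) = Φ x}
        zero_mem' := fun x => by rw [add_zero]
        add_mem' := fun {a b} ha hb x => by rw [← add_assoc, hb, ha]
        neg_mem' := fun {a} ha x => by
          have := ha (x + -a)
          rw [neg_add_cancel_right] at this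
          exact this.symm }
    have hG1 : l1 ∈ G := hper l1 h1
    have hG2 : l2 ∈ G := hper l2 h2
    have hd : Dense (G : Set ℝ) := by
      refine (dense_addSubgroupClosure_pair_iff.2 hirr).mono ?_
      show ((AddSubgroup.closure {l1, l2} : AddSubgroup ℝ) : Set ℝ) ⊆ G
      rw [SetLike.coe_subset_coe, AddSubgroup.closure_le]
      rintro y (rfl | rfl)
      · exact hG1
      · exact hG2
    have hclosed : IsClosed (G : Set ℝ) := by
      have : (G : Set ℝ) = ⋂ x, {l | Φ (x + l) = Φ x} := by
        ext l
        simp only [Set.mem_iInter]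
        rfl
      rw [this]
      exact isClosed_iInter fun x => isClosed_eq (hΦc.comp (by fun_prop)) continuous_const
    have hall : ∀ l : ℝ, l ∈ G := by
      intro l
      have : closure (G : Set ℝ) = Set.univ := hd.closure_eq
      rw [hclosed.closure_eq] at this
      have : l ∈ (G : Set ℝ) := by rw [this]; trivial
      exact this
    have h0 : Φ (-δ / 2) = 0 := by
      rw [hΦi]
      have e : -δ / 2 + δ = δ / 2 := by ring
      rw [e]
      have e3 : ∫ t in (-δ / 2)..(δ / 2), E (-t) = ∫ t in (-(δ / 2))..(-(-δ / 2)), E t :=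
        intervalIntegral.integral_comp_neg _
      have e4 : ∫ t in (-δ / 2)..(δ / 2), E (-t) = -∫ t in (-δ / 2)..(δ / 2), E t := by
        rw [← intervalIntegral.integral_neg]
        exact intervalIntegral.integral_congr fun t _ => hodd t
      have e5 : -(δ / 2) = -δ / 2 := by ring
      have e6 : -(-δ / 2) = δ / 2 := by ring
      rw [e5, e6, e4] at e3
      linarith
    intro x
    have h3 := hall (-δ / 2 - x) x
    rw [add_sub_cancel] at h3
    show Φ x = 0
    rw [← h3, h0]
  have hP0 : ∀ y, P y = 0 := by
    intro y
    have := key y 0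
    rw [zero_add] at this
    have h0 : P 0 = 0 := by rw [hP]; simp
    linarith
  have hd : HasDerivAt P (E x) x := by
    refine intervalIntegral.integral_hasDerivAt_right (hloc _ _) ?_ hx
    refine ⟨Set.uIoc (x - 1) (x + 1), ?_,
      (hloc (x - 1) (x + 1)).aestronglyMeasurable_restrict_uIoc⟩
    rw [Set.uIoc_of_le (by linarith)]
    exact Ioc_mem_nhds (by linarith) (by linarith)
  have hd0 : HasDerivAt P 0 x := by
    have : P = fun _ => 0 := funext hP0
    rw [this]
    exact hasDerivAt_const x 0
  exact hd.unique hd0

end Pool.Agent.Y744
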