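import Pool.Agent.Y744.PCR.HighPass2
import Pool.Agent.Y744.PCR.Per

/-! The abstract rigidity theorem for limits of pair correlation counting functions. -/

open MeasureTheory Filter Topology Real

namespace Pool.Agent.Y744

/-- pair correlation density of GUE -/
noncomputable def gd (u : ℝ) : ℝ := 1 - Real.sinc (π * u) ^ 2

/-- its primitive -/
noncomputable def gp (x : ℝ) : ℝ := ∫ u in (0 : ℝ)..x, gd u

/-- the predicted limit of the number of differences of absolute value at most `x` -/
noncomputable def AG (x : ℝ) : ℝ := if x < 0 then 0 else 1 + 2 * gp x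

lemma gd_cont : Continuous gd := by
  unfold gd
  exact continuous_const.sub ((Real.continuous_sinc.comp (by fun_prop)).pow 2)

lemma gd_nonneg (u : ℝ) : 0 ≤ gd u := by
  unfold gd
  have h := Real.abs_sinc_le_one (π * u)
  have := (sq_le_one_iff_abs_le_one _).2 h
  linarith

lemma gd_le (u : ℝ) : gd u ≤ 1 := by
  unfold gd
  have := sq_nonneg (Real.sinc (π * u))
  linarith

lemma gp_deriv (x : ℝ) : HasDerivAt gp (gd x) x :=
  intervalIntegral.integral_hasDerivAt_right (gd_cont.intervalIntegrable _ _)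
    (gd_cont.stronglyMeasurableAtFilter _ _) gd_cont.continuousAt

lemma gp_cont : Continuous gp := continuous_iff_continuousAt.2 fun x => (gp_deriv x).continuousAt

lemma gp_zero : gp 0 = 0 := by unfold gp; simp

lemma gp_sub (a b : ℝ) : gp b - gp a = ∫ u in a..b, gd u := by
  unfold gp
  exact intervalIntegral.integral_interval_sub_left (gd_cont.intervalIntegrable _ _)
    (gd_cont.intervalIntegrable _ _)

lemma gp_mono : Monotone gp := by
  intro a b hab
  have := gp_sub a b
  have h2 : 0 ≤ ∫ u in a..b, gd u := intervalIntegral.integral_nonneg hab fun u _ => gd_nonneg u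
  linarith

lemma gp_nonneg {x : ℝ} (hx : 0 ≤ x) : 0 ≤ gp x := by
  have := gp_mono hx
  rwa [gp_zero] at this

lemma gp_le {x : ℝ} (hx : 0 ≤ x) : gp x ≤ x := by
  unfold gp
  have := intervalIntegral.integral_mono_on hx (gd_cont.intervalIntegrable _ _)
    (intervalIntegrable_const : IntervalIntegrable (fun _ => (1 : ℝ)) volume 0 x)
    fun u _ => gd_le u
  simpa using this

lemma AG_meas : Measurable AG := by
  unfold AG
  exact Measurable.ite measurableSet_Iio measurable_const
    (measurable_const.add (measurable_const.mul gp_cont.measurable))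

lemma AG_bound (x : ℝ) : |AG x| ≤ 2 * (1 + x ^ 2) := by
  unfold AG
  split_ifs with h
  · rw [abs_zero]; positivity
  · push Not at h
    have h1 := gp_nonneg h
    have h2 := gp_le h
    rw [abs_of_nonneg (by linarith)]
    nlinarith [sq_nonneg (x - 1)]

/-- passage to the limit in the integrals -/
lemma lim_int {A : ℝ → ℝ → ℝ} {T0 C : ℝ} (hmono : ∀ T, T0 ≤ T → Monotone (A T))
    (hb : ∀ T, T0 ≤ T → ∀ y, |A T y| ≤ C * (1 + y ^ 2)) {w : ℝ → ℝ} (hw : Measurable w) {D : ℝ}
    (hwd : ∀ y, |w y| ≤ D / (1 + y ^ 2) ^ 2) {I : ℝ}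
    (hI : Tendsto (fun T => ∫ y, A T y * w y) atTop (𝓝 I)) {u : Filter ℝ} [NeBot u]
    (hu : u ≤ atTop) {A' : ℝ → ℝ} (hA' : Monotone A')
    (hlim : ∀ y, Tendsto (fun T => A T y) u (𝓝 (A' y))) : ∫ y, A' y * w y = I := by
  have hC : 0 ≤ C := by
    have := (abs_nonneg _).trans (hb T0 le_rfl 0)
    simpa using this
  set q : ℕ → ℝ := TopologicalSpace.denseSeq ℝ with hq
  have hqd : DenseRange q := TopologicalSpace.denseRange_denseSeq ℝ
  have hex : ∀ n : ℕ, ∃ T : ℝ, max (n : ℝ) T0 ≤ T ∧
      ∀ j ∈ Finset.range (n + 1), |A T (q j) - A' (q j)| < 1 / ((n : ℝ) + 1) := by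
    intro n
    have h1 : ∀ᶠ T in u, max (n : ℝ) T0 ≤ T := hu (eventually_ge_atTop _)
    have h2 : ∀ᶠ T in u, ∀ j ∈ Finset.range (n + 1), |A T (q j) - A' (q j)| < 1 / ((n : ℝ) + 1) := by
      rw [Filter.eventually_all_finset]
      intro j _
      have := (Metric.tendsto_nhds.1 (hlim (q j))) (1 / ((n : ℝ) + 1)) (by positivity)
      simpa [Real.dist_eq] using this
    exact (h1.and h2).exists
  choose t ht1 ht2 using hex
  have htn : ∀ n : ℕ, (n : ℝ) ≤ t n := fun n => (le_max_left _ _).trans (ht1 n)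
  have htT : ∀ n : ℕ, T0 ≤ t n := fun n => (le_max_right _ _).trans (ht1 n)
  have htt : Tendsto t atTop atTop := tendsto_atTop_mono htn tendsto_natCast_atTop_atTop
  have hj : ∀ j, Tendsto (fun n => A (t n) (q j)) atTop (𝓝 (A' (q j))) := by
    intro j
    rw [Metric.tendsto_nhds]
    intro ε hε
    have h1 : ∀ᶠ n : ℕ in atTop, 1 / ((n : ℝ) + 1) < ε :=
      (tendsto_order.1 tendsto_one_div_add_atTop_nhds_zero_nat).2 ε hε
    filter_upwards [h1, eventually_ge_atTop j] with n hn hnj
    rw [Real.dist_eq]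
    exact (ht2 n j (Finset.mem_range.2 (by omega))).trans hn
  have hcont : ∀ x, ContinuousAt A' x → Tendsto (fun n => A (t n) x) atTop (𝓝 (A' x)) := by
    intro x hx
    rw [tendsto_order]
    constructor
    · intro a ha
      have h1 : ∀ᶠ y in 𝓝 x, a < A' y := hx.eventually_const_lt ha
      obtain ⟨δ, hδ, h2⟩ := Metric.eventually_nhds_iff.1 h1
      obtain ⟨_, ⟨j, rfl⟩, hj1, hj2⟩ := hqd.exists_between (show x - δ < x by linarith)
      have h3 : a < A' (q j) := h2 (by rw [Real.dist_eq, abs_lt]; constructor <;> linarith)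
      filter_upwards [(tendsto_order.1 (hj j)).1 a h3] with n hn
      exact hn.trans_le (hmono _ (htT n) hj2.le)
    · intro a ha
      have h1 : ∀ᶠ y in 𝓝 x, A' y < a := hx.eventually_lt_const ha
      obtain ⟨δ, hδ, h2⟩ := Metric.eventually_nhds_iff.1 h1
      obtain ⟨_, ⟨j, rfl⟩, hj1, hj2⟩ := hqd.exists_between (show x < x + δ by linarith)
      have h3 : A' (q j) < a := h2 (by rw [Real.dist_eq, abs_lt]; constructor <;> linarith)
      filter_upwards [(tendsto_order.1 (hj j)).2 a h3] with n hn
      exact (hmono _ (htT n) hj1.le).trans_lt hn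
  have hae : ∀ᵐ x, ContinuousAt A' x := by
    have := hA'.countable_not_continuousAt
    exact this.ae_notMem volume |>.mono fun x hx => by
      by_contra hc
      exact hx hc
  have hD : Integrable fun y : ℝ => C * D * (1 + y ^ 2)⁻¹ :=
    integrable_inv_one_add_sq.const_mul _
  have h1 : Tendsto (fun n => ∫ y, A (t n) y * w y) atTop (𝓝 (∫ y, A' y * w y)) := by
    refine tendsto_integral_of_dominated_convergence _ (fun n => ?_) hD (fun n => ?_) ?_
    · exact ((hmono _ (htT n)).measurable.mul hw).aestronglyMeasurable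
    · refine Eventually.of_forall fun y => ?_
      rw [Real.norm_eq_abs, abs_mul]
      have h1 : 0 < 1 + y ^ 2 := by positivity
      calc |A (t n) y| * |w y| ≤ (C * (1 + y ^ 2)) * (D / (1 + y ^ 2) ^ 2) := by
            gcongr
            · exact hb _ (htT n) y
            · exact hwd y
        _ = C * D * (1 + y ^ 2)⁻¹ := by field_simp
    · filter_upwards [hae] with x hx
      exact (hcont x hx).mul_const _
  exact tendsto_nhds_unique h1 (hI.comp htt)

end Pool.Agent.Y744
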