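import Pool.Agent.TH803.TW.Cell

/-! Pair sums: generic bounds. -/

open Filter Topology

namespace Pool.Agent.Y744

open TH803TW

variable {ι : Type*}

/-- pair sum -/
noncomputable def QS (S1 S2 : Finset ι) (m x : ι → ℝ) (f : ℝ → ℝ) (Λ : ℝ) : ℝ :=
  ∑ s ∈ S1, ∑ s' ∈ S2, m s * m s' * f ((x s - x s') * Λ / (2 * Real.pi))

lemma kern {Λ : ℝ} (hΛ : 0 < Λ) (d : ℝ) :
    1 / (1 + (d * Λ / (2 * Real.pi)) ^ 2) ≤ 80 * (1 / (1 + |d| * Λ) ^ ((3 : ℝ) / 2)) := by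
  have hpi := Real.pi_gt_three
  have hpi2 := Real.pi_lt_d2
  set y := |d| * Λ with hy
  have hy0 : 0 ≤ y := by positivity
  have h1 : (d * Λ / (2 * Real.pi)) ^ 2 = y ^ 2 / (2 * Real.pi) ^ 2 := by
    rw [hy, div_pow, mul_pow d, mul_pow |d|, sq_abs]
  have h2 : (1 + y) ^ ((3 : ℝ) / 2) ≤ (1 + y) ^ (2 : ℝ) :=
    Real.rpow_le_rpow_of_exponent_le (by linarith) (by norm_num)
  rw [Real.rpow_two] at h2
  have h3 : (0 : ℝ) < (1 + y) ^ ((3 : ℝ) / 2) := Real.rpow_pos_of_pos (by linarith) _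
  rw [h1, mul_one_div, div_le_div_iff₀ (by positivity) h3, one_mul]
  have h4 : (1 + y) ^ 2 ≤ 80 * (1 + y ^ 2 / (2 * Real.pi) ^ 2) := by
    have h5 : (2 * Real.pi) ^ 2 ≤ 40 := by nlinarith
    have h6 : y ^ 2 / 40 ≤ y ^ 2 / (2 * Real.pi) ^ 2 :=
      div_le_div_of_nonneg_left (sq_nonneg _) (by positivity) h5
    nlinarith [sq_nonneg (y - 1)]
  linarith

lemma kern_far {Λ : ℝ} (hΛ : 1 ≤ Λ) {d : ℝ} (hd : 1 ≤ |d|) :
    1 / (1 + (d * Λ / (2 * Real.pi)) ^ 2) ≤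
      160 / Real.sqrt Λ * (1 / (1 + |d| * Λ) ^ ((3 : ℝ) / 2)) := by
  have hpi := Real.pi_gt_three
  have hpi2 := Real.pi_lt_d2
  have hΛ0 : 0 < Λ := by linarith
  set y := |d| * Λ with hy
  have hy1 : Λ ≤ y := by rw [hy]; nlinarith
  have h1 : (d * Λ / (2 * Real.pi)) ^ 2 = y ^ 2 / (2 * Real.pi) ^ 2 := by
    rw [hy, div_pow, mul_pow d, mul_pow |d|, sq_abs]
  have h2 : (1 + y) ^ (2 : ℝ) = (1 + y) ^ ((1 : ℝ) / 2) * (1 + y) ^ ((3 : ℝ) / 2) := by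
    rw [← Real.rpow_add (by linarith)]
    norm_num
  rw [Real.rpow_two] at h2
  have h3 : (0 : ℝ) < (1 + y) ^ ((3 : ℝ) / 2) := Real.rpow_pos_of_pos (by linarith) _
  have h4 : Real.sqrt Λ ≤ (1 + y) ^ ((1 : ℝ) / 2) := by
    rw [← Real.sqrt_eq_rpow]
    exact Real.sqrt_le_sqrt (by linarith)
  have hs : 0 < Real.sqrt Λ := Real.sqrt_pos.2 hΛ0
  rw [h1, div_mul_div_comm, mul_one, div_le_div_iff₀ (by positivity) (by positivity), one_mul]
  have h5 : Real.sqrt Λ * (1 + y) ^ ((3 : ℝ) / 2) ≤ (1 + y) ^ 2 := by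
    rw [h2]
    exact mul_le_mul_of_nonneg_right h4 h3.le
  refine h5.trans ?_
  have h5 : (2 * Real.pi) ^ 2 ≤ 40 := by nlinarith
  have h6 : y ^ 2 / 40 ≤ y ^ 2 / (2 * Real.pi) ^ 2 :=
    div_le_div_of_nonneg_left (sq_nonneg _) (by positivity) h5
  nlinarith [sq_nonneg (y - 1)]

variable {m x : ι → ℝ}

lemma QS_abs_bound (S1 S2 : Finset ι) (hm : ∀ s, 0 ≤ m s) {f : ℝ → ℝ} {K : ℝ}
    (hf : ∀ y, |f y| ≤ K / (1 + y ^ 2)) {Λ lam : ℝ} (hΛ : 0 < Λ) (hlam : 0 < lam) :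
    ∑ s ∈ S1, ∑ s' ∈ S2, m s * m s' * |f ((x s - x s') * Λ / (2 * Real.pi))| ≤
      1600 * K * (lam * PP1 S1 m x Λ + 1 / lam * PP1 S2 m x Λ) := by
  have hK : 0 ≤ K := by
    have := (abs_nonneg _).trans (hf 0)
    simpa using this
  have h1 := cell_bound S1 S2 hm (x := x) hΛ hlam
  calc ∑ s ∈ S1, ∑ s' ∈ S2, m s * m s' * |f ((x s - x s') * Λ / (2 * Real.pi))| ≤
        ∑ s ∈ S1, ∑ s' ∈ S2, 80 * K *
          (m s * m s' * (1 / (1 + |x s - x s'| * Λ) ^ ((3 : ℝ) / 2))) := by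
        refine Finset.sum_le_sum fun s _ => Finset.sum_le_sum fun s' _ => ?_
        have h2 := hf ((x s - x s') * Λ / (2 * Real.pi))
        have h3 := kern hΛ (x s - x s')
        have h4 : 0 ≤ m s * m s' := mul_nonneg (hm s) (hm s')
        have h5 : |f ((x s - x s') * Λ / (2 * Real.pi))| ≤
            K * (80 * (1 / (1 + |x s - x s'| * Λ) ^ ((3 : ℝ) / 2))) := by
          refine h2.trans ?_
          rw [div_eq_mul_one_div]
          exact mul_le_mul_of_nonneg_left h3 hK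
        have h6 := mul_le_mul_of_nonneg_left h5 h4
        linarith
    _ = 80 * K * ∑ s ∈ S1, ∑ s' ∈ S2,
          (m s * m s' * (1 / (1 + |x s - x s'| * Λ) ^ ((3 : ℝ) / 2))) := by
        rw [Finset.mul_sum]
        refine Finset.sum_congr rfl fun s _ => ?_
        rw [Finset.mul_sum]
    _ ≤ 80 * K * (20 * (lam * PP1 S1 m x Λ + 1 / lam * PP1 S2 m x Λ)) :=
        mul_le_mul_of_nonneg_left h1 (by positivity)
    _ = _ := by ring

lemma QS_far_bound (S1 S2 : Finset ι) (hm : ∀ s, 0 ≤ m s) {f : ℝ → ℝ} {K : ℝ}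
    (hf : ∀ y, |f y| ≤ K / (1 + y ^ 2)) {Λ : ℝ} (hΛ : 1 ≤ Λ)
    (hfar : ∀ s ∈ S1, ∀ s' ∈ S2, 1 ≤ |x s - x s'|) :
    ∑ s ∈ S1, ∑ s' ∈ S2, m s * m s' * |f ((x s - x s') * Λ / (2 * Real.pi))| ≤
      3200 * K / Real.sqrt Λ * (PP1 S1 m x Λ + PP1 S2 m x Λ) := by
  have hK : 0 ≤ K := by
    have := (abs_nonneg _).trans (hf 0)
    simpa using this
  have hΛ0 : 0 < Λ := by linarith
  have h1 := cell_bound S1 S2 hm (x := x) hΛ0 one_pos
  calc ∑ s ∈ S1, ∑ s' ∈ S2, m s * m s' * |f ((x s - x s') * Λ / (2 * Real.pi))| ≤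
        ∑ s ∈ S1, ∑ s' ∈ S2, 160 * K / Real.sqrt Λ *
          (m s * m s' * (1 / (1 + |x s - x s'| * Λ) ^ ((3 : ℝ) / 2))) := by
        refine Finset.sum_le_sum fun s hs => Finset.sum_le_sum fun s' hs' => ?_
        have h2 := hf ((x s - x s') * Λ / (2 * Real.pi))
        have h3 := kern_far hΛ (hfar s hs s' hs')
        have h4 : 0 ≤ m s * m s' := mul_nonneg (hm s) (hm s')
        have h5 : |f ((x s - x s') * Λ / (2 * Real.pi))| ≤
            K * (160 / Real.sqrt Λ * (1 / (1 + |x s - x s'| * Λ) ^ ((3 : ℝ) / 2))) := by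
          refine h2.trans ?_
          rw [div_eq_mul_one_div]
          exact mul_le_mul_of_nonneg_left h3 hK
        have h6 := mul_le_mul_of_nonneg_left h5 h4
        refine h6.trans (le_of_eq ?_)
        ring
    _ = 160 * K / Real.sqrt Λ * ∑ s ∈ S1, ∑ s' ∈ S2,
          (m s * m s' * (1 / (1 + |x s - x s'| * Λ) ^ ((3 : ℝ) / 2))) := by
        rw [Finset.mul_sum]
        refine Finset.sum_congr rfl fun s _ => ?_
        rw [Finset.mul_sum]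
    _ ≤ 160 * K / Real.sqrt Λ * (20 * (1 * PP1 S1 m x Λ + 1 / 1 * PP1 S2 m x Λ)) :=
        mul_le_mul_of_nonneg_left h1 (by positivity)
    _ = _ := by ring

lemma QS_le_abs (S1 S2 : Finset ι) (hm : ∀ s, 0 ≤ m s) (f : ℝ → ℝ) (Λ : ℝ) :
    |QS S1 S2 m x f Λ| ≤
      ∑ s ∈ S1, ∑ s' ∈ S2, m s * m s' * |f ((x s - x s') * Λ / (2 * Real.pi))| := by
  unfold QS
  refine (Finset.abs_sum_le_sum_abs _ _).trans (Finset.sum_le_sum fun s _ =>
    (Finset.abs_sum_le_sum_abs _ _).trans (Finset.sum_le_sum fun s' _ => ?_))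
  rw [abs_mul, abs_of_nonneg (mul_nonneg (hm s) (hm s'))]

lemma PP1_anti (S : Finset ι) (hm : ∀ s, 0 ≤ m s) {L L' : ℝ} (hL : 0 < L) (h : L ≤ L') :
    PP1 S m x L' ≤ PP1 S m x L := by
  unfold PP1
  refine Finset.sum_le_sum fun s _ => Finset.sum_le_sum fun s' _ => ?_
  have h1 : 1 / L' ≤ 1 / L := one_div_le_one_div_of_le hL h
  have := mul_nonneg (hm s) (hm s')
  by_cases h2 : |x s - x s'| ≤ 1 / L'
  · rw [if_pos h2, if_pos (h2.trans h1)]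
  · rw [if_neg h2, mul_zero]
    split_ifs
    · rw [mul_one]; exact this
    · rw [mul_zero]

/-- splitting a pair sum -/
lemma split_pairs [DecidableEq ι] {S A B : Finset ι} (hS : S = A ∪ B) (hd : Disjoint A B)
    (g : ι → ι → ℝ) (hg : ∀ s s', g s s' = g s' s) :
    ∑ s ∈ S, ∑ s' ∈ S, g s s' = ∑ s ∈ A, ∑ s' ∈ A, g s s' + ∑ s ∈ B, ∑ s' ∈ B, g s s' +
      2 * ∑ s ∈ A, ∑ s' ∈ B, g s s' := by
  subst hS
  rw [Finset.sum_union hd]
  simp_rw [Finset.sum_union hd]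
  rw [Finset.sum_add_distrib, Finset.sum_add_distrib]
  have h1 : ∑ s ∈ B, ∑ s' ∈ A, g s s' = ∑ s ∈ A, ∑ s' ∈ B, g s s' := by
    rw [Finset.sum_comm]
    exact Finset.sum_congr rfl fun s _ => Finset.sum_congr rfl fun s' _ => hg _ _
  rw [h1]
  ring

end Pool.Agent.Y744
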