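import Pool.Agent.Results.MP_103a5c_nt.BohrSetPairs
import Pool.Agent.W54.TCF.NT
import Pool.Agent.Y744.PCR.NTa

/-! Pairs of zeros up to height `T`: local bound. -/

open Filter Topology Complex MeasureTheory

namespace Pool.Agent.Y744

open H370 TH803TW

/-- multiplicity -/
noncomputable def mz (s : ℂ) : ℝ := (mult riemannZeta s : ℝ)

lemma mz_nonneg (s : ℂ) : 0 ≤ mz s := Nat.cast_nonneg _

/-- the zeros up to height `T` -/
noncomputable def Zt (T : ℝ) : Finset ℂ := (zeta_zeros_finite T).toFinset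

/-- the zeros with ordinate in `(A, B]` -/
noncomputable def Zb (A B : ℝ) : Finset ℂ := Zf riemannZeta A B

lemma mem_Zt {T : ℝ} {s : ℂ} : s ∈ Zt T ↔ s ∈ zset riemannZeta 0 T := by
  unfold Zt
  rw [Set.Finite.mem_toFinset]

lemma mem_Zb {A B : ℝ} (hA : 1 ≤ A) {s : ℂ} : s ∈ Zb A B ↔ s ∈ zset riemannZeta A B :=
  mem_Zf good_zeta hA

lemma Zt_split {V T : ℝ} (hV : 1 ≤ V) (hVT : V ≤ T) : Zt T = Zt V ∪ Zb V T := by
  ext s
  rw [Finset.mem_union, mem_Zt, mem_Zt, mem_Zb hV]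
  simp only [zset, Set.mem_ofPred_eq]
  constructor
  · rintro ⟨a1, a2, a3, a4, a5⟩
    rcases le_or_gt s.im V with h1 | h1
    · exact Or.inl ⟨a1, a2, a3, h1, a5⟩
    · exact Or.inr ⟨a1, a2, h1, a4, a5⟩
  · rintro (⟨a1, a2, a3, a4, a5⟩ | ⟨a1, a2, a3, a4, a5⟩)
    · exact ⟨a1, a2, a3, a4.trans hVT, a5⟩
    · exact ⟨a1, a2, by linarith, a4, a5⟩

lemma Zt_disj {V T : ℝ} (hV : 1 ≤ V) : Disjoint (Zt V) (Zb V T) := by
  rw [Finset.disjoint_left]
  intro s h1 h2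
  rw [mem_Zt] at h1
  rw [mem_Zb hV] at h2
  obtain ⟨a1, a2, a3, a4, a5⟩ := h1
  obtain ⟨b1, b2, b3, b4, b5⟩ := h2
  linarith

lemma sum_Zb {A B : ℝ} (hA : 1 ≤ A) : ∑ s ∈ Zb A B, mz s = (NN riemannZeta A B : ℝ) := by
  unfold Zb mz
  rw [NN_eq good_zeta hA]
  push_cast
  rfl

lemma sum_Zt (T : ℝ) : ∑ s ∈ Zt T, mz s = (NN riemannZeta 0 T : ℝ) := by
  unfold Zt mz NN
  rw [finsum_mem_eq_finite_toFinset_sum _ (zeta_zeros_finite T)]
  push_cast
  rfl

/-- zeros in a short interval -/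
lemma short_count : ∃ C : ℝ, 0 < C ∧ ∀ T : ℝ, 10 ≤ T →
    ∑ s ∈ Zb T (T + 3), mz s ≤ C * (Real.log T) ^ 2 := by
  obtain ⟨C, hC, h⟩ := H965SI.countShort riemannZeta good_zeta
  refine ⟨4 * C + 3, by positivity, fun T hT => ?_⟩
  have h1 := (h T hT 3 le_rfl (by linarith) T (T + 3) le_rfl (by linarith) (by linarith) le_rfl).1
  rw [sum_Zb (by linarith)]
  have hL : 1 ≤ Real.log T := by
    rw [Real.le_log_iff_exp_le (by linarith)]
    linarith [Real.exp_one_lt_d9]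
  have h2 := (abs_le.1 h1).2
  have hpi := Real.pi_gt_three
  have h3 : 3 * Real.log T / (2 * Real.pi) ≤ Real.log T := by
    rw [div_le_iff₀ (by positivity)]
    nlinarith
  have h4 : Real.log T ≤ (Real.log T) ^ 2 := by nlinarith
  have h5 : C * (3 + (Real.log T) ^ 2) ≤ C * (4 * (Real.log T) ^ 2) := by
    refine mul_le_mul_of_nonneg_left ?_ hC.le
    nlinarith
  nlinarith

lemma cross_le {ι : Type*} [DecidableEq ι] (A B N : Finset ι) {m : ι → ℝ} (hm : ∀ s, 0 ≤ m s)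
    (g : ι → ι → ℝ)
    (hg : ∀ s ∈ A, ∀ s' ∈ B, g s s' ≤ (if s ∈ N then m s else 0) * (if s' ∈ N then m s' else 0)) :
    ∑ s ∈ A, ∑ s' ∈ B, g s s' ≤ (∑ s ∈ N, m s) ^ 2 := by
  have h1 : ∀ A : Finset ι, ∑ s ∈ A, (if s ∈ N then m s else 0) ≤ ∑ s ∈ N, m s := by
    intro A
    rw [← Finset.sum_filter]
    refine Finset.sum_le_sum_of_subset_of_nonneg ?_ fun s _ _ => hm s
    intro s hs
    exact (Finset.mem_filter.1 hs).2
  have h2 : ∀ A : Finset ι, 0 ≤ ∑ s ∈ A, (if s ∈ N then m s else 0) := fun A =>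
    Finset.sum_nonneg fun s _ => by
      split_ifs
      · exact hm s
      · exact le_rfl
  calc ∑ s ∈ A, ∑ s' ∈ B, g s s' ≤
        ∑ s ∈ A, ∑ s' ∈ B, (if s ∈ N then m s else 0) * (if s' ∈ N then m s' else 0) :=
        Finset.sum_le_sum fun s hs => Finset.sum_le_sum fun s' hs' => hg s hs s' hs'
    _ = (∑ s ∈ A, (if s ∈ N then m s else 0)) * ∑ s' ∈ B, (if s' ∈ N then m s' else 0) := by
        rw [Finset.sum_mul_sum]
    _ ≤ (∑ s ∈ N, m s) * ∑ s ∈ N, m s := mul_le_mul (h1 A) (h1 B) (h2 B) ((h2 A).trans (h1 A))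
    _ = _ := by ring

/-- the zeros near `V` -/
lemma near_mem {V : ℝ} (hV : 2 ≤ V) {s s' : ℂ} (h1 : s ∈ Zt V) (h2 : s' ∈ Zb V (2 * V))
    (h : |s.im - s'.im| ≤ 1) : s ∈ Zb (V - 1) (V - 1 + 3) ∧ s' ∈ Zb (V - 1) (V - 1 + 3) := by
  rw [mem_Zt] at h1
  rw [mem_Zb (by linarith)] at h2
  rw [mem_Zb (by linarith), mem_Zb (by linarith)]
  obtain ⟨a1, a2, a3, a4, a5⟩ := h1
  obtain ⟨b1, b2, b3, b4, b5⟩ := h2
  obtain ⟨h3, h4⟩ := abs_le.1 h
  exact ⟨⟨a1, a2, by linarith, by linarith, a5⟩, ⟨b1, b2, by linarith, by linarith, b5⟩⟩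

lemma PP1_Zt_step {V : ℝ} (hV : 2 ≤ V) {Λ : ℝ} (hΛ : 1 ≤ Λ) :
    PP1 (Zt (2 * V)) mz (fun s => s.im) Λ ≤ PP1 (Zt V) mz (fun s => s.im) Λ +
      PP1 (Zb V (2 * V)) mz (fun s => s.im) Λ + 2 * (∑ s ∈ Zb (V - 1) (V - 1 + 3), mz s) ^ 2 := by
  classical
  have h1 := split_pairs (Zt_split (V := V) (T := 2 * V) (by linarith) (by linarith))
    (Zt_disj (by linarith)) (fun s s' : ℂ => mz s * mz s' * (if |s.im - s'.im| ≤ 1 / Λ then 1 else 0))
    (fun s s' => by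
      show mz s * mz s' * (if |s.im - s'.im| ≤ 1 / Λ then 1 else 0) =
        mz s' * mz s * (if |s'.im - s.im| ≤ 1 / Λ then 1 else 0)
      rw [abs_sub_comm, mul_comm (mz s)])
  have h2 := cross_le (Zt V) (Zb V (2 * V)) (Zb (V - 1) (V - 1 + 3)) mz_nonneg
    (fun s s' : ℂ => mz s * mz s' * (if |s.im - s'.im| ≤ 1 / Λ then 1 else 0))
    (fun s hs s' hs' => by
      show mz s * mz s' * (if |s.im - s'.im| ≤ 1 / Λ then 1 else 0) ≤ _
      by_cases h : |s.im - s'.im| ≤ 1 / Λ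
      · have h3 : |s.im - s'.im| ≤ 1 := h.trans (by
          rw [div_le_one (by linarith)]; exact hΛ)
        obtain ⟨h4, h5⟩ := near_mem hV hs hs' h3
        rw [if_pos h, if_pos h4, if_pos h5, mul_one]
      · rw [if_neg h, mul_zero]
        refine mul_nonneg ?_ ?_ <;> split_ifs
        · exact mz_nonneg _
        · exact le_rfl
        · exact mz_nonneg _
        · exact le_rfl)
  unfold PP1
  rw [h1]
  linarith

lemma near_bound : ∃ V1 : ℝ, 20 ≤ V1 ∧ ∀ V : ℝ, V1 ≤ V →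
    2 * (∑ s ∈ Zb (V - 1) (V - 1 + 3), mz s) ^ 2 ≤ V := by
  obtain ⟨C2, hC2, hS⟩ := short_count
  have ev : ∀ᶠ V : ℝ in atTop, 2 * C2 ^ 2 * (Real.log V) ^ 4 ≤ V := by
    have h1 := (Real.isLittleO_pow_log_id_atTop (n := 4)).bound
      (show (0 : ℝ) < 1 / (2 * C2 ^ 2) by positivity)
    filter_upwards [h1, eventually_ge_atTop (1 : ℝ)] with V hV hV1
    rw [Real.norm_eq_abs, Real.norm_eq_abs, id, abs_of_pos (by linarith : (0 : ℝ) < V)] at hV
    have h2 := (le_abs_self _).trans hV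
    rw [one_div, ← div_eq_inv_mul, le_div_iff₀ (by positivity)] at h2
    linarith
  obtain ⟨V2, hV2⟩ := ev.exists_forall_of_atTop
  refine ⟨max 20 V2, le_max_left _ _, fun V hV => ?_⟩
  have hV20 : 20 ≤ V := (le_max_left _ _).trans hV
  have h1 := hV2 V ((le_max_right _ _).trans hV)
  have h2 := hS (V - 1) (by linarith)
  have h3 : Real.log (V - 1) ≤ Real.log V := Real.log_le_log (by linarith) (by linarith)
  have h4 : 0 ≤ Real.log (V - 1) := Real.log_nonneg (by linarith)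
  have h0 : 0 ≤ ∑ s ∈ Zb (V - 1) (V - 1 + 3), mz s := Finset.sum_nonneg fun s _ => mz_nonneg s
  have h5 : ∑ s ∈ Zb (V - 1) (V - 1 + 3), mz s ≤ C2 * (Real.log V) ^ 2 :=
    h2.trans (mul_le_mul_of_nonneg_left (pow_le_pow_left₀ h4 h3 2) hC2.le)
  have h6 := pow_le_pow_left₀ h0 h5 2
  have h7 : (C2 * (Real.log V) ^ 2) ^ 2 = C2 ^ 2 * (Real.log V) ^ 4 := by ring
  rw [h7] at h6
  linarith

/-- **local bound** -/
theorem PP_bound (RH : RiemannHypothesis) : ∃ C B0 V0 : ℝ, 0 ≤ C ∧ 0 ≤ B0 ∧ 20 ≤ V0 ∧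
    (∀ V : ℝ, V0 ≤ V → PP1 (Zb V (2 * V)) mz (fun s => s.im) (Real.log V) ≤ C * (V * Real.log V)) ∧
    (∀ T : ℝ, V0 ≤ T → ∀ Λ : ℝ, Real.log T ≤ Λ →
      PP1 (Zt T) mz (fun s => s.im) Λ ≤ B0 + C * (T * Real.log T)) := by
  obtain ⟨C1, T1, hC1, hT1, hP⟩ := P_dyadic good_zeta
    (Pool.Agent.Results.MP_103a5c_nt.BohrSetPairs.line_zeta RH)
  obtain ⟨V1, hV1, hN⟩ := near_bound
  set V0 : ℝ := max V1 T1 with hV0
  have hV020 : 20 ≤ V0 := hV1.trans (le_max_left _ _)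
  have hblk : ∀ V : ℝ, V0 ≤ V →
      PP1 (Zb V (2 * V)) mz (fun s => s.im) (Real.log V) ≤ C1 * (V * Real.log V) :=
    fun V hV => hP V ((le_max_right _ _).trans hV)
  set B0 : ℝ := (∑ s ∈ Zt (2 * V0), mz s) ^ 2 with hB0
  have hsmall : ∀ T : ℝ, T ≤ 2 * V0 → ∀ Λ : ℝ, PP1 (Zt T) mz (fun s => s.im) Λ ≤ B0 := by
    intro T hT Λ
    refine (PP1_le_sq (Zt T) mz_nonneg Λ).trans ?_
    refine pow_le_pow_left₀ (Finset.sum_nonneg fun s _ => mz_nonneg s) ?_ 2
    refine Finset.sum_le_sum_of_subset_of_nonneg (fun s hs => ?_) fun s _ _ => mz_nonneg s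
    rw [mem_Zt] at hs ⊢
    exact ⟨hs.1, hs.2.1, hs.2.2.1, hs.2.2.2.1.trans hT, hs.2.2.2.2⟩
  have hmain : ∀ n : ℕ, ∀ T : ℝ, V0 ≤ T → T ≤ 2 ^ n * (2 * V0) → ∀ Λ : ℝ, Real.log T ≤ Λ →
      PP1 (Zt T) mz (fun s => s.im) Λ ≤ B0 + (C1 + 1) * (T * Real.log T) := by
    intro n
    induction n with
    | zero =>
      intro T hT hT2 Λ hΛ
      rw [pow_zero, one_mul] at hT2
      have h1 := hsmall T hT2 Λ
      have h2 : 0 ≤ Real.log T := Real.log_nonneg (by linarith)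
      have h3 : 0 ≤ (C1 + 1) * (T * Real.log T) := by
        have : 0 ≤ T := by linarith
        positivity
      linarith
    | succ n ih =>
      intro T hT hT2 Λ hΛ
      have hlT : 0 ≤ Real.log T := Real.log_nonneg (by linarith)
      rcases le_or_gt T (2 * V0) with h | h
      · have h1 := hsmall T h Λ
        have h3 : 0 ≤ (C1 + 1) * (T * Real.log T) := by
          have : 0 ≤ T := by linarith
          positivity
        linarith
      · set V := T / 2 with hV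
        have hVV : V0 ≤ V := by linarith
        have hTV : T = 2 * V := by rw [hV]; ring
        have hlog : Real.log V ≤ Real.log T := Real.log_le_log (by linarith) (by linarith)
        have hlV1 : 1 ≤ Real.log V := by
          rw [Real.le_log_iff_exp_le (by linarith)]
          linarith [Real.exp_one_lt_d9]
        have h1 := ih V hVV (by
          rw [pow_succ] at hT2
          linarith) Λ (hlog.trans hΛ)
        have h2 := PP1_Zt_step (V := V) (by linarith) (Λ := Λ) (by linarith)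
        have h3 := (PP1_anti (x := fun s : ℂ => s.im) (Zb V (2 * V)) mz_nonneg (by linarith)
          (hlog.trans hΛ)).trans (hblk V hVV)
        have h4 := hN V ((le_max_left _ _).trans hVV)
        rw [← hTV] at h2 h3
        have h5 : V ≤ V * Real.log V := by nlinarith
        have h6 : (C1 + 1) * (V * Real.log V) ≤ (C1 + 1) * (V * Real.log T) := by
          have : 0 ≤ V := by linarith
          gcongr
        have h7 : (C1 + 1) * (T * Real.log T) = 2 * ((C1 + 1) * (V * Real.log T)) := by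
          rw [hTV]
          ring_nf
        linarith
  refine ⟨C1 + 1, B0, V0, by positivity, by positivity, hV020, fun V hV => ?_, fun T hT Λ hΛ => ?_⟩
  · refine (hblk V hV).trans ?_
    have h2 : 0 ≤ Real.log V := Real.log_nonneg (by linarith)
    have : 0 ≤ V * Real.log V := mul_nonneg (by linarith) h2
    linarith
  · obtain ⟨n, hn⟩ := pow_unbounded_of_one_lt (T / (2 * V0)) (one_lt_two)
    refine hmain n T hT ?_ Λ hΛ
    rw [div_lt_iff₀ (by linarith)] at hn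
    exact hn.le

end Pool.Agent.Y744
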