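import Pool.Agent.Y744.PCR.NTb

/-! Montgomery's theorem for the zeros up to height `T`. -/

open Filter Topology Complex MeasureTheory

namespace Pool.Agent.Y744

open H370 TH803TW Pool.Agent.Results.MP_103a5c_nt.BohrSetPairs

/-- test functions of the number theoretic input -/
structure NTf (R : ℝ → ℝ) (κ : ℝ) (f : ℝ → ℝ) : Prop where
  test : TestFn R κ
  κ0 : 0 < κ
  κ1 : κ < 1
  eq : ∀ x, r R x = f x
  even : ∀ x, f (-x) = f x
  scale : ∃ C, 0 ≤ C ∧ ∀ y s, 1 ≤ s → |f (s * y) - f y| ≤ C * (s - 1) / (1 + y ^ 2)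

/-- the normalisation -/
noncomputable def Xf (V : ℝ) : ℝ := V * Real.log V / (2 * Real.pi)

lemma Xf_pos {V : ℝ} (hV : 1 < V) : 0 < Xf V := by
  unfold Xf
  have := Real.log_pos hV
  have := Real.pi_pos
  positivity

variable {R : ℝ → ℝ} {κ : ℝ} {f : ℝ → ℝ}

lemma NTf.decay (h : NTf R κ f) : ∃ K, 0 ≤ K ∧ ∀ y, |f y| ≤ K / (1 + y ^ 2) := by
  obtain ⟨K, hK⟩ := h.test.decay
  refine ⟨K, ?_, fun y => ?_⟩
  · have := (abs_nonneg _).trans (hK 0)
    simpa using this
  · rw [← h.eq]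
    exact hK y

lemma blk_lim (RH : RiemannHypothesis) (h : NTf R κ f) :
    Tendsto (fun V => QS (Zb V (2 * V)) (Zb V (2 * V)) mz (fun s => s.im) f (Real.log V) / Xf V)
      atTop (𝓝 (mont R)) := by
  obtain ⟨K, hK⟩ := sc_dec h.test h.κ0 h.κ1
  have hsc : Continuous (sc R κ) := by
    unfold sc
    exact continuous_const.mul (h.test.cont.comp (by fun_prop))
  have hse : ∀ α, sc R κ (-α) = sc R κ α := fun α => by
    unfold sc; rw [mul_neg, h.test.even]
  have hs1 : sc R κ 1 = 0 := by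
    unfold sc
    rw [mul_one, h.test.supp κ (le_abs_self κ), mul_zero]
  rw [Metric.tendsto_atTop]
  intro ε hε
  obtain ⟨T1, hT1, hp⟩ := TH803TW.pair_dyadic RH (line_zeta RH) hsc hse hs1 hK APm_one κ (ε / 8)
    h.κ0 h.κ1 (by positivity)
  refine ⟨T1, fun V hV => ?_⟩
  have hV10 : 10 ≤ V := hT1.trans hV
  have hX := Xf_pos (V := V) (by linarith)
  have h1 := hp V hV
  rw [cR_sc h.test h.κ0 h.κ1, one_mul] at h1
  have h2 : PU (sc R κ) riemannZeta (κ * Real.log V) V (2 * V) (fun _ => 1) =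
      QS (Zb V (2 * V)) (Zb V (2 * V)) mz (fun s => s.im) f (Real.log V) := by
    unfold PU QS Zb mz
    refine Finset.sum_congr rfl fun s _ => Finset.sum_congr rfl fun s' _ => ?_
    rw [r_sc h.test h.κ0 h.κ1, mul_one, ← h.eq]
    congr 2
    have := h.κ0
    have := Real.pi_pos
    field_simp
  rw [h2] at h1
  rw [Real.dist_eq]
  have h3 : QS (Zb V (2 * V)) (Zb V (2 * V)) mz (fun s => s.im) f (Real.log V) / Xf V - mont R =
      (QS (Zb V (2 * V)) (Zb V (2 * V)) mz (fun s => s.im) f (Real.log V) -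
        V * Real.log V / (2 * Real.pi) * mont R) / Xf V := by
    rw [sub_div]
    congr 1
    rw [eq_div_iff hX.ne']
    unfold Xf
    ring
  rw [h3, abs_div, abs_of_pos hX, div_lt_iff₀ hX]
  refine h1.trans_lt ?_
  unfold Xf
  have hpi := Real.pi_lt_d2
  have hpi0 := Real.pi_pos
  have hL : 0 < V * Real.log V := mul_pos (by linarith) (Real.log_pos (by linarith))
  rw [← mul_div_assoc, lt_div_iff₀ (by positivity)]
  have : ε / 8 * (V * Real.log V) * (2 * Real.pi) = ε * (V * Real.log V) * (Real.pi / 4) := by ring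
  rw [this]
  have h4 : 0 < ε * (V * Real.log V) := by positivity
  nlinarith

lemma scale_err {ι : Type*} (S : Finset ι) {m x : ι → ℝ} (hm : ∀ s, 0 ≤ m s) {C : ℝ} (hC : 0 ≤ C)
    (hs : ∀ y s, 1 ≤ s → |f (s * y) - f y| ≤ C * (s - 1) / (1 + y ^ 2)) {L s : ℝ} (hL : 0 < L)
    (h1 : 1 ≤ s) :
    |QS S S m x f (s * L) - QS S S m x f L| ≤ 3200 * (C * (s - 1)) * PP1 S m x L := by
  have e : QS S S m x f (s * L) - QS S S m x f L =
      ∑ a ∈ S, ∑ b ∈ S, m a * m b * (f (s * ((x a - x b) * L / (2 * Real.pi))) -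
        f ((x a - x b) * L / (2 * Real.pi))) := by
    unfold QS
    rw [← Finset.sum_sub_distrib]
    refine Finset.sum_congr rfl fun a _ => ?_
    rw [← Finset.sum_sub_distrib]
    refine Finset.sum_congr rfl fun b _ => ?_
    rw [mul_sub]
    congr 3
    ring
  rw [e]
  have hK : 0 ≤ C * (s - 1) := mul_nonneg hC (by linarith)
  have h2 := QS_abs_bound (x := x) S S hm (f := fun y => C * (s - 1) / (1 + y ^ 2))
    (K := C * (s - 1)) (fun y => by rw [abs_of_nonneg (by positivity)]) hL one_pos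
  refine le_trans ?_ (h2.trans (le_of_eq ?_))
  · refine (Finset.abs_sum_le_sum_abs _ _).trans (Finset.sum_le_sum fun a _ =>
      (Finset.abs_sum_le_sum_abs _ _).trans (Finset.sum_le_sum fun b _ => ?_))
    rw [abs_mul, abs_of_nonneg (mul_nonneg (hm a) (hm b))]
    refine mul_le_mul_of_nonneg_left ?_ (mul_nonneg (hm a) (hm b))
    exact (hs _ s h1).trans (le_abs_self _)
  · ring

lemma cross_small (RH : RiemannHypothesis) (h : NTf R κ f) {η : ℝ} (hη : 0 < η) :
    ∃ V1 : ℝ, 20 ≤ V1 ∧ ∀ V : ℝ, V1 ≤ V → ∀ Λ : ℝ, Real.log V ≤ Λ →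
      |QS (Zt V) (Zb V (2 * V)) mz (fun s => s.im) f Λ| ≤ η * (V * Real.log V) := by
  classical
  obtain ⟨C, B0, V0, hC, hB0, hV0, hblk, hloc⟩ := PP_bound RH
  obtain ⟨V2, hV2, hnear⟩ := near_bound
  obtain ⟨K, hK, hf⟩ := h.decay
  set lam : ℝ := 4800 * (K + 1) * (C + 1) / η with hlam
  have hlam0 : 0 < lam := by positivity
  have ev1 : ∀ᶠ V : ℝ in atTop, 4800 * (K + 1) * lam / η ≤ Real.log V :=
    Real.tendsto_log_atTop.eventually_ge_atTop _
  have ev2 : ∀ᶠ V : ℝ in atTop, (9600 * (K + 1) * (2 * C + 1) / η) ^ 2 ≤ Real.log V :=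
    Real.tendsto_log_atTop.eventually_ge_atTop _
  have ev3 : ∀ᶠ V : ℝ in atTop, B0 ≤ V := eventually_ge_atTop _
  obtain ⟨V3, hV3⟩ := (ev1.and (ev2.and ev3)).exists_forall_of_atTop
  refine ⟨max (max V0 V2) V3, hV0.trans ((le_max_left _ _).trans (le_max_left _ _)),
    fun V hV Λ hΛ => ?_⟩
  have hVV0 : V0 ≤ V := ((le_max_left _ _).trans (le_max_left _ _)).trans hV
  have hVV2 : V2 ≤ V := ((le_max_right _ _).trans (le_max_left _ _)).trans hV
  obtain ⟨e1, e2, e3⟩ := hV3 V ((le_max_right _ _).trans hV)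
  have hV20 : 20 ≤ V := hV0.trans hVV0
  have hlV1 : 1 ≤ Real.log V := by
    rw [Real.le_log_iff_exp_le (by linarith)]
    linarith [Real.exp_one_lt_d9]
  have hΛ1 : 1 ≤ Λ := hlV1.trans hΛ
  set Y := V * Real.log V with hY
  have hVY : V ≤ Y := by rw [hY]; nlinarith
  have hY0 : 0 < Y := by linarith
  have hPblk : PP1 (Zb V (2 * V)) mz (fun s => s.im) Λ ≤ C * Y :=
    (PP1_anti (x := fun s : ℂ => s.im) (Zb V (2 * V)) mz_nonneg (by linarith) hΛ).trans
      (hblk V hVV0)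
  have hPt := hloc V hVV0 Λ hΛ
  set A := (Zt V).filter (fun s => V - 1 < s.im) with hA
  set B := (Zt V).filter (fun s => ¬ V - 1 < s.im) with hB
  have hAsum : 2 * (∑ s ∈ A, mz s) ^ 2 ≤ V := by
    refine le_trans ?_ (hnear V hVV2)
    have : ∑ s ∈ A, mz s ≤ ∑ s ∈ Zb (V - 1) (V - 1 + 3), mz s := by
      refine Finset.sum_le_sum_of_subset_of_nonneg (fun s hs => ?_) fun s _ _ => mz_nonneg s
      obtain ⟨h1, h2⟩ := Finset.mem_filter.1 hs
      rw [mem_Zt] at h1
      rw [mem_Zb (by linarith)]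
      exact ⟨h1.1, h1.2.1, h2, by linarith [h1.2.2.2.1], h1.2.2.2.2⟩
    have h0 : 0 ≤ ∑ s ∈ A, mz s := Finset.sum_nonneg fun s _ => mz_nonneg s
    have := pow_le_pow_left₀ h0 this 2
    linarith
  have hPA : PP1 A mz (fun s => s.im) Λ ≤ V / 2 := by
    have := PP1_le_sq A mz_nonneg (x := fun s : ℂ => s.im) Λ
    linarith
  have hPB : PP1 B mz (fun s => s.im) Λ ≤ B0 + C * Y :=
    (PP1_mono (Finset.filter_subset _ _) mz_nonneg Λ).trans hPt
  have n1 := QS_abs_bound (x := fun s : ℂ => s.im) A (Zb V (2 * V)) mz_nonneg hf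
    (Λ := Λ) (lam := lam) (by linarith) hlam0
  have n2 := QS_far_bound (x := fun s : ℂ => s.im) B (Zb V (2 * V)) mz_nonneg hf hΛ1 (by
    intro s hs s' hs'
    obtain ⟨h1, h2⟩ := Finset.mem_filter.1 hs
    rw [mem_Zb (by linarith)] at hs'
    have h3 := hs'.2.2.1
    push Not at h2
    rw [abs_sub_comm]
    refine le_trans ?_ (le_abs_self _)
    linarith)
  have n0 := QS_le_abs (x := fun s : ℂ => s.im) (Zt V) (Zb V (2 * V)) mz_nonneg f Λ
  rw [← Finset.sum_filter_add_sum_filter_not (Zt V) (fun s => V - 1 < s.im)] at n0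
  -- the near part
  have b1 : 1600 * K * (lam * PP1 A mz (fun s => s.im) Λ +
      1 / lam * PP1 (Zb V (2 * V)) mz (fun s => s.im) Λ) ≤ 2 * η / 3 * Y := by
    have c1 : lam * PP1 A mz (fun s => s.im) Λ ≤ lam * V :=
      mul_le_mul_of_nonneg_left (by linarith) hlam0.le
    have c2 : 1600 * K * (lam * V) ≤ η / 3 * Y := by
      rw [div_le_iff₀ hη] at e1
      have : 1600 * K * (lam * V) ≤ 1600 * (K + 1) * (lam * V) := by
        have : 0 ≤ lam * V := by positivity
        nlinarith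
      refine this.trans ?_
      have h3 : 4800 * (K + 1) * lam * V ≤ Real.log V * η * V :=
        mul_le_mul_of_nonneg_right e1 (by linarith)
      rw [hY]
      linarith
    have c3 : 1 / lam * PP1 (Zb V (2 * V)) mz (fun s => s.im) Λ ≤ 1 / lam * (C * Y) :=
      mul_le_mul_of_nonneg_left hPblk (by positivity)
    have c4 : 1600 * K * (1 / lam * (C * Y)) ≤ η / 3 * Y := by
      have h4 : 1600 * K * (1 / lam * (C * Y)) = (1600 * K * C / lam) * Y := by
        field_simp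
      rw [h4]
      refine mul_le_mul_of_nonneg_right ?_ hY0.le
      rw [div_le_iff₀ hlam0, hlam]
      have h5 : η / 3 * (4800 * (K + 1) * (C + 1) / η) = 1600 * ((K + 1) * (C + 1)) := by
        field_simp
        ring
      rw [h5]
      nlinarith
    have hK0 : 0 ≤ 1600 * K := by positivity
    calc 1600 * K * (lam * PP1 A mz (fun s => s.im) Λ +
        1 / lam * PP1 (Zb V (2 * V)) mz (fun s => s.im) Λ) ≤
          1600 * K * (lam * V + 1 / lam * (C * Y)) := by gcongr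
      _ = 1600 * K * (lam * V) + 1600 * K * (1 / lam * (C * Y)) := by ring
      _ ≤ _ := by linarith
  -- the far part
  have b2 : 3200 * K / Real.sqrt Λ * (PP1 B mz (fun s => s.im) Λ +
      PP1 (Zb V (2 * V)) mz (fun s => s.im) Λ) ≤ η / 3 * Y := by
    have hs : 9600 * (K + 1) * (2 * C + 1) / η ≤ Real.sqrt Λ :=
      Real.le_sqrt_of_sq_le (e2.trans hΛ)
    have hs0 : 0 < Real.sqrt Λ := Real.sqrt_pos.2 (by linarith)
    have c1 : PP1 B mz (fun s => s.im) Λ + PP1 (Zb V (2 * V)) mz (fun s => s.im) Λ ≤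
        (2 * C + 1) * Y := by nlinarith
    calc 3200 * K / Real.sqrt Λ * (PP1 B mz (fun s => s.im) Λ +
        PP1 (Zb V (2 * V)) mz (fun s => s.im) Λ) ≤ 3200 * K / Real.sqrt Λ * ((2 * C + 1) * Y) :=
          mul_le_mul_of_nonneg_left c1 (by positivity)
      _ = (3200 * K * (2 * C + 1) / Real.sqrt Λ) * Y := by ring
      _ ≤ η / 3 * Y := by
          refine mul_le_mul_of_nonneg_right ?_ hY0.le
          rw [div_le_iff₀ hs0]
          rw [div_le_iff₀ hη] at hs
          nlinarith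
  calc |QS (Zt V) (Zb V (2 * V)) mz (fun s => s.im) f Λ| ≤ _ := n0
    _ ≤ 2 * η / 3 * Y + η / 3 * Y := add_le_add (n1.trans b1) (n2.trans b2)
    _ = η * Y := by ring

end Pool.Agent.Y744
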