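import Pool.Agent.Y744.PCR.Fin2

/-! A single window length: the conjecture up to a small error. -/

open MeasureTheory Filter Topology Real

namespace Pool.Agent.Y744

/-- the error for one length -/
noncomputable def Me (ℓ : ℝ) : ℝ := max (gp ℓ) (2 * gp (ℓ / 2))

lemma single_ae {A' : ℝ → ℝ} (hA' : Monotone A') (hneg : ∀ y, y < 0 → A' y = 0) (h0 : 1 ≤ A' 0)
    {ℓ : ℝ} (hℓ : 0 < ℓ) (h1 : ∀ᵐ x, dE A' (x + ℓ) = dE A' x) :
    ∀ᵐ x, 0 < x → |A' x - AG x| ≤ Me ℓ := by
  -- translations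
  have tr : ∀ (P : ℝ → Prop) (c : ℝ), (∀ᵐ x, P x) → ∀ᵐ x, P (x + c) := fun P c hP =>
    (measurePreserving_add_right (volume : Measure ℝ) c).quasiMeasurePreserving.ae hP
  have trn : ∀ (P : ℝ → Prop), (∀ᵐ x, P x) → ∀ᵐ x, P (-x) := fun P hP =>
    (Measure.measurePreserving_neg (volume : Measure ℝ)).quasiMeasurePreserving.ae hP
  have h2 : ∀ᵐ x, ∀ n : ℤ, dE A' (x + n * ℓ + ℓ) = dE A' (x + n * ℓ) := by
    rw [ae_all_iff]
    exact fun n => tr (fun x => dE A' (x + ℓ) = dE A' x) (n * ℓ) h1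
  -- the first period
  have hbase : ∀ᵐ x, x ∈ Set.Ioo 0 ℓ → |dE A' x| ≤ Me ℓ := by
    have h3 := trn _ h1
    filter_upwards [h1, h3] with x hx1 hx2 hx
    -- `E (ℓ - x) = - E x`
    have e1 : dE A' (ℓ - x) = -dE A' x := by
      have : -x + ℓ = ℓ - x := by ring
      rw [this, dE_odd] at hx2
      exact hx2
    have key : ∀ y z, 0 < y → y ≤ z → y ≤ ℓ / 2 → z = ℓ - y → dE A' z = -dE A' y →
        -(2 * gp (ℓ / 2)) ≤ dE A' y ∧ dE A' y ≤ gp ℓ := by
      intro y z hy hyz hy2 hz he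
      have hz0 : 0 < z := by linarith
      have a1 : dE A' y = A' y - 1 - 2 * gp y := by
        rw [dE_pos hneg hy]
        unfold AG
        rw [if_neg (by linarith)]
        ring
      have a2 : dE A' z = A' z - 1 - 2 * gp z := by
        rw [dE_pos hneg hz0]
        unfold AG
        rw [if_neg (by linarith)]
        ring
      have a3 : A' y ≤ A' z := hA' hyz
      have a4 : A' 0 ≤ A' y := hA' hy.le
      have a5 : gp y ≤ gp (ℓ / 2) := gp_mono hy2
      have a6 : gp z ≤ gp ℓ := gp_mono (by linarith)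
      have a7 : 0 ≤ gp y := gp_nonneg hy.le
      constructor
      · linarith
      · linarith
    unfold Me
    rcases le_total x (ℓ / 2) with h4 | h4
    · obtain ⟨b1, b2⟩ := key x (ℓ - x) hx.1 (by linarith) h4 rfl e1
      rw [abs_le]
      constructor
      · have := le_max_right (gp ℓ) (2 * gp (ℓ / 2))
        linarith
      · exact b2.trans (le_max_left _ _)
    · have e2 : dE A' x = -dE A' (ℓ - x) := by rw [e1]; ring
      obtain ⟨b1, b2⟩ := key (ℓ - x) x (by linarith [hx.2]) (by linarith) (by linarith)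
        (by ring) e2
      rw [abs_le, e2]
      constructor
      · have := le_max_left (gp ℓ) (2 * gp (ℓ / 2))
        linarith
      · have := le_max_right (gp ℓ) (2 * gp (ℓ / 2))
        linarith
  have h4 : ∀ᵐ x, ∀ n : ℤ, (x + n * ℓ) ∈ Set.Ioo 0 ℓ → |dE A' (x + n * ℓ)| ≤ Me ℓ := by
    rw [ae_all_iff]
    exact fun n => tr (fun x => x ∈ Set.Ioo 0 ℓ → |dE A' x| ≤ Me ℓ) (n * ℓ) hbase
  have h5 : ∀ᵐ x : ℝ, ∀ n : ℤ, x + n * ℓ ≠ 0 := by
    rw [ae_all_iff]
    intro n
    have : ∀ᵐ x : ℝ, x ≠ -(n * ℓ) := by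
      rw [ae_iff]
      simp
    filter_upwards [this] with x hx h
    exact hx (by linarith)
  filter_upwards [h2, h4, h5] with x hx2 hx4 hx5 hx
  rw [← dE_pos hneg hx]
  have hper : ∀ n : ℕ, dE A' (x + ((-(n : ℤ) : ℤ) : ℝ) * ℓ) = dE A' x := by
    intro n
    induction n with
    | zero => simp
    | succ n ih =>
      have h6 := hx2 (-((n : ℤ) + 1))
      rw [← ih]
      have e1 : x + ((-((n : ℤ) + 1) : ℤ) : ℝ) * ℓ + ℓ = x + ((-(n : ℤ) : ℤ) : ℝ) * ℓ := by
        push_cast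
        ring
      rw [e1] at h6
      rw [h6]
      push_cast
      rfl
  set n : ℕ := ⌊x / ℓ⌋₊ with hn
  have hf1 : (n : ℝ) ≤ x / ℓ := Nat.floor_le (by positivity)
  have hf2 : x / ℓ < n + 1 := Nat.lt_floor_add_one _
  rw [le_div_iff₀ hℓ] at hf1
  rw [div_lt_iff₀ hℓ] at hf2
  rw [← hper n]
  have h7 := hx5 (-(n : ℤ))
  refine hx4 (-(n : ℤ)) ?_
  push_cast at h7 ⊢
  refine ⟨lt_of_le_of_ne (by linarith) (Ne.symm h7), by linarith⟩

/-- bound for the limit function everywhere -/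
lemma single_all {A' : ℝ → ℝ} (hA' : Monotone A') (hneg : ∀ y, y < 0 → A' y = 0) (h0 : 1 ≤ A' 0)
    {ℓ : ℝ} (hℓ : 0 < ℓ) (h1 : ∀ᵐ x, dE A' (x + ℓ) = dE A' x) (x : ℝ) :
    |A' x - AG x| ≤ Me ℓ := by
  have hae := single_ae hA' hneg h0 hℓ h1
  have hM0 : 0 ≤ Me ℓ := (gp_nonneg hℓ.le).trans (le_max_left _ _)
  have hex : ∀ a b : ℝ, a < b → 0 ≤ a → ∃ z, a < z ∧ z < b ∧ |A' z - AG z| ≤ Me ℓ := by
    intro a b hab ha
    have h2 : ∃ᵐ z : ℝ, z ∈ Set.Ioo a b := by
      intro h3
      have : volume (Set.Ioo a b) = 0 := by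
        rw [ae_iff] at h3
        refine measure_mono_null (fun z hz => ?_) h3
        show ¬ ¬ _
        exact not_not.2 hz
      rw [Real.volume_Ioo, ENNReal.ofReal_eq_zero] at this
      linarith
    obtain ⟨z, hz1, hz2⟩ := (h2.and_eventually hae).exists
    exact ⟨z, hz1.1, hz1.2, hz2 (by linarith [hz1.1])⟩
  have hup : ∀ y, 0 ≤ y → A' y ≤ 1 + 2 * gp y + Me ℓ := by
    intro y hy
    refine le_of_forall_pos_le_add fun ε hε => ?_
    have hc : ContinuousAt (fun z => 1 + 2 * gp z) y :=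
      continuousAt_const.add (continuousAt_const.mul gp_cont.continuousAt)
    have h3 : ∀ᶠ z in 𝓝 y, 1 + 2 * gp z < 1 + 2 * gp y + ε := hc.eventually_lt_const (by
      show 1 + 2 * gp y < _
      linarith)
    obtain ⟨δ, hδ, h4⟩ := Metric.eventually_nhds_iff.1 h3
    obtain ⟨z, hz1, hz2, hz⟩ := hex y (y + δ) (by linarith) hy
    have h5 := h4 (show dist z y < δ by rw [Real.dist_eq, abs_lt]; constructor <;> linarith)
    have h7 := hA' hz1.le
    have h8 := (abs_le.1 hz).2
    have h9 : AG z = 1 + 2 * gp z := by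
      unfold AG
      rw [if_neg (by linarith)]
    linarith
  rcases lt_trichotomy x 0 with hx | rfl | hx
  · rw [hneg x hx]
    unfold AG
    rw [if_pos hx]
    simpa using hM0
  · have h3 := hup 0 le_rfl
    unfold AG
    rw [if_neg (lt_irrefl _), abs_le]
    rw [gp_zero] at h3 ⊢
    constructor <;> linarith
  · have h3 := hup x hx.le
    unfold AG
    rw [if_neg (by linarith), abs_le]
    refine ⟨?_, by linarith⟩
    have h4 : 1 + 2 * gp x - Me ℓ ≤ A' x := by
      refine le_of_forall_pos_le_add fun ε hε => ?_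
      have hc : ContinuousAt (fun z => 1 + 2 * gp z) x :=
        continuousAt_const.add (continuousAt_const.mul gp_cont.continuousAt)
      have h3 : ∀ᶠ z in 𝓝 x, 1 + 2 * gp x - ε < 1 + 2 * gp z := hc.eventually_const_lt (by
        show _ < 1 + 2 * gp x
        linarith)
      obtain ⟨δ, hδ, h4⟩ := Metric.eventually_nhds_iff.1 h3
      obtain ⟨z, hz1, hz2, hz⟩ := hex (max (x / 2) (x - δ / 2)) x (by
        rw [max_lt_iff]; constructor <;> linarith) (le_max_of_le_left (by linarith))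
      have hz3 : x / 2 < z := (le_max_left _ _).trans_lt hz1
      have hz4 : x - δ / 2 < z := (le_max_right _ _).trans_lt hz1
      have h5 := h4 (show dist z x < δ by rw [Real.dist_eq, abs_lt]; constructor <;> linarith)
      have h7 := hA' hz2.le
      have h8 := (abs_le.1 hz).1
      have h9 : AG z = 1 + 2 * gp z := by
        unfold AG
        rw [if_neg (by linarith)]
      linarith
    linarith

end Pool.Agent.Y744
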