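import Mathlib

/-! Smooth band-limited test functions: cosine transforms of smooth even functions of compact
support. -/

open MeasureTheory Filter Topology Real
open scoped ContDiff

namespace Pool.Agent.Y744

/-- smooth even functions supported in `[-κ, κ]` -/
structure TK (κ : ℝ) (K : ℝ → ℝ) : Prop where
  smooth : ContDiff ℝ ∞ K
  even : ∀ x, K (-x) = K x
  supp : ∀ x, κ < |x| → K x = 0

/-- cosine transform -/
noncomputable def ct (K : ℝ → ℝ) (x : ℝ) : ℝ := ∫ α, K α * Real.cos (2 * π * x * α)

namespace TK

variable {κ : ℝ} {K : ℝ → ℝ}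

lemma cont (h : TK κ K) : Continuous K := h.smooth.continuous

lemma hcs (h : TK κ K) : HasCompactSupport K := by
  refine HasCompactSupport.intro (isCompact_Icc (a := -κ) (b := κ)) fun x hx => h.supp x ?_
  by_contra hc
  exact hx (abs_le.1 (not_lt.1 hc))

lemma integrable (h : TK κ K) : Integrable K := h.cont.integrable_of_hasCompactSupport h.hcs

lemma mul_int (h : TK κ K) {f : ℝ → ℝ} (hf : Continuous f) : Integrable fun α => K α * f α :=
  (h.cont.mul hf).integrable_of_hasCompactSupport h.hcs.mul_right

lemma ct_bound (h : TK κ K) (x : ℝ) : |ct K x| ≤ ∫ α, |K α| := by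
  unfold ct
  refine (abs_integral_le_integral_abs).trans ?_
  refine integral_mono_of_nonneg (Eventually.of_forall fun _ => abs_nonneg _) h.integrable.abs
    (Eventually.of_forall fun α => ?_)
  show |K α * Real.cos (2 * π * x * α)| ≤ |K α|
  rw [abs_mul]
  exact mul_le_of_le_one_right (abs_nonneg _) (Real.abs_cos_le_one _)

lemma ct_cont (h : TK κ K) : Continuous (ct K) := by
  refine continuous_of_dominated (bound := fun α => |K α|) ?_ ?_ h.integrable.abs ?_
  · exact fun x => (h.mul_int (by fun_prop)).aestronglyMeasurable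
  · refine fun x => Eventually.of_forall fun α => ?_
    rw [Real.norm_eq_abs, abs_mul]
    exact mul_le_of_le_one_right (abs_nonneg _) (Real.abs_cos_le_one _)
  · refine Eventually.of_forall fun α => ?_
    fun_prop

lemma ct_neg (K : ℝ → ℝ) (x : ℝ) : ct K (-x) = ct K x := by
  unfold ct
  refine integral_congr_ae (Eventually.of_forall fun α => ?_)
  show K α * Real.cos (2 * π * (-x) * α) = K α * Real.cos (2 * π * x * α)
  rw [show 2 * π * (-x) * α = -(2 * π * x * α) by ring, Real.cos_neg]

/-- the operation `K ↦ - K'' / (4 π²)` -/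
noncomputable def D (K : ℝ → ℝ) : ℝ → ℝ := fun α => -(deriv (deriv K) α) / (4 * π ^ 2)

lemma deriv_smooth (h : ContDiff ℝ ∞ K) : ContDiff ℝ ∞ (deriv K) :=
  (contDiff_infty_iff_deriv.1 h).2

lemma deriv_supp {K : ℝ → ℝ} (h : ∀ x, κ < |x| → K x = 0) : ∀ x, κ < |x| → deriv K x = 0 := by
  intro x hx
  have : K =ᶠ[𝓝 x] fun _ => (0 : ℝ) := by
    have h2 : ∀ᶠ y in 𝓝 x, κ < |y| := continuous_abs.continuousAt.eventually_const_lt hx
    filter_upwards [h2] with y hy using h y hy
  rw [this.deriv_eq]
  simp

lemma D_TK (h : TK κ K) : TK κ (D K) where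
  smooth := by
    have h2 := deriv_smooth (deriv_smooth h.smooth)
    unfold D
    exact (h2.neg).div_const _
  even := by
    intro x
    unfold D
    have h1 : (fun x => K (-x)) = K := funext h.even
    have h2 : ∀ x, deriv K (-x) = -deriv K x := by
      intro x
      have h3 := deriv_comp_neg K x
      rw [h1] at h3
      rw [h3, neg_neg]
    have h4 : deriv (deriv K) (-x) = deriv (deriv K) x := by
      have h5 : (fun x => deriv K (-x)) = fun x => -deriv K x := funext h2
      have h6 := deriv_comp_neg (deriv K) x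
      rw [h5] at h6
      rw [deriv.fun_neg] at h6
      linarith
    rw [h4]
  supp := by
    intro x hx
    unfold D
    rw [deriv_supp (deriv_supp h.supp) x hx]
    simp

lemma sq_mul_ct (h : TK κ K) (x : ℝ) : x ^ 2 * ct K x = ct (D K) x := by
  have hd1 : Differentiable ℝ K := h.smooth.differentiable (by simp)
  have hs1 := deriv_smooth h.smooth
  have hd2 : Differentiable ℝ (deriv K) := hs1.differentiable (by simp)
  have hc1 : HasCompactSupport (deriv K) := h.hcs.deriv
  have hc2 : HasCompactSupport (deriv (deriv K)) := hc1.deriv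
  have hk1 : Continuous (deriv K) := hs1.continuous
  have hk2 : Continuous (deriv (deriv K)) := (deriv_smooth hs1).continuous
  set c : ℝ := 2 * π * x with hc
  have i1 : ∀ f : ℝ → ℝ, Continuous f → Integrable (fun α => K α * f α) := fun f hf => h.mul_int hf
  have i2 : ∀ f : ℝ → ℝ, Continuous f → Integrable (fun α => deriv K α * f α) := fun f hf =>
    (hk1.mul hf).integrable_of_hasCompactSupport hc1.mul_right
  have i3 : ∀ f : ℝ → ℝ, Continuous f → Integrable (fun α => deriv (deriv K) α * f α) :=
    fun f hf => (hk2.mul hf).integrable_of_hasCompactSupport hc2.mul_right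
  have e1 : ∫ α, K α * (c * Real.cos (c * α)) = -∫ α, deriv K α * Real.sin (c * α) := by
    refine integral_mul_deriv_eq_deriv_mul_of_integrable (u := K)
      (v := fun α => Real.sin (c * α)) (fun α _ => (hd1 α).hasDerivAt) (fun α _ => ?_)
      (i1 _ (by fun_prop)) (i2 _ (by fun_prop)) (i1 _ (by fun_prop))
    have := ((hasDerivAt_id α).const_mul c).sin
    simp only [id, mul_one] at this
    rw [mul_comm c]
    exact this
  have e2 : ∫ α, deriv K α * (c * Real.sin (c * α)) =
      ∫ α, deriv (deriv K) α * Real.cos (c * α) := by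
    have h3 := integral_mul_deriv_eq_deriv_mul_of_integrable (u := deriv K)
      (v := fun α => -Real.cos (c * α)) (u' := deriv (deriv K))
      (v' := fun α => c * Real.sin (c * α)) (fun α _ => (hd2 α).hasDerivAt) (fun α _ => ?_)
      (i2 _ (by fun_prop)) (i3 _ (by fun_prop)) (i2 _ (by fun_prop))
    · rw [h3, ← integral_neg]
      refine integral_congr_ae (Eventually.of_forall fun α => ?_)
      show -(deriv (deriv K) α * -Real.cos (c * α)) = _
      ring
    · have := ((hasDerivAt_id α).const_mul c).cos.neg
      simp only [id, mul_one, neg_mul, neg_neg] at this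
      rw [mul_comm c]
      exact this
  have e3 : c ^ 2 * ct K x = -∫ α, deriv (deriv K) α * Real.cos (c * α) := by
    have h4 : c * ct K x = ∫ α, K α * (c * Real.cos (c * α)) := by
      unfold ct
      rw [← integral_const_mul]
      refine integral_congr_ae (Eventually.of_forall fun α => ?_)
      show c * (K α * Real.cos (c * α)) = _
      ring
    have h5 : c * ∫ α, deriv K α * Real.sin (c * α) =
        ∫ α, deriv K α * (c * Real.sin (c * α)) := by
      rw [← integral_const_mul]
      refine integral_congr_ae (Eventually.of_forall fun α => ?_)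
      show c * (deriv K α * Real.sin (c * α)) = _
      ring
    rw [_root_.sq, mul_assoc, h4, e1, mul_neg, h5, e2]
  have e4 : ct (D K) x = (-∫ α, deriv (deriv K) α * Real.cos (c * α)) / (4 * π ^ 2) := by
    unfold ct D
    rw [← integral_neg, ← integral_div]
    refine integral_congr_ae (Eventually.of_forall fun α => ?_)
    show -(deriv (deriv K) α) / (4 * π ^ 2) * Real.cos (c * α) = _
    ring
  rw [e4, ← e3, hc]
  have := Real.pi_pos
  field_simp
  ring

lemma add (h : TK κ K) {K' : ℝ → ℝ} (h' : TK κ K') : TK κ (fun α => K α + K' α) where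
  smooth := h.smooth.add h'.smooth
  even := fun x => by simp only [h.even, h'.even]
  supp := fun x hx => by simp only [h.supp x hx, h'.supp x hx, add_zero]

lemma ct_add (h : TK κ K) {K' : ℝ → ℝ} (h' : TK κ K') (x : ℝ) :
    ct (fun α => K α + K' α) x = ct K x + ct K' x := by
  unfold ct
  rw [← integral_add (h.mul_int (by fun_prop)) (h'.mul_int (by fun_prop))]
  refine integral_congr_ae (Eventually.of_forall fun α => ?_)
  show (K α + K' α) * _ = _
  ring

/-- `(1 + x²)` times the transform is a transform -/
lemma one_add_sq_mul (h : TK κ K) : ∃ K', TK κ K' ∧ ∀ x, (1 + x ^ 2) * ct K x = ct K' x := by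
  refine ⟨fun α => K α + D K α, h.add h.D_TK, fun x => ?_⟩
  rw [h.ct_add h.D_TK, ← h.sq_mul_ct]
  ring

lemma pow_mul (h : TK κ K) (n : ℕ) : ∃ K', TK κ K' ∧ ∀ x, (1 + x ^ 2) ^ n * ct K x = ct K' x := by
  induction n with
  | zero => exact ⟨K, h, fun x => by simp⟩
  | succ n ih =>
    obtain ⟨K1, h1, e1⟩ := ih
    obtain ⟨K2, h2, e2⟩ := h1.one_add_sq_mul
    refine ⟨K2, h2, fun x => ?_⟩
    rw [← e2, ← e1]
    ring

lemma x_pow_mul (h : TK κ K) (n : ℕ) : ∃ K', TK κ K' ∧ ∀ x, x ^ (2 * n) * ct K x = ct K' x := by
  induction n with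
  | zero => exact ⟨K, h, fun x => by simp⟩
  | succ n ih =>
    obtain ⟨K1, h1, e1⟩ := ih
    refine ⟨_, h1.D_TK, fun x => ?_⟩
    rw [← h1.sq_mul_ct, ← e1]
    ring

lemma decay (h : TK κ K) (n : ℕ) : ∃ C, 0 ≤ C ∧ ∀ x, |ct K x| ≤ C / (1 + x ^ 2) ^ n := by
  obtain ⟨K', h', e⟩ := h.pow_mul n
  refine ⟨∫ α, |K' α|, integral_nonneg fun _ => abs_nonneg _, fun x => ?_⟩
  have hp : 0 < (1 + x ^ 2) ^ n := by positivity
  rw [le_div_iff₀ hp, mul_comm]
  have := h'.ct_bound x
  rw [← e, abs_mul, abs_of_pos hp] at this
  exact this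

lemma dil (h : TK κ K) {ε : ℝ} (hε : 0 < ε) :
    TK (ε * κ) (fun α => ε⁻¹ * K (ε⁻¹ * α)) where
  smooth := by
    have := h.smooth
    fun_prop
  even := fun x => by rw [mul_neg, h.even]
  supp := fun x hx => by
    rw [h.supp, mul_zero]
    rw [abs_mul, abs_of_pos (inv_pos.2 hε), lt_inv_mul_iff₀ hε]
    exact hx

lemma ct_dil (K : ℝ → ℝ) {ε : ℝ} (hε : 0 < ε) (x : ℝ) :
    ct (fun α => ε⁻¹ * K (ε⁻¹ * α)) x = ct K (ε * x) := by
  unfold ct
  have h1 := Measure.integral_comp_mul_left
    (fun β => K β * Real.cos (2 * π * (ε * x) * β)) ε⁻¹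
  simp only [smul_eq_mul, inv_inv, abs_of_pos hε] at h1
  have h2 : ∀ α, ε⁻¹ * K (ε⁻¹ * α) * Real.cos (2 * π * x * α) =
      ε⁻¹ * (K (ε⁻¹ * α) * Real.cos (2 * π * (ε * x) * (ε⁻¹ * α))) := by
    intro α
    have : 2 * π * (ε * x) * (ε⁻¹ * α) = 2 * π * x * α := by field_simp
    rw [this]
    ring
  simp_rw [h2]
  rw [integral_const_mul, h1, inv_mul_cancel_left₀ hε.ne']

lemma mono (h : TK κ K) {κ' : ℝ} (hk : κ ≤ κ') : TK κ' K :=
  ⟨h.smooth, h.even, fun x hx => h.supp x (hk.trans_lt hx)⟩

lemma modul (h : TK κ K) (s : ℝ) : TK (κ + |s|) (fun α => (K (α - s) + K (α + s)) / 2) where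
  smooth := by
    have := h.smooth
    fun_prop
  even := fun x => by
    have h1 : K (-x - s) = K (x + s) := by rw [← h.even]; ring_nf
    have h2 : K (-x + s) = K (x - s) := by rw [← h.even]; ring_nf
    rw [h1, h2]
    ring
  supp := fun x hx => by
    have h1 : κ < |x - s| := by
      have := abs_sub_abs_le_abs_sub x s
      linarith
    have h2 : κ < |x + s| := by
      have := abs_sub_abs_le_abs_sub x (-s)
      rw [abs_neg, sub_neg_eq_add] at this
      linarith
    rw [h.supp _ h1, h.supp _ h2]
    simp

lemma sin_zero (h : TK κ K) (c : ℝ) : ∫ α, K α * Real.sin (c * α) = 0 := by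
  have h1 : ∫ α, K α * Real.sin (c * α) = ∫ α, K (-α) * Real.sin (c * (-α)) :=
    (integral_neg_eq_self (fun α => K α * Real.sin (c * α)) volume).symm
  have h2 : ∫ α, K (-α) * Real.sin (c * (-α)) = -∫ α, K α * Real.sin (c * α) := by
    rw [← integral_neg]
    refine integral_congr_ae (Eventually.of_forall fun α => ?_)
    show K (-α) * Real.sin (c * (-α)) = -(K α * Real.sin (c * α))
    rw [h.even, mul_neg, Real.sin_neg]
    ring
  linarith

lemma ct_modul (h : TK κ K) (s x : ℝ) :
    ct (fun α => (K (α - s) + K (α + s)) / 2) x = Real.cos (2 * π * s * x) * ct K x := by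
  unfold ct
  set c : ℝ := 2 * π * x with hc
  have h1 : ∫ α, K (α - s) * Real.cos (c * α) = ∫ α, K α * Real.cos (c * (α + s)) := by
    have := integral_sub_right_eq_self (μ := volume) (fun α => K α * Real.cos (c * (α + s))) s
    rw [← this]
    refine integral_congr_ae (Eventually.of_forall fun α => ?_)
    show K (α - s) * Real.cos (c * α) = K (α - s) * Real.cos (c * (α - s + s))
    rw [sub_add_cancel]
  have h2 : ∫ α, K (α + s) * Real.cos (c * α) = ∫ α, K α * Real.cos (c * (α - s)) := by
    have := integral_add_right_eq_self (μ := volume) (fun α => K α * Real.cos (c * (α - s))) s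
    rw [← this]
    refine integral_congr_ae (Eventually.of_forall fun α => ?_)
    show K (α + s) * Real.cos (c * α) = K (α + s) * Real.cos (c * (α + s - s))
    rw [add_sub_cancel_right]
  have j1 : Integrable fun α => K (α - s) * Real.cos (c * α) := by
    have := (h.mul_int (f := fun α => Real.cos (c * (α + s))) (by fun_prop)).comp_sub_right s
    refine this.congr (Eventually.of_forall fun α => ?_)
    show K (α - s) * Real.cos (c * (α - s + s)) = K (α - s) * Real.cos (c * α)
    rw [sub_add_cancel]
  have j2 : Integrable fun α => K (α + s) * Real.cos (c * α) := by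
    have := (h.mul_int (f := fun α => Real.cos (c * (α - s))) (by fun_prop)).comp_add_right s
    refine this.congr (Eventually.of_forall fun α => ?_)
    show K (α + s) * Real.cos (c * (α + s - s)) = K (α + s) * Real.cos (c * α)
    rw [add_sub_cancel_right]
  have h3 : ∫ α, (K (α - s) + K (α + s)) / 2 * Real.cos (c * α) =
      (∫ α, K (α - s) * Real.cos (c * α)) / 2 + (∫ α, K (α + s) * Real.cos (c * α)) / 2 := by
    rw [← integral_div, ← integral_div, ← integral_add (j1.div_const 2) (j2.div_const 2)]
    refine integral_congr_ae (Eventually.of_forall fun α => ?_)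
    show (K (α - s) + K (α + s)) / 2 * Real.cos (c * α) =
      K (α - s) * Real.cos (c * α) / 2 + K (α + s) * Real.cos (c * α) / 2
    ring
  rw [h3, h1, h2, ← integral_div, ← integral_div, ← integral_add
    ((h.mul_int (by fun_prop)).div_const 2) ((h.mul_int (by fun_prop)).div_const 2),
    ← integral_const_mul]
  refine integral_congr_ae (Eventually.of_forall fun α => ?_)
  show K α * Real.cos (c * (α + s)) / 2 + K α * Real.cos (c * (α - s)) / 2 =
    Real.cos (2 * π * s * x) * (K α * Real.cos (c * α))
  have e1 : c * (α + s) = c * α + 2 * π * s * x := by rw [hc]; ring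
  have e2 : c * (α - s) = c * α - 2 * π * s * x := by rw [hc]; ring
  rw [e1, e2, Real.cos_add, Real.cos_sub]
  ring

end TK

/-- a nonnegative test function -/
lemma exists_pos {κ : ℝ} (hκ : 0 < κ) : ∃ K, TK κ K ∧ (∀ x, 0 ≤ ct K x) ∧ 0 < ct K 0 ∧
    ∀ x, ct K x ≤ ct K 0 := by
  let f : ContDiffBump (0 : ℝ) := ⟨κ / 4, κ / 2, by positivity, by linarith⟩
  have hf : TK (κ / 2) (fun x => f x) := by
    refine ⟨f.contDiff, fun x => f.neg x, fun x hx => ?_⟩
    by_contra hne
    have h1 : x ∈ Function.support f := hne
    rw [f.support_eq] at h1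
    rw [Metric.mem_ball, Real.dist_eq, sub_zero] at h1
    exact absurd hx (not_lt.2 h1.le)
  set F : ℝ → ℝ := fun x => f x with hF
  set G : ℝ → ℝ := convolution F F (ContinuousLinearMap.mul ℝ ℝ) volume with hG
  have hGt : TK κ G := by
    refine ⟨?_, fun x => ?_, fun x hx => ?_⟩
    · exact HasCompactSupport.contDiff_convolution_right _ hf.hcs
        (hf.cont.locallyIntegrable) hf.smooth
    · rw [hG]
      unfold convolution
      rw [← integral_neg_eq_self]
      refine integral_congr_ae (Eventually.of_forall fun t => ?_)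
      show F (-t) * F (-x - -t) = F t * F (x - t)
      rw [hf.even, ← hf.even (-x - -t)]
      congr 2
      ring
    · rw [hG]
      unfold convolution
      rw [integral_eq_zero_of_ae]
      refine Eventually.of_forall fun t => ?_
      show F t * F (x - t) = 0
      by_cases h1 : κ / 2 < |t|
      · rw [hf.supp t h1, zero_mul]
      · rw [hf.supp (x - t), mul_zero]
        have := abs_sub_abs_le_abs_sub x t
        linarith
  have key : ∀ x, ct G x = (ct F x) ^ 2 := by
    intro x
    set c : ℝ := 2 * π * x with hc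
    set A : ℝ → ℝ := fun α => F α * Real.cos (c * α) with hA
    set B : ℝ → ℝ := fun α => F α * Real.sin (c * α) with hB
    have iA : Integrable A := hf.mul_int (by fun_prop)
    have iB : Integrable B := hf.mul_int (by fun_prop)
    have hAc : HasCompactSupport A := hf.hcs.mul_right
    have hBc : HasCompactSupport B := hf.hcs.mul_right
    have cA : Continuous A := hf.cont.mul (by fun_prop)
    have cB : Continuous B := hf.cont.mul (by fun_prop)
    have e1 : ∀ α, G α * Real.cos (c * α) = convolution A A (ContinuousLinearMap.mul ℝ ℝ) volume α -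
        convolution B B (ContinuousLinearMap.mul ℝ ℝ) volume α := by
      intro α
      rw [hG]
      unfold convolution
      have i1 : Integrable fun t => A t * A (α - t) :=
        (cA.mul (by fun_prop)).integrable_of_hasCompactSupport hAc.mul_right
      have i2 : Integrable fun t => B t * B (α - t) :=
        (cB.mul (by fun_prop)).integrable_of_hasCompactSupport hBc.mul_right
      show (∫ t, F t * F (α - t)) * Real.cos (c * α) = (∫ t, A t * A (α - t)) -
        ∫ t, B t * B (α - t)
      rw [← integral_sub i1 i2, ← integral_mul_const]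
      refine integral_congr_ae (Eventually.of_forall fun t => ?_)
      show F t * F (α - t) * Real.cos (c * α) = F t * Real.cos (c * t) *
        (F (α - t) * Real.cos (c * (α - t))) - F t * Real.sin (c * t) *
        (F (α - t) * Real.sin (c * (α - t)))
      have : c * α = c * t + c * (α - t) := by ring
      rw [this, Real.cos_add]
      ring
    have e2 : ct G x = (∫ α, convolution A A (ContinuousLinearMap.mul ℝ ℝ) volume α) -
        ∫ α, convolution B B (ContinuousLinearMap.mul ℝ ℝ) volume α := by
      rw [← integral_sub (iA.integrable_convolution _ iA) (iB.integrable_convolution _ iB)]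
      unfold ct
      exact integral_congr_ae (Eventually.of_forall fun α => e1 α)
    rw [e2, integral_convolution _ iA iA, integral_convolution _ iB iB]
    have e3 : ∫ α, B α = 0 := hf.sin_zero c
    rw [e3]
    show (∫ α, A α) * (∫ α, A α) - 0 * 0 = (ct F x) ^ 2
    have e4 : ∫ α, A α = ct F x := rfl
    rw [e4]
    ring
  have hF0 : 0 < ct F 0 := by
    unfold ct
    have : ∫ α, F α * Real.cos (2 * π * 0 * α) = ∫ α, F α := by simp
    rw [this]
    exact f.integral_pos
  have hFb : ∀ x, |ct F x| ≤ ct F 0 := by
    intro x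
    refine (hf.ct_bound x).trans (le_of_eq ?_)
    unfold ct
    simp only [mul_zero, zero_mul, Real.cos_zero, mul_one]
    refine integral_congr_ae (Eventually.of_forall fun α => ?_)
    exact abs_of_nonneg (f.nonneg)
  refine ⟨G, hGt, fun x => by rw [key]; positivity, by rw [key]; positivity, fun x => ?_⟩
  rw [key, key]
  exact sq_le_sq' (by linarith [(abs_le.1 (hFb x)).1]) (abs_le.1 (hFb x)).2

end Pool.Agent.Y744
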