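import Pool.Agent.Y744.PCR.Single

/-! A single window length: all windows. -/

open MeasureTheory Filter Topology Real

namespace Pool.Agent.Y744

open Pool.Agent.Results.MP_103a5c_nt.BohrSetPairs

/-- the limit function along an ultrafilter -/
lemma exists_limit (RH : RiemannHypothesis) (g : Ultrafilter ℝ) (hgt : (g : Filter ℝ) ≤ atTop) :
    ∃ (A' : ℝ → ℝ) (C0 : ℝ), Monotone A' ∧ (∀ y, y < 0 → A' y = 0) ∧
      (∀ y, |A' y| ≤ C0 * (1 + y ^ 2)) ∧ 1 ≤ A' 0 ∧
      (∀ y, Tendsto (fun T => Aa T y) (g : Filter ℝ) (𝓝 (A' y))) ∧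
      (∀ K, TK (1 / 2) K → ∀ h, 0 < h →
        ∫ y, A' y * (ct K (y + h) - ct K (y - h)) = ∫ y, AG y * (ct K (y + h) - ct K (y - h))) := by
  obtain ⟨C0, T0, hT0, hb⟩ := Aa_bound RH
  have hmono : ∀ T, T0 ≤ T → Monotone (Aa T) := fun T hT => Aa_mono (by linarith)
  have hT : ∀ᶠ T in (g : Filter ℝ), T0 ≤ T := hgt (eventually_ge_atTop _)
  have hex : ∀ y, ∃ L, Tendsto (fun T => Aa T y) (g : Filter ℝ) (𝓝 L) := by
    intro y
    have h1 : ((g.map fun T => Aa T y : Ultrafilter ℝ) : Filter ℝ) ≤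
        𝓟 (Set.Icc (-(C0 * (1 + y ^ 2))) (C0 * (1 + y ^ 2))) := by
      rw [le_principal_iff]
      have h2 : ∀ᶠ T in (g : Filter ℝ), Aa T y ∈
          Set.Icc (-(C0 * (1 + y ^ 2))) (C0 * (1 + y ^ 2)) := by
        filter_upwards [hT] with T hT1
        exact abs_le.1 (hb T hT1 y)
      exact h2
    obtain ⟨L, _, hL⟩ := isCompact_Icc.ultrafilter_le_nhds _ h1
    exact ⟨L, hL⟩
  choose A' hlim using hex
  have hA' : Monotone A' := by
    intro a b hab
    refine le_of_tendsto_of_tendsto (hlim a) (hlim b) ?_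
    filter_upwards [hT] with T hT1 using hmono T hT1 hab
  refine ⟨A', C0, hA', fun y hy => ?_, fun y => ?_, ?_, hlim, fun K hK h hh => ?_⟩
  · refine tendsto_nhds_unique (hlim y) ?_
    have : (fun T => Aa T y) = fun _ => 0 := funext fun T => Aa_neg T y hy
    rw [this]
    exact tendsto_const_nhds
  · refine le_of_tendsto (hlim y).abs ?_
    filter_upwards [hT] with T hT1 using hb T hT1 y
  · refine le_of_forall_pos_le_add fun ε hε => ?_
    have h1 : ∀ᶠ T in (g : Filter ℝ), 1 - ε ≤ Aa T 0 := hgt (Aa_diag hε)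
    have := ge_of_tendsto (hlim 0) h1
    linarith
  · obtain ⟨D, hD⟩ := test_decay hK h
    refine lim_int hmono hb ?_ hD ?_ hgt hA' hlim
    · exact (hK.ct_cont.measurable.comp (by fun_prop)).sub
        (hK.ct_cont.measurable.comp (by fun_prop))
    · have h1 := (mont_lim RH (NTf_fav hK (by norm_num) (by norm_num) hh)).neg
      rw [AG_mont hK (by norm_num) hh]
      refine h1.congr fun T => ?_
      rw [Aa_int hK hh]
      rw [div_eq_inv_mul]

/-- one length: the counting function -/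
lemma single_Aa (RH : RiemannHypothesis) {l : Filter ℝ} (hl : l ≤ atTop) {ℓ s C c a0 : ℝ}
    (hℓ : 0 < ℓ) (hs : s = 1 ∨ s = -1) (hC : 0 ≤ C) (hc : 0 < c) (ha0 : 0 < a0)
    (hyp : ∀ a, a0 ≤ a → ∀ ε, 0 < ε → ∀ᶠ T in l,
      -(C * Real.exp (-(c * a))) - ε ≤ s * (Ww T a ℓ - 2 * (gp (a + ℓ) - gp a))) (x : ℝ) {ε : ℝ}
    (hε : 0 < ε) : ∀ᶠ T in l, |Aa T x - AG x| ≤ Me ℓ + ε := by
  have key : {T | |Aa T x - AG x| ≤ Me ℓ + ε} ∈ l := by
    rw [Filter.mem_iff_ultrafilter]
    intro g hg
    have hgt : (g : Filter ℝ) ≤ atTop := hg.trans hl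
    obtain ⟨A', C0, hA', hneg, hb, h0, hlim, hm⟩ := exists_limit RH g hgt
    have c1 := cond_limit (T0 := 2) (W := Ww) (fun T hT a ℓ ha hℓ => Ww_lower (by linarith))
      (fun T hT a ℓ η ha hℓ hη => Ww_upper (by linarith) hη hℓ) hgt hlim hℓ hs ha0
      (fun a ha ε hε => hg (hyp a ha ε hε))
    have p1 := periodic (κ := 1 / 2) (by norm_num) hA' hneg hb hm hℓ hs hC hc ha0 c1
    have h1 := single_all hA' hneg h0 hℓ p1 x
    have h2 : Tendsto (fun T => |Aa T x - AG x|) (g : Filter ℝ) (𝓝 |A' x - AG x|) :=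
      ((hlim x).sub_const _).abs
    have h3 : ∀ᶠ T in (g : Filter ℝ), |Aa T x - AG x| < Me ℓ + ε :=
      (tendsto_order.1 h2).2 _ (by linarith)
    exact h3.mono fun T hT => le_of_lt hT
  exact key

/-- from the counting function to the windows -/
lemma Nr_close {l : Filter ℝ} (hl : l ≤ atTop) {η : ℝ}
    (h : ∀ x, ∀ ε, 0 < ε → ∀ᶠ T in l, |Aa T x - AG x| ≤ η + ε) {α β : ℝ}
    (hαβ : α < β) {ε : ℝ} (hε : 0 < ε) : ∀ᶠ T in l, |Nr T α β - pr α β| ≤ η + ε := by
  have hpos : ∀ α β : ℝ, 0 < α → α < β → ∀ᶠ T in l, |Nr T α β - (gp β - gp α)| ≤ η + ε := by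
    intro α β hα hαβ
    have hc : ContinuousAt (fun z => gp z) α := gp_cont.continuousAt
    have h3 : ∀ᶠ z in 𝓝 α, gp α - ε / 4 < gp z := hc.eventually_const_lt (by
      show _ < gp α
      linarith)
    obtain ⟨δ, hδ, h4⟩ := Metric.eventually_nhds_iff.1 h3
    set z := max (α / 2) (α - δ / 2) with hz
    have hz1 : α / 2 ≤ z := le_max_left _ _
    have hz2 : α - δ / 2 ≤ z := le_max_right _ _
    have hz3 : z < α := by
      rw [hz, max_lt_iff]
      constructor <;> linarith
    have h5 := h4 (show dist z α < δ by rw [Real.dist_eq, abs_lt]; constructor <;> linarith)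
    filter_upwards [h α (ε / 4) (by positivity), h β (ε / 4) (by positivity),
      h z (ε / 4) (by positivity), hl (eventually_gt_atTop (1 : ℝ))] with T h1 h2 h3 hT
    have e1 := Ww_eq (T := T) (ℓ := β - α) hα
    rw [add_sub_cancel] at e1
    have b1 := Ww_lower (a := α) (ℓ := β - α) hT
    have b2 := Ww_upper (a := α) (ℓ := β - α) (η := α - z) hT (by linarith) (by linarith)
    rw [add_sub_cancel] at b1 b2
    rw [sub_sub_cancel] at b2
    have g1 : ∀ x, 0 < x → AG x = 1 + 2 * gp x := fun x hx => by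
      unfold AG
      rw [if_neg (by linarith)]
    rw [g1 α hα] at h1
    rw [g1 β (by linarith)] at h2
    rw [g1 z (by linarith)] at h3
    rw [abs_le] at h1 h2 h3 ⊢
    constructor <;> linarith [h1.1, h1.2, h2.1, h2.2, h3.1, h3.2]
  rcases lt_or_ge 0 α with hα | hα
  · have e : pr α β = gp β - gp α := by
      unfold pr
      rw [Set.indicator_of_notMem (by
        rintro ⟨h2, h3⟩
        linarith)]
      ring
    rw [e]
    exact hpos α β hα hαβ
  rcases lt_or_ge β 0 with hβ | hβ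
  · have e : pr α β = gp (-α) - gp (-β) := by
      unfold pr
      rw [gp_odd, gp_odd, Set.indicator_of_notMem (by
        rintro ⟨h2, h3⟩
        linarith)]
      ring
    rw [e]
    filter_upwards [hpos (-β) (-α) (by linarith) (by linarith)] with T hT
    have e2 : Nr T α β = Nr T (-β) (-α) := by
      unfold Nr
      congr 1
      rw [← PC_neg T (Set.Icc α β)]
      congr 1
      simp
    rw [e2]
    exact hT
  · have e : pr α β = (AG (-α) + AG β) / 2 := by
      unfold pr AG
      rw [gp_odd, Set.indicator_of_mem (show (0 : ℝ) ∈ Set.Icc α β from ⟨hα, hβ⟩),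
        if_neg (by linarith), if_neg (by linarith)]
      ring
    have e2 : ∀ T, Nr T α β = (Aa T (-α) + Aa T β) / 2 := by
      intro T
      have a1 := PC_abs T (y := -α) (by linarith)
      have a2 := PC_abs T (y := β) hβ
      have e3 : PC T (Set.Ico α 0) = PC T (Set.Ioc 0 (-α)) := by
        rw [← PC_neg T (Set.Ioc 0 (-α))]
        congr 1
        simp
      have e4 : PC T (Set.Icc α β) = PC T (Set.Ico α 0) + PC T (Set.Icc 0 β) := by
        rw [← PC_union T, Set.Ico_union_Icc_eq_Icc hα hβ]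
        rw [Set.disjoint_left]
        rintro x h1 h2
        exact absurd h1.2 (not_lt.2 h2.1)
      have e5 : PC T (Set.Icc 0 (-α)) = PC T {x | |x| ≤ 0} + PC T (Set.Ioc 0 (-α)) := by
        rw [← PC_union T]
        · congr 1
          ext x
          simp only [Set.mem_Icc, Set.mem_union, Set.mem_ofPred_eq, abs_nonpos_iff, Set.mem_Ioc]
          constructor
          · rintro ⟨h1, h2⟩
            rcases h1.eq_or_lt with h | h
            · exact Or.inl h.symm
            · exact Or.inr ⟨h, h2⟩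
          · rintro (rfl | ⟨h1, h2⟩)
            · exact ⟨le_rfl, by linarith⟩
            · exact ⟨h1.le, h2⟩
        · rw [Set.disjoint_left]
          rintro x (h1 : |x| ≤ 0) h2
          rw [abs_nonpos_iff] at h1
          rw [h1] at h2
          exact lt_irrefl _ h2.1
      unfold Nr Aa
      rw [a1, a2, e4, e3, e5]
      ring
    filter_upwards [h (-α) ε hε, h β ε hε] with T h1 h2
    rw [e2, e]
    rw [abs_le] at h1 h2 ⊢
    constructor <;> linarith [h1.1, h1.2, h2.1, h2.2]

lemma sinc_sq_lower (t : ℝ) : 1 - t ^ 2 / 3 ≤ Real.sinc t ^ 2 := by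
  have h0 : ∀ t : ℝ, 0 ≤ t → 1 - t ^ 2 / 3 ≤ Real.sinc t ^ 2 := by
    intro t ht
    rcases ht.eq_or_lt with rfl | ht
    · simp
    · rcases le_or_gt (t ^ 2) 6 with h6 | h6
      · have hs : t - t ^ 3 / 6 ≤ Real.sin t := by
          set φ : ℝ → ℝ := fun x => Real.sin x - x + x ^ 3 / 6 with hφ
          have hd : ∀ x, HasDerivAt φ (Real.cos x - 1 + x ^ 2 / 2) x := by
            intro x
            have h1 := ((Real.hasDerivAt_sin x).sub (hasDerivAt_id x)).add
              ((hasDerivAt_pow 3 x).div_const 6)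
            refine h1.congr_deriv ?_
            simp
            ring
          have hm : MonotoneOn φ (Set.Ici 0) := by
            refine monotoneOn_of_deriv_nonneg (convex_Ici 0)
              (continuous_iff_continuousAt.2 fun x => (hd x).continuousAt).continuousOn
              (fun x _ => (hd x).differentiableAt.differentiableWithinAt) fun x _ => ?_
            rw [(hd x).deriv]
            have := Real.one_sub_sq_div_two_le_cos (x := x)
            linarith
          have := hm (Set.mem_Ici.2 le_rfl) (Set.mem_Ici.2 ht.le) ht.le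
          simp only [hφ] at this
          simp at this
          linarith
        rw [Real.sinc_of_ne_zero ht.ne', div_pow, le_div_iff₀ (by positivity)]
        have h1 : 0 ≤ t - t ^ 3 / 6 := by nlinarith
        have h2 := pow_le_pow_left₀ h1 hs 2
        refine le_trans ?_ h2
        nlinarith [sq_nonneg (t ^ 3)]
      · have := sq_nonneg (Real.sinc t)
        linarith
  rcases le_total 0 t with h | h
  · exact h0 t h
  · have := h0 (-t) (by linarith)
    rwa [Real.sinc_neg, neg_sq] at this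

lemma gp_cube {x : ℝ} (hx : 0 ≤ x) : gp x ≤ π ^ 2 / 9 * x ^ 3 := by
  have h1 : gp x ≤ ∫ u in (0 : ℝ)..x, π ^ 2 / 3 * u ^ 2 := by
    unfold gp
    refine intervalIntegral.integral_mono_on hx (gd_cont.intervalIntegrable _ _)
      ((by fun_prop : Continuous fun u : ℝ => π ^ 2 / 3 * u ^ 2).intervalIntegrable _ _)
      fun u _ => ?_
    unfold gd
    have := sinc_sq_lower (π * u)
    nlinarith
  refine h1.trans (le_of_eq ?_)
  rw [intervalIntegral.integral_const_mul, integral_pow]
  ring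

lemma Me_le {ℓ : ℝ} (hℓ : 0 < ℓ) : Me ℓ ≤ π ^ 2 / 9 * ℓ ^ 3 := by
  unfold Me
  refine max_le (gp_cube hℓ.le) ?_
  have h1 := gp_cube (x := ℓ / 2) (by positivity)
  have h2 : 0 ≤ π ^ 2 / 9 * ℓ ^ 3 := by positivity
  have h3 : π ^ 2 / 9 * (ℓ / 2) ^ 3 = π ^ 2 / 9 * ℓ ^ 3 / 8 := by ring
  linarith

/-- **one length** -/
theorem one_length (RH : RiemannHypothesis) {l : Filter ℝ} (hl : l ≤ atTop) {ℓ s : ℝ}
    (hℓ : 0 < ℓ) (hs : s = 1 ∨ s = -1) (h : OneS l ℓ s) {α β : ℝ} (hαβ : α < β) {ε : ℝ}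
    (hε : 0 < ε) : ∀ᶠ T in l, |Nr T α β - pr α β| ≤ π ^ 2 / 9 * ℓ ^ 3 + ε := by
  obtain ⟨C, c, a0, hC, hc, ha0, h1⟩ := h
  have hs' : -s = 1 ∨ -s = -1 := by
    rcases hs with rfl | rfl
    · right; rfl
    · left; norm_num
  have h2 : ∀ a, a0 ≤ a → ∀ ε, 0 < ε → ∀ᶠ T in l,
      -(2 * C * Real.exp (-(c * a))) - ε ≤ -s * (Ww T a ℓ - 2 * (gp (a + ℓ) - gp a)) := by
    intro a ha ε hε
    filter_upwards [h1 a ha (ε / 2) (by positivity)] with T hT
    rw [Ww_eq (by linarith)]
    nlinarith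
  have h3 := fun x ε (hε : 0 < ε) => single_Aa RH hl hℓ hs' (C := 2 * C) (by positivity) hc ha0
    h2 x hε
  filter_upwards [Nr_close hl h3 hαβ hε] with T hT
  have := Me_le hℓ
  linarith

end Pool.Agent.Y744
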